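import Pool.Agent.H8.JS.Defs
import Pool.Agent.H69.Sp.Model

/-!
# NE with advice

Advice is counted by the number of its values: for inputs of length `n` the advice is a number
`α n < A n`. Bits: `A n = 2 ^ a n`.
-/

set_option autoImplicit false

namespace Pool.Agent.H76.ADV

open Pool.Agent.H8.JS Pool.Agent.H69.Sp

/-- The languages accepted in `NE` with `A n` advice values for the inputs of length `n`: there are a
language in `NE` (of the words whose numbers are in a set `X`) and numbers `α n < A n` such that `x` is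
accepted if and only if the pair of `α |x|` and (the number of) `x` is in `X`. -/
def NEadv (A : ℕ → ℕ) : Set (Set (List Bool)) :=
  {L | ∃ X : Set ℕ, lang X ∈ NE ∧ ∃ α : ℕ → ℕ, (∀ n, α n < A n) ∧
    ∀ x : List Bool, x ∈ L ↔ Nat.pair (α x.length) (num x) ∈ X}

/-- the number of words of length `n` on which `B` and `L` differ -/
noncomputable def err (B L : Set (List Bool)) (n : ℕ) : ℕ :=
  Set.ncard {x : List Bool | x.length = n ∧ ¬ (x ∈ B ↔ x ∈ L)}

/-- the words `0 ^ n` -/
def Tally : Set (List Bool) := {x | ∃ n, x = List.replicate n false}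

/-- the same for sets of positive numbers -/
def SA (A : ℕ → ℕ) (T : Set ℕ) : Prop :=
  ∃ X, IsSpectrum X ∧ ∃ α : ℕ → ℕ, (∀ n, α n < A n) ∧
    ∀ x, 0 < x → (x ∈ T ↔ Nat.pair (α (Nat.log 2 x)) x ∈ X)

/-- all complements -/
def CA (A : ℕ → ℕ) : Prop := ∀ S, IsSpectrum S → SA A (posCompl S)

/-- the number of `x` with `2 ^ n ≤ x < 2 ^ (n + 1)` on which `T` and `S` differ -/
noncomputable def er (T S : Set ℕ) (n : ℕ) : ℕ :=
  Set.ncard {x : ℕ | (2 ^ n ≤ x ∧ x < 2 ^ (n + 1)) ∧ ¬ (x ∈ T ↔ x ∈ S)}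

end Pool.Agent.H76.ADV
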