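import Mathlib
import Pool.Agent.H76.ADV.Defs

/-!
# NE with advice: targets
-/

set_option autoImplicit false

namespace Pool.Agent.H76.ADV

open Pool.Agent.H8.JS Pool.Agent.H69.Sp Filter

/-! ### spectra -/

/-- the conditions on the new length -/
structure Mu (μ : ℕ → ℕ) (K : ℕ) : Prop where
  pos : 0 < K
  mono : Monotone μ
  inc : ∃ n₁, ∀ n, n₁ ≤ n → μ n < μ (n + K)
  le : ∀ n, μ n ≤ n
  sp : IsSpectrum {z | ∃ n, z = 2 ^ n + μ n}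

/-- the census -/
def T_U : Prop := CA fun n => 2 ^ n + 1

/-- the general law -/
def T_G : Prop := ∀ (A μ : ℕ → ℕ) (K n₀ : ℕ), Mu μ K → (∀ n, n₀ ≤ n → K * A n ≤ 2 ^ μ n) →
  CA A → CA fun n => A (μ n)

/-- errors cost advice -/
def T_E : Prop := ∀ (A ν : ℕ → ℕ), (∀ n, ν n ≤ n) →
  IsSpectrum {z | ∃ n, z = 2 ^ n + ν n} →
  (∀ S, IsSpectrum S → ∃ T, SA A T ∧ ∀ᶠ n in atTop, 2 * er T (posCompl S) n < 2 ^ ν n) →
  CA fun n => A n * 2 ^ ν n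

/-- padding: few errors on the lengths that are multiples of `C + 1` -/
def T_P : Prop := ∀ C : ℕ,
  (∀ S, IsSpectrum S → ∃ T, IsSpectrum T ∧ ∀ᶠ k in atTop,
    2 * er T (posCompl S) ((C + 1) * k) < 2 ^ (C * k)) →
  ∀ S, IsSpectrum S → IsSpectrum (posCompl S)

/-- constant advice and tally sets -/
def T_T : Prop := ∀ K : ℕ, CA (fun _ => K) →
  (∀ S, IsSpectrum S → S ⊆ {z | ∃ n, z = 2 ^ n} → IsSpectrum ({z | ∃ n, z = 2 ^ n} \ S)) →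
  ∀ S, IsSpectrum S → IsSpectrum (posCompl S)

/-- the lengths `(p n - r) / q` -/
def T_MU : Prop := ∀ p q r : ℕ, 0 < p → p ≤ q → Mu (fun n => (p * n - r) / q) q

/-- without advice -/
def T_IN : Prop := ∀ (A : ℕ → ℕ) (T : Set ℕ), (∀ n, 0 < A n) → IsSpectrum T → SA A T

/-- more advice does not hurt -/
def T_MO : Prop := ∀ (A B : ℕ → ℕ) (n₀ : ℕ), (∀ n, 0 < B n) → (∀ n, n₀ ≤ n → A n ≤ B n) →
  CA A → CA B

/-! ### the laws -/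

/-- the zero-one law, without errors -/
def T_Z0 : Prop := ∀ α δ : ℝ, α < 1 → 0 < δ → CA (fun n => 2 ^ ⌊α * n⌋₊) →
  CA fun n => 2 ^ ⌊δ * n⌋₊

/-- the zero-one law, with errors -/
def T_Z1 : Prop := ∀ α β δ : ℝ, 0 ≤ α → 0 ≤ β → α + β < 1 → 0 < δ →
  (∀ S, IsSpectrum S → ∃ T, SA (fun n => 2 ^ ⌊α * n⌋₊) T ∧
    ∀ᶠ n in atTop, (er T (posCompl S) n : ℝ) ≤ (2 : ℝ) ^ (β * n)) →
  CA fun n => 2 ^ ⌊δ * n⌋₊

/-- near the threshold -/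
def T_N1 : Prop := CA (fun n => 2 ^ (n - 1)) → ∀ k, CA fun n => 2 ^ (n - k)

/-- near the threshold, with errors -/
def T_N2 : Prop := (∀ S, IsSpectrum S → ∃ T, IsSpectrum T ∧
    ∀ᶠ n in atTop, 4 * er T (posCompl S) n < 2 ^ n) → ∀ k, CA fun n => 2 ^ (n - k)

/-- sublinear advice -/
def T_SL : Prop := ∀ A : ℕ → ℕ, (∀ ε : ℝ, 0 < ε → ∀ᶠ n : ℕ in atTop, (A n : ℝ) ≤ (2 : ℝ) ^ (ε * n)) →
  CA A → ∀ C : ℕ, 0 < C → CA fun n => A (n / C)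

/-- average case -/
def T_AV : Prop := ∀ β : ℝ, β < 1 → (∀ S, IsSpectrum S → ∃ T, IsSpectrum T ∧
    ∀ᶠ n in atTop, (er T (posCompl S) n : ℝ) ≤ (2 : ℝ) ^ (β * n)) →
  ∀ S, IsSpectrum S → IsSpectrum (posCompl S)

/-! ### languages -/

/-- from languages to spectra -/
def T_B1 : Prop := ∀ (A : ℕ → ℕ) (L : Set (List Bool)), L ∈ NEadv A ↔ SA A (num '' L)

/-- complements -/
def T_B2 : Prop := ∀ A : ℕ → ℕ, coNE ⊆ NEadv A ↔ CA A

/-- errors -/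
def T_B3 : Prop := ∀ (B L : Set (List Bool)) (n : ℕ), err B L n = er (num '' B) (num '' L) n

end Pool.Agent.H76.ADV
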