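import Pool.Agent.H76.ADV.Cal2
import Pool.Agent.H76.ADV.Targets

/-!
# A calculus for spectra: predicates
-/

set_option autoImplicit false

namespace Pool.Agent.H76.ADV

open Pool.Agent.H69.Sp Pool.Agent.H69.Mt Pool.Agent.H1.VR Pool.Agent.H8.VR

section
variable {R R' : ℕ → Prop} {f g : ℕ → ℕ}

theorem RL.congr (h : RL R) (hRR : ∀ u, R u ↔ R' u) : RL R' := by
  have : R = R' := funext fun u => propext (hRR u)
  rwa [← this]

theorem RL.and (h : RL R) (h' : RL R') : RL (fun u => R u ∧ R' u) := by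
  obtain ⟨c, P, hP, p1, p2⟩ := h
  obtain ⟨c', P', hP', p1', p2'⟩ := h'
  exact ⟨c + c', fun N u => P N u ∧ P' N u, hP.and hP', fun N u h => ⟨p1 _ _ h.1, p1' _ _ h.2⟩,
    fun N u hN h => ⟨p2 N u (lt_of_le_of_lt (pw (by omega)) hN) h.1,
      p2' N u (lt_of_le_of_lt (pw (by omega)) hN) h.2⟩⟩

theorem RL.or (h : RL R) (h' : RL R') : RL (fun u => R u ∨ R' u) := by
  obtain ⟨c, P, hP, p1, p2⟩ := h
  obtain ⟨c', P', hP', p1', p2'⟩ := h'
  exact ⟨c + c', fun N u => P N u ∨ P' N u, hP.or hP', fun N u h => h.imp (p1 _ _) (p1' _ _),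
    fun N u hN h => h.imp (p2 N u (lt_of_le_of_lt (pw (by omega)) hN))
      (p2' N u (lt_of_le_of_lt (pw (by omega)) hN))⟩

theorem RL.const (p : Prop) : RL (fun _ => p) :=
  ⟨0, fun _ _ => p, EK.const p, fun _ _ h => h, fun _ _ _ h => h⟩

/-- substitution -/
theorem RL.comp (h : RL R) (hf : GR f) : RL (fun u => R (f u)) := by
  obtain ⟨c, P, hP, p1, p2⟩ := h
  obtain ⟨c', P', hP', p1', p2', p3'⟩ := hf
  refine ⟨(c' + 2) * c + c', fun N u => ∃ e : Fin 1 → ℕ, Lt N e ∧ P' N u (e 0) ∧ P N (e 0),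
    ?_, ?_, ?_⟩
  · exact EK.ex (κ := Fin 1) (α := Fin 1) (P := fun N w => P' N (w (Sum.inl 0)) (w (Sum.inr 0)) ∧
      P N (w (Sum.inr 0))) ((hP'.sub ![Sum.inl 0, Sum.inr 0]).and (hP.sub ![Sum.inr 0]))
  · rintro N u ⟨e, _, e1, e2⟩
    have := p1 _ _ e2
    rwa [p1' _ _ _ e1] at this
  · intro N u hN h
    have h1 : (f u + 2) ^ c ≤ (u + 2) ^ ((c' + 2) * c) :=
      (Nat.pow_le_pow_left (by omega) c).trans (pwc (p2' u) (Nat.zero_le _))
    have h2 : (u + 2) ^ c' < N := lt_of_le_of_lt (pw (by omega)) hN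
    exact ⟨fun _ => f u, fun _ => lt_of_le_of_lt (p2' u) h2, p3' N u h2,
      p2 N _ (lt_of_le_of_lt (h1.trans (pw (by omega))) hN) h⟩

theorem RL.mem {X : Set ℕ} (hX : IsSpectrum X) (hf : GR f) : RL (fun u => f u ∈ X) :=
  RL.comp (R := fun u => u ∈ X) ⟨0, fun _ u => u ∈ X, EK.mem hX 0, fun _ _ h => h, fun _ _ _ h => h⟩ hf

theorem RL.le (hf : GR f) (hg : GR g) : RL (fun u => f u ≤ g u) := by
  refine (RL.comp (R := fun w => (Nat.unpair w).1 ≤ (Nat.unpair w).2) ?_ (hf.pair hg)).congr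
    fun u => by simp
  refine ⟨1, fun N w => ∃ e : Fin 2 → ℕ, Lt N e ∧ w = Nat.pair (e 0) (e 1) ∧ e 0 ≤ e 1, ?_, ?_, ?_⟩
  · exact EK.ex (κ := Fin 1) (α := Fin 2) (P := fun _ w => w (Sum.inl 0) =
      Nat.pair (w (Sum.inr 0)) (w (Sum.inr 1)) ∧ w (Sum.inr 0) ≤ w (Sum.inr 1))
      (EK.and (EK.of fun im => fd_pair _ _ _) (EK.of (FV.le _ _)))
  · rintro N w ⟨e, _, rfl, h⟩
    simpa using h
  · intro N w hN h
    rw [pow_one] at hN
    have h1 := Nat.unpair_left_le w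
    have h2 := Nat.unpair_right_le w
    refine ⟨![(Nat.unpair w).1, (Nat.unpair w).2], fun i => ?_, (Nat.pair_unpair w).symm, h⟩
    fin_cases i
    · show (Nat.unpair w).1 < N
      omega
    · show (Nat.unpair w).2 < N
      omega

theorem RL.lt (hf : GR f) (hg : GR g) : RL (fun u => f u < g u) :=
  (RL.le (hf.add (GR.num 1)) hg).congr fun _ => Nat.succ_le_iff

theorem RL.eq (hf : GR f) (hg : GR g) : RL (fun u => f u = g u) :=
  ((RL.le hf hg).and (RL.le hg hf)).congr fun _ => by omega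

theorem RL.ne (hf : GR f) (hg : GR g) : RL (fun u => f u ≠ g u) :=
  ((RL.lt hf hg).or (RL.lt hg hf)).congr fun _ => by omega

end

section
variable {R : ℕ → ℕ → Prop} {f g : ℕ → ℕ}

theorem pair_bd {u s m : ℕ} (hs : s ≤ (u + 2) ^ m) : Nat.pair s u + 2 ≤ (u + 2) ^ (2 * m + 7) := by
  have h1 := Nat.pair_lt_max_add_one_sq s u
  have h2 : max s u + 1 ≤ (u + 2) ^ (m + 2) := by
    have h3 := pw2 u m
    have h4 := pw2 u (m + 1)
    have h5 : u + 2 ≤ (u + 2) ^ (m + 1) := Nat.le_self_pow (by omega) _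
    have e : m + 1 + 1 = m + 2 := rfl
    rw [e] at h4
    omega
  have h6 : (max s u + 1) ^ 2 ≤ ((u + 2) ^ (m + 2)) ^ 2 := Nat.pow_le_pow_left h2 2
  rw [← pow_mul] at h6
  have h7 := pw2 u ((m + 2) * 2)
  have h8 : (u + 2) ^ ((m + 2) * 2 + 1) ≤ (u + 2) ^ (2 * m + 7) := pw (by omega)
  have h9 := pw1 u ((m + 2) * 2)
  omega

/-- the predicate for the pair -/
theorem ek_pair {P : ℕ → ℕ → Prop} (hP : EK (κ := Fin 1) (fun N w => P N (w 0))) :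
    EK (κ := Fin 2) (fun N w => ∃ e : Fin 1 → ℕ, Lt N e ∧ e 0 = Nat.pair (w 0) (w 1) ∧ P N (e 0)) :=
  EK.ex (κ := Fin 2) (α := Fin 1) (P := fun N w => w (Sum.inr 0) = Nat.pair (w (Sum.inl 0))
    (w (Sum.inl 1)) ∧ P N (w (Sum.inr 0)))
    (EK.and (EK.of fun im => fd_pair _ _ _) (hP.sub ![Sum.inr 0]))

theorem RL.ex (h : RL (fun w => R (Nat.unpair w).1 (Nat.unpair w).2)) (hg : GR g) :
    RL (fun u => ∃ s, s < g u ∧ R s u) := by
  obtain ⟨c, P, hP, p1, p2⟩ := h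
  obtain ⟨c', P', hP', p1', p2', p3'⟩ := hg
  refine ⟨(2 * c' + 7) * (c + 1), fun N u => ∃ e : Fin 2 → ℕ, Lt N e ∧ P' N u (e 0) ∧ e 1 < e 0 ∧
    ∃ d : Fin 1 → ℕ, Lt N d ∧ d 0 = Nat.pair (e 1) u ∧ P N (d 0), ?_, ?_, ?_⟩
  · exact EK.ex (κ := Fin 1) (α := Fin 2) (P := fun N w => P' N (w (Sum.inl 0)) (w (Sum.inr 0)) ∧
      w (Sum.inr 1) < w (Sum.inr 0) ∧ ∃ d : Fin 1 → ℕ, Lt N d ∧ d 0 = Nat.pair (w (Sum.inr 1))
        (w (Sum.inl 0)) ∧ P N (d 0))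
      (EK.and (hP'.sub ![Sum.inl 0, Sum.inr 0]) (EK.and (EK.of (FV.lt _ _))
        ((ek_pair hP).sub ![Sum.inr 1, Sum.inl 0])))
  · rintro N u ⟨e, _, e1, e2, d, _, e3, e4⟩
    have h1 := p1 _ _ e4
    rw [e3, Nat.unpair_pair] at h1
    rw [p1' _ _ _ e1] at e2
    exact ⟨e 1, e2, h1⟩
  · rintro N u hN ⟨s, hs, h⟩
    have h0 : (u + 2) ^ (2 * c' + 7) ≤ (u + 2) ^ ((2 * c' + 7) * (c + 1)) :=
      pw (Nat.le_mul_of_pos_right _ (by omega))
    have h1 : (u + 2) ^ c' < N := lt_of_le_of_lt ((pw (by omega)).trans h0) hN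
    have hs' : s ≤ (u + 2) ^ c' := by
      have := p2' u
      omega
    have h2 := pair_bd hs'
    have h3 : (Nat.pair s u + 2) ^ c ≤ (u + 2) ^ ((2 * c' + 7) * (c + 1)) := by
      refine (Nat.pow_le_pow_left h2 c).trans ?_
      rw [← pow_mul]
      exact pw (Nat.mul_le_mul_left _ (by omega))
    have h4 : Nat.pair s u < N := by omega
    have h5 := p2' u
    refine ⟨![g u, s], fun i => ?_, p3' N u h1, hs, fun _ => Nat.pair s u, fun _ => h4, rfl,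
      p2 N _ (lt_of_le_of_lt h3 hN) (by beta_reduce; rw [Nat.unpair_pair]; exact h)⟩
    fin_cases i
    · show g u < N
      omega
    · show s < N
      omega

theorem RL.all (h : RL (fun w => R (Nat.unpair w).1 (Nat.unpair w).2)) (hg : GR g) :
    RL (fun u => ∀ s, s < g u → R s u) := by
  obtain ⟨c, P, hP, p1, p2⟩ := h
  obtain ⟨c', P', hP', p1', p2', p3'⟩ := hg
  refine ⟨(2 * c' + 7) * (c + 1), fun N u => ∃ e : Fin 1 → ℕ, Lt N e ∧ P' N u (e 0) ∧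
    ∀ a : Fin 1 → ℕ, Lt N a → e 0 ≤ a 0 ∨
    ∃ d : Fin 1 → ℕ, Lt N d ∧ d 0 = Nat.pair (a 0) u ∧ P N (d 0), ?_, ?_, ?_⟩
  · refine EK.ex (κ := Fin 1) (α := Fin 1) (P := fun N w => P' N (w (Sum.inl 0)) (w (Sum.inr 0)) ∧
      ∀ a : Fin 1 → ℕ, Lt N a → w (Sum.inr 0) ≤ a 0 ∨ ∃ d : Fin 1 → ℕ, Lt N d ∧
        d 0 = Nat.pair (a 0) (w (Sum.inl 0)) ∧ P N (d 0))
      (EK.and (hP'.sub ![Sum.inl 0, Sum.inr 0]) ?_)
    exact EK.all (κ := Fin 1 ⊕ Fin 1) (α := Fin 1) (P := fun N w => w (Sum.inl (Sum.inr 0)) ≤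
      w (Sum.inr 0) ∨ ∃ d : Fin 1 → ℕ, Lt N d ∧
        d 0 = Nat.pair (w (Sum.inr 0)) (w (Sum.inl (Sum.inl 0))) ∧ P N (d 0))
      (EK.or (EK.of (FV.le _ _)) ((ek_pair hP).sub ![Sum.inr 0, Sum.inl (Sum.inl 0)]))
  · rintro N u ⟨e, he, e1, e2⟩ s hs
    have h0 := p1' _ _ _ e1
    have h00 := he 0
    rcases e2 (fun _ => s) (fun _ => by show s < N; omega) with h1 | ⟨d, _, e3, e4⟩
    · have h2 : e 0 ≤ s := h1
      omega
    · have h1 := p1 _ _ e4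
      rw [e3, Nat.unpair_pair] at h1
      exact h1
  · rintro N u hN h
    have h0 : (u + 2) ^ (2 * c' + 7) ≤ (u + 2) ^ ((2 * c' + 7) * (c + 1)) :=
      pw (Nat.le_mul_of_pos_right _ (by omega))
    have h1 : (u + 2) ^ c' < N := lt_of_le_of_lt ((pw (by omega)).trans h0) hN
    have h5 := p2' u
    refine ⟨fun _ => g u, fun _ => by show g u < N; omega, p3' N u h1, fun a ha => ?_⟩
    rcases Nat.lt_or_ge (a 0) (g u) with hs | hs
    · right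
      have hs' : a 0 ≤ (u + 2) ^ c' := by omega
      have h2 := pair_bd hs'
      have h3 : (Nat.pair (a 0) u + 2) ^ c ≤ (u + 2) ^ ((2 * c' + 7) * (c + 1)) := by
        refine (Nat.pow_le_pow_left h2 c).trans ?_
        rw [← pow_mul]
        exact pw (Nat.mul_le_mul_left _ (by omega))
      have h4 : Nat.pair (a 0) u < N := by omega
      exact ⟨fun _ => Nat.pair (a 0) u, fun _ => h4, rfl,
        p2 N _ (lt_of_le_of_lt h3 hN) (by beta_reduce; rw [Nat.unpair_pair]; exact h _ hs)⟩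
    · left
      exact hs

theorem RL.card (h : RL (fun w => R (Nat.unpair w).1 (Nat.unpair w).2)) (hf : GR f) (hg : GR g) :
    RL (fun u => f u ≤ Set.ncard {s | s < g u ∧ R s u}) := by
  obtain ⟨c, P, hP, p1, p2⟩ := h
  obtain ⟨b, Q, hQ, q1, q2, q3⟩ := hf
  obtain ⟨c', P', hP', p1', p2', p3'⟩ := hg
  have hfin : ∀ u, {s | s < g u ∧ R s u}.Finite := fun u => (Set.finite_Iio (g u)).subset fun t ht => ht.1
  refine ⟨(2 * c' + 7) * (c + 1) + b, fun N u => ∃ e : Fin 2 → ℕ, Lt N e ∧ P' N u (e 0) ∧ Q N u (e 1) ∧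
    e 1 ≤ Set.ncard {s | s < N ∧ (s < e 0 ∧
      ∃ d : Fin 1 → ℕ, Lt N d ∧ d 0 = Nat.pair s u ∧ P N (d 0))}, ?_, ?_, ?_⟩
  · refine EK.ex (κ := Fin 1) (α := Fin 2) (P := fun N w => P' N (w (Sum.inl 0)) (w (Sum.inr 0)) ∧
      Q N (w (Sum.inl 0)) (w (Sum.inr 1)) ∧ w (Sum.inr 1) ≤ Set.ncard {s | s < N ∧
        (s < w (Sum.inr 0) ∧ ∃ d : Fin 1 → ℕ, Lt N d ∧
          d 0 = Nat.pair s (w (Sum.inl 0)) ∧ P N (d 0))})
      (EK.and (hP'.sub ![Sum.inl 0, Sum.inr 0]) (EK.and (hQ.sub ![Sum.inl 0, Sum.inr 1]) ?_))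
    exact EK.card (κ := Fin 1 ⊕ Fin 2) (P := fun N w => w (Sum.inr 0) < w (Sum.inl (Sum.inr 0)) ∧
      ∃ d : Fin 1 → ℕ, Lt N d ∧ d 0 = Nat.pair (w (Sum.inr 0)) (w (Sum.inl (Sum.inl 0))) ∧
        P N (d 0))
      (EK.and (EK.of (FV.lt _ _)) ((ek_pair hP).sub ![Sum.inr 0, Sum.inl (Sum.inl 0)])) _
  · rintro N u ⟨e, he, e1, e2, e3⟩
    rw [p1' _ _ _ e1, q1 _ _ _ e2] at e3
    refine e3.trans (Set.ncard_le_ncard ?_ (hfin u))
    rintro s ⟨_, h1, d, _, h2, h3⟩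
    have h4 := p1 _ _ h3
    rw [h2, Nat.unpair_pair] at h4
    exact ⟨h1, h4⟩
  · rintro N u hN h
    have h0 : (u + 2) ^ (2 * c' + 7) ≤ (u + 2) ^ ((2 * c' + 7) * (c + 1)) :=
      pw (Nat.le_mul_of_pos_right _ (by omega))
    have h00 : (u + 2) ^ ((2 * c' + 7) * (c + 1)) ≤ (u + 2) ^ ((2 * c' + 7) * (c + 1) + b) :=
      pw (by omega)
    have h1 : (u + 2) ^ c' < N := lt_of_le_of_lt ((pw (by omega)).trans (h0.trans h00)) hN
    have h1' : (u + 2) ^ b < N := lt_of_le_of_lt (pw (by omega)) hN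
    have h5 := p2' u
    have h6 := q2 u
    refine ⟨![g u, f u], fun i => ?_, p3' N u h1, q3 N u h1', h.trans (Set.ncard_le_ncard ?_
      ((Set.finite_Iio N).subset fun t ht => ht.1))⟩
    · fin_cases i
      · show g u < N
        omega
      · show f u < N
        omega
    · rintro s ⟨hs, hR⟩
      have hs' : s ≤ (u + 2) ^ c' := by omega
      have h2 := pair_bd hs'
      have h3 : (Nat.pair s u + 2) ^ c ≤ (u + 2) ^ ((2 * c' + 7) * (c + 1)) := by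
        refine (Nat.pow_le_pow_left h2 c).trans ?_
        rw [← pow_mul]
        exact pw (Nat.mul_le_mul_left _ (by omega))
      have h4 : Nat.pair s u < N := by omega
      exact ⟨by omega, hs, fun _ => Nat.pair s u, fun _ => h4, rfl,
        p2 N _ (lt_of_le_of_lt (h3.trans h00) hN) (by beta_reduce; rw [Nat.unpair_pair]; exact hR)⟩

end

theorem fin_isSpectrum (n : ℕ) (F : Set ℕ) : IsSpectrum {u | 0 < u ∧ (u < n ∧ u ∈ F)} := by
  have h : UltPer {u | u < n ∧ u ∈ F} := ⟨n, 1, by norm_num, fun u hu => by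
    show (u < n ∧ u ∈ F) ↔ (u + 1 < n ∧ u + 1 ∈ F)
    omega⟩
  exact h.isSpectrum

theorem RL.ofSpectrum {X : Set ℕ} (hX : IsSpectrum X) : RL (fun u => u ∈ X) := RL.mem hX GR.id

/-- the conclusion of the calculus -/
theorem RL.isSpectrum {R : ℕ → Prop} (h : RL R) : IsSpectrum {u | 0 < u ∧ R u} := by
  obtain ⟨c, P, hP, p1, p2⟩ := h
  -- universe of size `z ^ 2 ^ (2 * c + 1)`
  have key : ∀ z : ℕ, 2 ≤ z → (z + 2) ^ c < z ^ 2 ^ (2 * c + 1) := by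
    intro z hz
    have h1 : (z + 2) ^ c ≤ z ^ (2 * c) := by
      rw [pow_mul]
      exact Nat.pow_le_pow_left (by nlinarith) c
    refine lt_of_le_of_lt h1 (Nat.pow_lt_pow_right (by omega) ?_)
    exact lt_of_le_of_lt (by omega : 2 * c ≤ 2 * c + 1) Nat.lt_two_pow_self
  have h1 := hP.isSpectrum (2 * c)
  have h2 : IsSpectrum {u | 0 < u ∧ (u < 2 ∧ u ∈ {u | R u})} := fin_isSpectrum 2 _
  have h3 : ED (fun _ _ v => v 0 ∈ {z | 2 ≤ z ∧ P (z ^ 2 ^ (2 * c + 1)) z} ∨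
      v 0 ∈ {u | 0 < u ∧ (u < 2 ∧ u ∈ {u | R u})}) := (mem_ed h1 0).or (mem_ed h2 0)
  have h4 := wrap h3 (T := {u | 0 < u ∧ R u}) (by simp) fun z hz => by
    simp only [Function.update_self]
    constructor
    · rintro ⟨_, hR⟩
      exact ⟨fun _ _ => False, Or.inl ⟨hz, p2 _ _ (key z hz) hR⟩⟩
    · rintro ⟨_, h5 | h5⟩
      · exact ⟨by omega, p1 _ _ h5.2⟩
      · exact ⟨h5.1, h5.2.2⟩
  exact h4

end Pool.Agent.H76.ADV
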