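import Pool.Agent.H76.ADV.CO

/-!
# NE with advice: from the collapse of exponential levels of the difference hierarchy to the advice
-/

set_option autoImplicit false

namespace Pool.Agent.H76.ADV

open Pool.Agent.H69.Sp Pool.Agent.H69.Mt Pool.Agent.H8.JS Classical Filter

/-- the number of the multiples of `b` up to `c` -/
theorem card_mul {b c R : ℕ} (hb : 0 < b) (hc : c ≤ R) :
    Set.ncard {j | j < R ∧ (j + 1) * b ≤ c} = c / b := by
  have : {j | j < R ∧ (j + 1) * b ≤ c} = ((Finset.range (c / b) : Finset ℕ) : Set ℕ) := by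
    ext j
    simp only [Set.mem_ofPred_eq, Finset.coe_range, Set.mem_Iio]
    rw [← Nat.le_div_iff_mul_le hb]
    have h1 := Nat.div_le_self c b
    omega
  rw [this, Set.ncard_coe_finset, Finset.card_range]

/-- two different numbers differ in a digit -/
theorem exists_bit {n c c' : ℕ} (hc : c < 2 ^ (n + 1)) (hc' : c' < 2 ^ (n + 1)) (h : c ≠ c') :
    ∃ i ≤ n, c / 2 ^ i % 2 ≠ c' / 2 ^ i % 2 := by
  by_contra hno
  apply h
  refine Nat.eq_of_testBit_eq fun i => ?_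
  rcases Nat.lt_or_ge n i with h1 | h1
  · have h2 : 2 ^ (n + 1) ≤ 2 ^ i := Nat.pow_le_pow_right (by norm_num) h1
    rw [Nat.testBit_lt_two_pow (by omega), Nat.testBit_lt_two_pow (by omega)]
  · have h2 : c / 2 ^ i % 2 = c' / 2 ^ i % 2 := by
      by_contra h3
      exact hno ⟨i, h1, h3⟩
    rw [Nat.testBit_eq_decide_div_mod_eq, Nat.testBit_eq_decide_div_mod_eq, h2]

/-- the possible levels -/
def lv (Y : Set ℕ) (m c' a y : ℕ) : Prop :=
  (Nat.unpair y).1 = 2 ^ Nat.log 2 (Nat.unpair y).1 ∧ (Nat.unpair y).1 ≤ m ∧ ∃ l, l < m + 1 ∧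
    ((Nat.unpair y).2 ≤ l ∧ l ≤ a ∧ (l + c' / (Nat.unpair y).1) % 2 = 0 ∧
      (l = 0 ∨ Nat.pair (l - 1) (m + (Nat.unpair y).1 - 1) ∈ Y))

theorem RL.lv {Y : Set ℕ} (hY : IsSpectrum Y) {f g h k : ℕ → ℕ} (hf : GR f) (hg : GR g)
    (hh : GR h) (hk : GR k) : RL (fun u => lv Y (f u) (g u) (h u) (k u)) := by
  have h : RL (fun w => ADV.lv Y (Nat.unpair (Nat.unpair w).1).1 (Nat.unpair (Nat.unpair w).1).2
      (Nat.unpair (Nat.unpair w).2).1 (Nat.unpair (Nat.unpair w).2).2) := by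
    refine RL.and (RL.eq GR.id.snd.snd.fst GR.id.snd.snd.fst.powlog)
      (RL.and (RL.le GR.id.snd.snd.fst GR.id.fst.fst) ?_)
    refine RL.ex (R := fun l w => (Nat.unpair (Nat.unpair (Nat.unpair w).2).2).2 ≤ l ∧
      l ≤ (Nat.unpair (Nat.unpair w).2).1 ∧
      (l + (Nat.unpair (Nat.unpair w).1).2 / (Nat.unpair (Nat.unpair (Nat.unpair w).2).2).1) % 2 = 0 ∧
      (l = 0 ∨ Nat.pair (l - 1) ((Nat.unpair (Nat.unpair w).1).1 +
        (Nat.unpair (Nat.unpair (Nat.unpair w).2).2).1 - 1) ∈ Y)) ?_ (GR.id.fst.fst.add (GR.num 1))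
    refine RL.and (RL.le GR.id.snd.snd.snd.snd GR.id.fst) (RL.and (RL.le GR.id.fst
      GR.id.snd.snd.fst) (RL.and (RL.eq ((GR.id.fst.add (GR.id.snd.fst.snd.div
        GR.id.snd.snd.snd.fst)).mod (GR.num 2)) (GR.num 0)) (RL.or (RL.eq GR.id.fst (GR.num 0)) ?_)))
    exact RL.mem hY ((GR.id.fst.sub (GR.num 1)).pair ((GR.id.snd.fst.fst.add
      GR.id.snd.snd.snd.fst).sub (GR.num 1)))
  exact (h.comp ((hf.pair hg).pair (hh.pair hk))).congr fun u => by simp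

/-- a polynomial is smaller than an exponential function -/
theorem ev_lin {ε : ℝ} (hε : 0 < ε) : ∀ᶠ n : ℕ in atTop, 16 * ((n : ℝ) + 1) ≤ (2 : ℝ) ^ (ε * n) := by
  have h1 : Tendsto (fun n : ℕ => (n : ℝ) ^ 1 * ((2 : ℝ) ^ (-ε)) ^ n) atTop (nhds 0) :=
    tendsto_pow_const_mul_const_pow_of_abs_lt_one 1 (by
      rw [abs_of_pos (by positivity)]
      exact Real.rpow_lt_one_of_one_lt_of_neg (by norm_num) (by linarith))
  have h2 := h1.eventually (gt_mem_nhds (show (0 : ℝ) < 1 / 32 by norm_num))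
  filter_upwards [h2, eventually_ge_atTop 1] with n hn hn1
  have h3 : (1 : ℝ) ≤ n := by exact_mod_cast hn1
  have h4 : ((2 : ℝ) ^ (-ε)) ^ n = ((2 : ℝ) ^ (ε * n))⁻¹ := by
    rw [← Real.rpow_natCast, ← Real.rpow_mul (by norm_num), ← Real.rpow_neg (by norm_num)]
    congr 1
    ring
  have h5 : (0 : ℝ) < (2 : ℝ) ^ (ε * n) := by positivity
  rw [pow_one, h4, ← div_eq_mul_inv, div_lt_iff₀ h5] at hn
  linarith

theorem pf_ZZ : T_ZZ := by
  intro γ hγ0 hγ1 hyp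
  set ε : ℝ := (1 - γ) / 4 with hε
  have hε0 : 0 < ε := by rw [hε]; linarith
  obtain ⟨q, hq⟩ := exists_nat_gt (1 / ε)
  have hq0 : (0 : ℝ) < q := lt_trans (by positivity) hq
  have hqn : 0 < q := by exact_mod_cast hq0
  have hqe : (1 : ℝ) / q < ε := by
    rw [div_lt_iff₀ hε0] at hq
    rw [div_lt_iff₀ hq0]
    linarith
  refine ⟨γ + 3 * ε, by linarith, by linarith, fun S hS => ?_⟩
  have hMU := pf_MU 1 q 0 Nat.one_pos hqn
  set ν : ℕ → ℕ := fun n => (1 * n - 0) / q with hν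
  -- the set with `2 ^ n` levels
  set cn : ℕ → ℕ := fun n => Set.ncard {y | y < 2 * 2 ^ n ∧ (2 ^ n ≤ y ∧ y ∈ S)} with hcn
  have hcle : ∀ n, cn n ≤ 2 ^ n := by
    intro n
    have h1 : {y | y < 2 * 2 ^ n ∧ (2 ^ n ≤ y ∧ y ∈ S)} ⊆
        (Finset.Ico (2 ^ n) (2 * 2 ^ n) : Set ℕ) := by
      rintro y ⟨h1, h2, _⟩
      simp [h1, h2]
    have h2 := Set.ncard_le_ncard h1 (Finset.finite_toSet _)
    rw [Set.ncard_coe_finset, Nat.card_Ico] at h2
    show Set.ncard {y | y < 2 * 2 ^ n ∧ (2 ^ n ≤ y ∧ y ∈ S)} ≤ 2 ^ n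
    omega
  set X : Set ℕ := {w | 0 < w ∧ ((Nat.unpair w).1 + 1) *
    2 ^ Nat.log 2 ((Nat.unpair w).2 + 1 - 2 ^ Nat.log 2 (Nat.unpair w).2) ≤
      Set.ncard {y | y < 2 * 2 ^ Nat.log 2 (Nat.unpair w).2 ∧
        (2 ^ Nat.log 2 (Nat.unpair w).2 ≤ y ∧ y ∈ S)}} with hX
  have hXs : IsSpectrum X := by
    refine RL.isSpectrum ?_
    exact RL.card (R := fun y w => 2 ^ Nat.log 2 (Nat.unpair w).2 ≤ y ∧ y ∈ S)
      ((RL.le GR.id.snd.snd.powlog GR.id.fst).and (RL.mem hS GR.id.fst))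
      ((GR.id.fst.add (GR.num 1)).mul ((GR.id.snd.add (GR.num 1)).sub GR.id.snd.powlog).powlog)
      ((GR.num 2).mul GR.id.snd.powlog)
  obtain ⟨Y, hY, hYd, hYT⟩ := hyp
    {z | Odd (Set.ncard {j | j < 2 ^ Nat.log 2 z ∧ Nat.pair j z ∈ X})}
    ⟨X, hXs, fun z j hz h => by
      simp only [hX, Set.mem_ofPred_eq, Nat.unpair_pair, pair_pos hz, true_and] at h ⊢
      exact le_trans (Nat.mul_le_mul_right _ (by omega)) h, fun z _ => Iff.rfl⟩
  set A : ℕ → ℕ := fun n => 2 ^ ⌊γ * n⌋₊ with hA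
  have hfl : ∀ n : ℕ, ⌊γ * n⌋₊ ≤ n := by
    intro n
    have h1 : ((⌊γ * n⌋₊ : ℕ) : ℝ) ≤ γ * n := Nat.floor_le (by positivity)
    have h2 : γ * n ≤ n := by
      have : (0 : ℝ) ≤ n := Nat.cast_nonneg n
      nlinarith
    exact_mod_cast h1.trans h2
  have hAm : ∀ n, A n ≤ 2 ^ n := fun n => Nat.pow_le_pow_right (by norm_num) (hfl n)
  set u : ℕ → ℕ → ℕ := fun n b => Set.ncard {j | j < A n ∧ Nat.pair j (2 ^ n + b - 1) ∈ Y} with hu
  have huA : ∀ n b, u n b ≤ A n := by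
    intro n b
    have h1 : {j | j < A n ∧ Nat.pair j (2 ^ n + b - 1) ∈ Y} ⊆
        ((Finset.range (A n) : Finset ℕ) : Set ℕ) := fun i hi => by simpa using hi.1
    have h2 := Set.ncard_le_ncard h1 (Finset.finite_toSet _)
    rwa [Set.ncard_coe_finset, Finset.card_range] at h2
  have hlev : ∀ n b l, 0 < b → l ≤ A n → ((l = 0 ∨ Nat.pair (l - 1) (2 ^ n + b - 1) ∈ Y) ↔
      l ≤ u n b) := by
    intro n b l hb hl
    have h2 := Nat.two_pow_pos n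
    have hz : 0 < 2 ^ n + b - 1 := by omega
    rcases Nat.eq_zero_or_pos l with rfl | hl0
    · simp
    · have h3 := chain_iff hYd hz (A n) (l - 1) (by omega)
      constructor
      · rintro (h1 | h1)
        · omega
        · have h4 : l - 1 < u n b := h3.1 h1
          omega
      · intro h1
        refine Or.inr (h3.2 ?_)
        show l - 1 < u n b
        omega
  have hpar : ∀ n i, i ≤ n → u n (2 ^ i) % 2 = cn n / 2 ^ i % 2 := by
    intro n i hi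
    have h1 : (2 : ℕ) ^ i ≤ 2 ^ n := Nat.pow_le_pow_right (by norm_num) hi
    have h2 := Nat.two_pow_pos i
    have h3 := Nat.two_pow_pos n
    have hz : 0 < 2 ^ n + 2 ^ i - 1 := by omega
    have hlog : Nat.log 2 (2 ^ n + 2 ^ i - 1) = n := by
      rw [show 2 ^ n + 2 ^ i - 1 = 2 ^ n + (2 ^ i - 1) by omega]
      exact log_code (by omega)
    have h4 := hYT _ hz
    beta_reduce at h4
    rw [hlog] at h4
    have h5 : (2 ^ n + 2 ^ i - 1 ∈
        {z | Odd (Set.ncard {j | j < 2 ^ Nat.log 2 z ∧ Nat.pair j z ∈ X})}) ↔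
        Odd (cn n / 2 ^ i) := by
      show Odd (Set.ncard {j | j < 2 ^ Nat.log 2 (2 ^ n + 2 ^ i - 1) ∧
        Nat.pair j (2 ^ n + 2 ^ i - 1) ∈ X}) ↔ _
      rw [hlog, ← card_mul (R := 2 ^ n) h2 (hcle n)]
      have : {j | j < 2 ^ n ∧ Nat.pair j (2 ^ n + 2 ^ i - 1) ∈ X} =
          {j | j < 2 ^ n ∧ (j + 1) * 2 ^ i ≤ cn n} := by
        ext j
        simp only [hX, Set.mem_ofPred_eq, Nat.unpair_pair, pair_pos hz, true_and, hlog,
          show 2 ^ n + 2 ^ i - 1 + 1 - 2 ^ n = 2 ^ i by omega, Nat.log_pow (show 1 < 2 by norm_num)]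
        exact Iff.rfl
      rw [this]
    rw [h5, Nat.odd_iff, Nat.odd_iff] at h4
    show Set.ncard {j | j < A n ∧ Nat.pair j (2 ^ n + 2 ^ i - 1) ∈ Y} % 2 = _
    have h6 : Set.ncard {j | j < 2 ^ ⌊γ * n⌋₊ ∧ Nat.pair j (2 ^ n + 2 ^ i - 1) ∈ Y} =
        Set.ncard {j | j < A n ∧ Nat.pair j (2 ^ n + 2 ^ i - 1) ∈ Y} := rfl
    rw [h6] at h4
    omega
  -- the possible levels
  let RR : ℕ → ℕ → Set ℕ := fun n c' => {y | y < (2 ^ n + 1) * (2 ^ n + 1) ∧ lv Y (2 ^ n) c' (A n) y}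
  have hRfin : ∀ n c', (RR n c').Finite := fun n c' =>
    (Set.finite_Iio ((2 ^ n + 1) * (2 ^ n + 1))).subset fun y hy => hy.1
  have hRmem : ∀ n c' i j, i ≤ n → (Nat.pair (2 ^ i) j ∈ RR n c' ↔
      ∃ l, j ≤ l ∧ l ≤ u n (2 ^ i) ∧ (l + c' / 2 ^ i) % 2 = 0) := by
    intro n c' i j hi
    have h1 : (2 : ℕ) ^ i ≤ 2 ^ n := Nat.pow_le_pow_right (by norm_num) hi
    have h2 := Nat.two_pow_pos i
    have h3 := huA n (2 ^ i)
    have h4 := hAm n
    constructor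
    · rintro ⟨_, _, _, l, h5, h6, h7, h8, h9⟩
      simp only [Nat.unpair_pair] at h6 h8 h9
      exact ⟨l, h6, (hlev n (2 ^ i) l h2 h7).1 h9, h8⟩
    · rintro ⟨l, h5, h6, h7⟩
      refine ⟨?_, ?_⟩
      · calc Nat.pair (2 ^ i) j < (max (2 ^ i) j + 1) ^ 2 := Nat.pair_lt_max_add_one_sq _ _
          _ ≤ (2 ^ n + 1) ^ 2 := Nat.pow_le_pow_left (by
            have : max (2 ^ i) j ≤ 2 ^ n := max_le h1 (by omega)
            omega) 2
          _ = (2 ^ n + 1) * (2 ^ n + 1) := by ring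
      · unfold lv
        simp only [Nat.unpair_pair]
        refine ⟨by rw [Nat.log_pow (by norm_num)], h1, l, by omega, h5, by omega, h7,
          (hlev n (2 ^ i) l h2 (by omega)).2 h6⟩
  have hRpair : ∀ n c' y, y ∈ RR n c' → ∃ i ≤ n, ∃ j, y = Nat.pair (2 ^ i) j := by
    rintro n c' y ⟨_, h1, h2, _⟩
    refine ⟨Nat.log 2 (Nat.unpair y).1, ?_, (Nat.unpair y).2, ?_⟩
    · rw [h1] at h2
      exact (Nat.pow_le_pow_iff_right (by norm_num)).1 h2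
    · rw [← h1, Nat.pair_unpair]
  have hRsub : ∀ n c', RR n c' ⊆ RR n (cn n) := by
    intro n c' y hy
    obtain ⟨i, hi, j, rfl⟩ := hRpair n c' y hy
    obtain ⟨l, h1, h2, _⟩ := (hRmem n c' i j hi).1 hy
    refine (hRmem n (cn n) i j hi).2 ⟨u n (2 ^ i), by omega, le_rfl, ?_⟩
    have := hpar n i hi
    omega
  have hRlt : ∀ n c', c' ≤ 2 ^ n → Set.ncard (RR n (cn n)) ≤ Set.ncard (RR n c') → c' = cn n := by
    intro n c' hc' hle
    by_contra hne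
    have h1 := hcle n
    have h2 : (2 : ℕ) ^ n < 2 ^ (n + 1) := Nat.pow_lt_pow_right (by norm_num) (by omega)
    obtain ⟨i, hi, h3⟩ := exists_bit (n := n) (by omega) (by omega) hne
    have h4 : Nat.pair (2 ^ i) (u n (2 ^ i)) ∈ RR n (cn n) := by
      refine (hRmem n (cn n) i _ hi).2 ⟨u n (2 ^ i), le_rfl, le_rfl, ?_⟩
      have := hpar n i hi
      omega
    have h5 : Nat.pair (2 ^ i) (u n (2 ^ i)) ∉ RR n c' := by
      intro h6
      obtain ⟨l, h7, h8, h9⟩ := (hRmem n c' i _ hi).1 h6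
      have := hpar n i hi
      have : l = u n (2 ^ i) := by omega
      rw [this] at h9
      omega
    have h6 : RR n c' ⊂ RR n (cn n) := ⟨hRsub n c', fun h7 => h5 (h7 h4)⟩
    have := Set.ncard_lt_ncard h6 (hRfin n _)
    omega
  have hRbd : ∀ n, Set.ncard (RR n (cn n)) ≤ (n + 1) * (A n + 1) := by
    intro n
    have h1 : RR n (cn n) ⊆ (((Finset.range (n + 1) ×ˢ Finset.range (A n + 1)).image
        fun p => Nat.pair (2 ^ p.1) p.2 : Finset ℕ) : Set ℕ) := by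
      intro y hy
      obtain ⟨i, hi, j, rfl⟩ := hRpair n _ y hy
      obtain ⟨l, h2, h3, _⟩ := (hRmem n _ i j hi).1 hy
      have h4 := huA n (2 ^ i)
      simp only [Finset.coe_image, Set.mem_image, Finset.mem_coe, Finset.mem_product,
        Finset.mem_range]
      exact ⟨(i, j), ⟨by omega, by omega⟩, rfl⟩
    have h2 := Set.ncard_le_ncard h1 (Finset.finite_toSet _)
    rw [Set.ncard_coe_finset] at h2
    refine h2.trans (Finset.card_image_le.trans ?_)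
    rw [Finset.card_product, Finset.card_range, Finset.card_range]
  -- large n
  have hev1 : ∀ᶠ n : ℕ in atTop, ⌊γ * n⌋₊ < 2 ^ ν n ∧
      (Set.ncard (RR n (cn n)) + 1) * 2 ^ ν n ≤ 2 ^ ⌊(γ + 3 * ε) * n⌋₊ := by
    filter_upwards [ev_lin (show (0 : ℝ) < 1 / q by positivity),
      ev_lin (show (0 : ℝ) < 2 * ε by positivity)] with n h1 h2
    have hn0 : (0 : ℝ) ≤ n := Nat.cast_nonneg n
    have h3 : ((ν n : ℕ) : ℝ) ≤ 1 / q * n := by
      have : ((ν n : ℕ) : ℝ) ≤ ((1 * n - 0 : ℕ) : ℝ) / q := Nat.cast_div_le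
      refine this.trans (le_of_eq ?_)
      rw [one_mul, Nat.sub_zero]
      ring
    have h4 : 1 / q * (n : ℝ) < ((ν n : ℕ) : ℝ) + 1 := by
      have h5 : n < (n / q + 1) * q := by
        have := Nat.lt_div_mul_add hqn (a := n)
        rw [add_mul, one_mul]
        omega
      have h6 : (n : ℝ) < (((n / q : ℕ) : ℝ) + 1) * q := by exact_mod_cast h5
      have h7 : ν n = n / q := by
        show (1 * n - 0) / q = n / q
        rw [one_mul, Nat.sub_zero]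
      rw [h7, div_mul_eq_mul_div, one_mul, div_lt_iff₀ hq0]
      exact h6
    have h5 : (2 : ℝ) ^ (1 / q * (n : ℝ)) ≤ 2 * 2 ^ ν n := by
      calc (2 : ℝ) ^ (1 / q * (n : ℝ)) ≤ (2 : ℝ) ^ (((ν n : ℕ) : ℝ) + 1) :=
            Real.rpow_le_rpow_of_exponent_le (by norm_num) h4.le
        _ = 2 * 2 ^ ν n := by
            rw [Real.rpow_add (by norm_num), Real.rpow_one, Real.rpow_natCast]
            ring
    constructor
    · have h6 : ((⌊γ * n⌋₊ : ℕ) : ℝ) < 2 ^ ν n := by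
        have h7 : ((⌊γ * n⌋₊ : ℕ) : ℝ) ≤ n := by exact_mod_cast hfl n
        linarith
      exact_mod_cast h6
    · have hA1 : (A n : ℝ) ≤ (2 : ℝ) ^ (γ * n) := by
        show ((2 ^ ⌊γ * n⌋₊ : ℕ) : ℝ) ≤ _
        rw [Nat.cast_pow, Nat.cast_ofNat, ← Real.rpow_natCast]
        exact Real.rpow_le_rpow_of_exponent_le (by norm_num) (Nat.floor_le (by positivity))
      have hA0 : (1 : ℝ) ≤ (2 : ℝ) ^ (γ * n) := Real.one_le_rpow (by norm_num) (by positivity)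
      have h6 : ((Set.ncard (RR n (cn n)) : ℕ) : ℝ) ≤ ((n : ℝ) + 1) * ((A n : ℝ) + 1) := by
        exact_mod_cast hRbd n
      have h7 : ((Set.ncard (RR n (cn n)) : ℕ) : ℝ) + 1 ≤ 4 * ((n : ℝ) + 1) * (2 : ℝ) ^ (γ * n) := by
        nlinarith
      have h8 : (2 : ℝ) ^ ν n ≤ (2 : ℝ) ^ (ε * n) := by
        rw [← Real.rpow_natCast]
        refine Real.rpow_le_rpow_of_exponent_le (by norm_num) (h3.trans ?_)
        exact mul_le_mul_of_nonneg_right hqe.le hn0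
      have h9 : (2 : ℝ) ^ ((γ + 3 * ε) * n) ≤ 2 * 2 ^ ⌊(γ + 3 * ε) * n⌋₊ := by
        calc (2 : ℝ) ^ ((γ + 3 * ε) * n) ≤ (2 : ℝ) ^ (((⌊(γ + 3 * ε) * n⌋₊ : ℕ) : ℝ) + 1) :=
              Real.rpow_le_rpow_of_exponent_le (by norm_num) (Nat.lt_floor_add_one _).le
          _ = 2 * 2 ^ ⌊(γ + 3 * ε) * n⌋₊ := by
              rw [Real.rpow_add (by norm_num), Real.rpow_one, Real.rpow_natCast]
              ring
      have h10 : (2 : ℝ) ^ ((γ + 3 * ε) * n) = (2 : ℝ) ^ (γ * n) * (2 : ℝ) ^ (ε * n) *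
          (2 : ℝ) ^ (2 * ε * n) := by
        rw [← Real.rpow_add (by norm_num), ← Real.rpow_add (by norm_num)]
        congr 1
        ring
      have hE0 : (0 : ℝ) < (2 : ℝ) ^ (ε * n) := by positivity
      have hG0 : (0 : ℝ) < (2 : ℝ) ^ (γ * n) := by positivity
      have h11 : (((Set.ncard (RR n (cn n)) : ℕ) : ℝ) + 1) * 2 ^ ν n ≤
          (4 * ((n : ℝ) + 1) * (2 : ℝ) ^ (γ * n)) * (2 : ℝ) ^ (ε * n) :=
        mul_le_mul h7 h8 (by positivity) (by positivity)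
      have h12 : (4 * ((n : ℝ) + 1) * (2 : ℝ) ^ (γ * n)) * (2 : ℝ) ^ (ε * n) ≤
          (2 : ℝ) ^ (γ * n) * (2 : ℝ) ^ (ε * n) * (2 : ℝ) ^ (2 * ε * n) / 4 := by
        have h13 : 0 < (2 : ℝ) ^ (γ * n) * (2 : ℝ) ^ (ε * n) := by positivity
        nlinarith
      have h13 : (((Set.ncard (RR n (cn n)) : ℕ) : ℝ) + 1) * 2 ^ ν n ≤
          2 ^ ⌊(γ + 3 * ε) * n⌋₊ := by
        have h14 : (0 : ℝ) < 2 ^ ⌊(γ + 3 * ε) * n⌋₊ := by positivity
        rw [← h10] at h12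
        linarith
      exact_mod_cast h13
  obtain ⟨n₀, hn₀⟩ := eventually_atTop.1 hev1
  refine SA.fix (X := {w | 0 < w ∧ ∃ y, y < 2 ^ Nat.log 2 (Nat.unpair w).2 + 1 ∧
      (y = 2 ^ Nat.log 2 y ∧ Nat.log 2 y = (Nat.unpair w).1 % 2 ^ ν (Nat.log 2 (Nat.unpair w).2) ∧
      ∃ c', c' < 2 ^ Nat.log 2 (Nat.unpair w).2 + 1 ∧
        ((Nat.unpair w).1 / 2 ^ ν (Nat.log 2 (Nat.unpair w).2) ≤
          Set.ncard {k | k < (2 ^ Nat.log 2 (Nat.unpair w).2 + 1) *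
            (2 ^ Nat.log 2 (Nat.unpair w).2 + 1) ∧ lv Y (2 ^ Nat.log 2 (Nat.unpair w).2) c' y k} ∧
        c' ≤ Set.ncard {k | k < 2 * 2 ^ Nat.log 2 (Nat.unpair w).2 ∧
          (2 ^ Nat.log 2 (Nat.unpair w).2 ≤ k ∧ (k ∈ S ∧ k ≠ (Nat.unpair w).2))}))}) ?_ n₀
    (fun n => Nat.two_pow_pos _) (fun n => Set.ncard (RR n (cn n)) * 2 ^ ν n + ⌊γ * n⌋₊)
    (fun n hn => ?_) fun x hx hlog => ?_
  · refine RL.isSpectrum (RL.ex (R := fun y w => y = 2 ^ Nat.log 2 y ∧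
      Nat.log 2 y = (Nat.unpair w).1 % 2 ^ ν (Nat.log 2 (Nat.unpair w).2) ∧
      ∃ c', c' < 2 ^ Nat.log 2 (Nat.unpair w).2 + 1 ∧
        ((Nat.unpair w).1 / 2 ^ ν (Nat.log 2 (Nat.unpair w).2) ≤
          Set.ncard {k | k < (2 ^ Nat.log 2 (Nat.unpair w).2 + 1) *
            (2 ^ Nat.log 2 (Nat.unpair w).2 + 1) ∧ lv Y (2 ^ Nat.log 2 (Nat.unpair w).2) c' y k} ∧
        c' ≤ Set.ncard {k | k < 2 * 2 ^ Nat.log 2 (Nat.unpair w).2 ∧
          (2 ^ Nat.log 2 (Nat.unpair w).2 ≤ k ∧ (k ∈ S ∧ k ≠ (Nat.unpair w).2))})) ?_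
      (GR.id.snd.powlog.add (GR.num 1)))
    refine RL.and (RL.eq GR.id.fst GR.id.fst.powlog) (RL.and (RL.eq GR.id.fst.log
      (GR.id.snd.fst.mod (GR.mulog hMU.le hMU.sp GR.id.snd.snd))) ?_)
    -- here `w = pair y w'`
    refine RL.ex (R := fun c' w => (Nat.unpair (Nat.unpair w).2).1 /
          2 ^ ν (Nat.log 2 (Nat.unpair (Nat.unpair w).2).2) ≤
          Set.ncard {k | k < (2 ^ Nat.log 2 (Nat.unpair (Nat.unpair w).2).2 + 1) *
            (2 ^ Nat.log 2 (Nat.unpair (Nat.unpair w).2).2 + 1) ∧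
              lv Y (2 ^ Nat.log 2 (Nat.unpair (Nat.unpair w).2).2) c' (Nat.unpair w).1 k} ∧
        c' ≤ Set.ncard {k | k < 2 * 2 ^ Nat.log 2 (Nat.unpair (Nat.unpair w).2).2 ∧
          (2 ^ Nat.log 2 (Nat.unpair (Nat.unpair w).2).2 ≤ k ∧
            (k ∈ S ∧ k ≠ (Nat.unpair (Nat.unpair w).2).2))}) ?_ (GR.id.snd.snd.powlog.add (GR.num 1))
    refine RL.and ?_ ?_
    · exact RL.card (R := fun k w => lv Y
        (2 ^ Nat.log 2 (Nat.unpair (Nat.unpair (Nat.unpair w).2).2).2) (Nat.unpair w).1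
          (Nat.unpair (Nat.unpair w).2).1 k)
        (RL.lv hY GR.id.snd.snd.snd.snd.powlog GR.id.snd.fst GR.id.snd.snd.fst GR.id.fst)
        (GR.id.snd.snd.fst.div (GR.mulog hMU.le hMU.sp GR.id.snd.snd.snd))
        ((GR.id.snd.snd.snd.powlog.add (GR.num 1)).mul (GR.id.snd.snd.snd.powlog.add (GR.num 1)))
    · refine RL.card (R := fun k w =>
        2 ^ Nat.log 2 (Nat.unpair (Nat.unpair (Nat.unpair w).2).2).2 ≤ k ∧
          (k ∈ S ∧ k ≠ (Nat.unpair (Nat.unpair (Nat.unpair w).2).2).2)) ?_ GR.id.fst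
        ((GR.num 2).mul GR.id.snd.snd.snd.powlog)
      exact (RL.le GR.id.snd.snd.snd.snd.powlog GR.id.fst).and ((RL.mem hS GR.id.fst).and
        (RL.ne GR.id.fst GR.id.snd.snd.snd.snd))
  · obtain ⟨h1, h2⟩ := hn₀ n hn
    show Set.ncard (RR n (cn n)) * 2 ^ ν n + ⌊γ * n⌋₊ < 2 ^ ⌊(γ + 3 * ε) * n⌋₊
    rw [add_mul, one_mul] at h2
    omega
  · set n := Nat.log 2 x with hn
    have hxn := (log_iff hx.ne').1 hn
    obtain ⟨hf1, _⟩ := hn₀ n hlog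
    have hP := Nat.two_pow_pos (ν n)
    simp only [Set.mem_ofPred_eq, Nat.unpair_pair, pair_pos hx, true_and, ← hn]
    have e1 : (Set.ncard (RR n (cn n)) * 2 ^ ν n + ⌊γ * n⌋₊) % 2 ^ ν n = ⌊γ * n⌋₊ := by
      rw [mul_comm, Nat.mul_add_mod, Nat.mod_eq_of_lt hf1]
    have e2 : (Set.ncard (RR n (cn n)) * 2 ^ ν n + ⌊γ * n⌋₊) / 2 ^ ν n =
        Set.ncard (RR n (cn n)) := by
      rw [mul_comm, Nat.mul_add_div hP, Nat.div_eq_of_lt hf1, add_zero]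
    rw [e1, e2]
    have hfin : {y | y < 2 * 2 ^ n ∧ (2 ^ n ≤ y ∧ y ∈ S)}.Finite :=
      (Set.finite_Iio (2 * 2 ^ n)).subset fun t ht => ht.1
    have hsub : {y | y < 2 * 2 ^ n ∧ (2 ^ n ≤ y ∧ (y ∈ S ∧ y ≠ x))} ⊆
        {y | y < 2 * 2 ^ n ∧ (2 ^ n ≤ y ∧ y ∈ S)} := fun y hy => ⟨hy.1, hy.2.1, hy.2.2.1⟩
    have hcases : (x ∉ S → Set.ncard {y | y < 2 * 2 ^ n ∧ (2 ^ n ≤ y ∧ (y ∈ S ∧ y ≠ x))} = cn n) ∧
        (x ∈ S → Set.ncard {y | y < 2 * 2 ^ n ∧ (2 ^ n ≤ y ∧ (y ∈ S ∧ y ≠ x))} < cn n) := by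
      constructor
      · intro h
        congr 1
        ext y
        constructor
        · exact fun h1 => hsub h1
        · rintro ⟨h1, h2, h3⟩
          exact ⟨h1, h2, h3, fun h4 => h (h4 ▸ h3)⟩
      · intro h
        refine Set.ncard_lt_ncard ⟨hsub, fun h1 => ?_⟩ hfin
        exact (h1 ⟨by omega, hxn.1, h⟩).2.2.2 rfl
    constructor
    · intro hxS
      have h1 := hAm n
      have h2 := hcle n
      refine ⟨A n, by omega, ?_, ?_, cn n, by omega, le_refl _, ?_⟩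
      · show 2 ^ ⌊γ * n⌋₊ = 2 ^ Nat.log 2 (2 ^ ⌊γ * n⌋₊)
        rw [Nat.log_pow (by norm_num)]
      · show Nat.log 2 (2 ^ ⌊γ * n⌋₊) = ⌊γ * n⌋₊
        rw [Nat.log_pow (by norm_num)]
      · rw [hcases.1 hxS.2]
    · rintro ⟨y, _, hy1, hy2, c', hc', h1, h2⟩
      have hyA : y = A n := by
        rw [hy1, hy2]
      rw [hyA] at h1
      have h3 := hRlt n c' (by omega) h1
      refine ⟨hx, fun hxS => ?_⟩
      have := hcases.2 hxS
      omega

end Pool.Agent.H76.ADV
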