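import Pool.Agent.H76.ADV.Law5
import Pool.Agent.H8.JS.All

/-!
# NE with advice: words and numbers
-/

set_option autoImplicit false

namespace Pool.Agent.H76.ADV

open Pool.Agent.H69.Sp Pool.Agent.H69.Mt Pool.Agent.H8.JS

theorem num_pos (x : List Bool) : 0 < num x :=
  lt_of_lt_of_le (Nat.two_pow_pos _) (j_nu.2.2.1 x).1

theorem num_log (x : List Bool) : Nat.log 2 (num x) = x.length := by
  have h := j_nu.2.2.1 x
  rw [pow_succ] at h
  exact ((log_iff (num_pos x).ne').2 ⟨h.1, by omega⟩).symm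

theorem num_inj {x y : List Bool} (h : num x = num y) : x = y := j_nu.2.2.2.1 x y h

theorem num_surj {m : ℕ} (hm : 0 < m) : ∃ x, num x = m := j_nu.2.2.2.2 m hm

theorem num_mem {L : Set (List Bool)} {x : List Bool} : num x ∈ num '' L ↔ x ∈ L := by
  constructor
  · rintro ⟨y, hy, h⟩
    rwa [← num_inj h]
  · intro h
    exact ⟨x, h, rfl⟩

theorem image_lang (X : Set ℕ) : num '' lang X = {u | 0 < u ∧ u ∈ X} := by
  ext u
  constructor
  · rintro ⟨x, hx, rfl⟩
    exact ⟨num_pos x, hx⟩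
  · rintro ⟨hu, hX⟩
    obtain ⟨x, rfl⟩ := num_surj hu
    exact ⟨x, hX, rfl⟩

theorem pf_B1 : T_B1 := by
  intro A L
  constructor
  · rintro ⟨X, hX, α, hα, h⟩
    refine ⟨num '' lang X, (j_js.1 _).1 hX, α, hα, fun m hm => ?_⟩
    obtain ⟨x, rfl⟩ := num_surj hm
    rw [num_mem, h x, num_log, image_lang]
    exact ⟨fun h1 => ⟨pair_pos hm, h1⟩, fun h1 => h1.2⟩
  · rintro ⟨X, hX, α, hα, h⟩
    refine ⟨X, j_jb X hX, α, hα, fun x => ?_⟩
    rw [← num_mem (L := L), h _ (num_pos x), num_log]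

theorem image_compl (L : Set (List Bool)) : posCompl (num '' Lᶜ) = num '' L := by
  ext u
  constructor
  · rintro ⟨hu, h⟩
    obtain ⟨x, rfl⟩ := num_surj hu
    rw [num_mem] at h ⊢
    exact not_not.1 h
  · rintro ⟨x, hx, rfl⟩
    refine ⟨num_pos x, fun h => ?_⟩
    rw [num_mem] at h
    exact h hx

theorem pf_B2 : T_B2 := by
  intro A
  constructor
  · intro h S hS
    have h1 : lang (posCompl S) ∈ coNE := by
      show (lang (posCompl S))ᶜ ∈ NE
      have : (lang (posCompl S))ᶜ = lang S := by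
        ext x
        constructor
        · intro h2
          by_contra h3
          exact h2 ⟨num_pos x, h3⟩
        · intro h2 h3
          exact h3.2 h2
      rw [this]
      exact j_jb S hS
    have h2 := (pf_B1 A _).1 (h h1)
    rw [image_lang] at h2
    have : {u | 0 < u ∧ u ∈ posCompl S} = posCompl S := by
      ext u
      exact ⟨fun h => h.2, fun h => ⟨h.1, h⟩⟩
    rwa [this] at h2
  · intro h L hL
    have h1 := h _ ((j_js.1 _).1 hL)
    rw [image_compl] at h1
    exact (pf_B1 A L).2 h1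

theorem pf_B3 : T_B3 := by
  intro B L n
  unfold err er
  rw [← Set.ncard_image_of_injective _ (fun x y h => num_inj h)]
  congr 1
  ext u
  constructor
  · rintro ⟨x, ⟨hx, h⟩, rfl⟩
    have h1 := j_nu.2.2.1 x
    rw [hx] at h1
    exact ⟨h1, by rw [num_mem, num_mem]; exact h⟩
  · rintro ⟨h1, h⟩
    obtain ⟨x, rfl⟩ := num_surj (lt_of_lt_of_le (Nat.two_pow_pos n) h1.1)
    rw [num_mem, num_mem] at h
    refine ⟨x, ⟨?_, h⟩, rfl⟩
    rw [← num_log]
    rw [pow_succ] at h1
    exact ((log_iff (num_pos x).ne').2 ⟨h1.1, by omega⟩).symm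

end Pool.Agent.H76.ADV
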