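import Pool.Agent.H76.ADV.Law2

/-!
# NE with advice: tally sets, errors, padding
-/

set_option autoImplicit false

namespace Pool.Agent.H76.ADV

open Pool.Agent.H69.Sp Pool.Agent.H69.Mt Pool.Agent.H8.JS Classical

theorem RL.fin {R : ℕ → ℕ → Prop} (h : ∀ a, RL (R a)) (n : ℕ) : RL (fun u => ∃ a, a < n ∧ R a u) := by
  induction n with
  | zero => exact (RL.const False).congr fun u => by simp
  | succ n ih =>
    refine (ih.or (h n)).congr fun u => ?_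
    constructor
    · rintro (⟨a, h1, h2⟩ | h2)
      · exact ⟨a, by omega, h2⟩
      · exact ⟨n, by omega, h2⟩
    · rintro ⟨a, h1, h2⟩
      rcases Nat.lt_succ_iff_lt_or_eq.1 h1 with h3 | rfl
      · exact Or.inl ⟨a, h3, h2⟩
      · exact Or.inr h2

theorem pf_T : T_T := by
  intro K hA hT S hS
  obtain ⟨X, hX, α, hα, h⟩ := hA S hS
  have h1 : ∀ a, IsSpectrum {z | 0 < z ∧ (z = 2 ^ Nat.log 2 z ∧ ∃ x, x < 2 * z ∧ (z ≤ x ∧ x ∈ S ∧
      Nat.pair a x ∈ X))} := by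
    intro a
    refine RL.isSpectrum ((RL.eq GR.id GR.id.powlog).and (RL.ex (R := fun x z => z ≤ x ∧ x ∈ S ∧
      Nat.pair a x ∈ X) ?_ ((GR.num 2).mul GR.id)))
    exact (RL.le GR.id.snd GR.id.fst).and ((RL.mem hS GR.id.fst).and
      (RL.mem hX ((GR.num a).pair GR.id.fst)))
  have h2 : ∀ a, IsSpectrum ({z | ∃ n, z = 2 ^ n} \ {z | 0 < z ∧ (z = 2 ^ Nat.log 2 z ∧ ∃ x,
      x < 2 * z ∧ (z ≤ x ∧ x ∈ S ∧ Nat.pair a x ∈ X))}) := fun a =>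
    hT _ (h1 a) fun z hz => ⟨_, hz.2.1⟩
  have h3 := RL.isSpectrum (RL.fin (fun a => (RL.mem (h2 a) GR.id.powlog).and
    (RL.mem hX ((GR.num a).pair GR.id))) K)
  convert h3 using 1
  ext x
  constructor
  · rintro ⟨hx, hxS⟩
    have h4 := (h x hx).1 ⟨hx, hxS⟩
    refine ⟨hx, α (Nat.log 2 x), hα _, ⟨⟨_, rfl⟩, ?_⟩, h4⟩
    rintro ⟨_, _, y, h5, h6, h7, h8⟩
    have hy : 0 < y := lt_of_lt_of_le (Nat.two_pow_pos _) h6
    have h9 : Nat.log 2 x = Nat.log 2 y := (log_iff hy.ne').2 ⟨h6, by omega⟩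
    rw [h9] at h8
    exact ((h y hy).2 h8).2 h7
  · rintro ⟨hx, a, _, ⟨⟨_, _⟩, h4⟩, h5⟩
    refine ⟨hx, fun hxS => h4 ⟨Nat.two_pow_pos _, ?_, x, ?_, ?_, hxS, h5⟩⟩
    · rw [Nat.log_pow (by norm_num)]
    · have := ((log_iff hx.ne').1 rfl).2
      omega
    · exact ((log_iff hx.ne').1 rfl).1

/-- counting on a block -/
theorem nc (n : ℕ) (p : ℕ → Prop) : Set.ncard {x | (2 ^ n ≤ x ∧ x < 2 ^ (n + 1)) ∧ p x} =
    ∑ x ∈ Finset.Ico (2 ^ n) (2 ^ (n + 1)), if p x then 1 else 0 := by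
  have h1 : {x | (2 ^ n ≤ x ∧ x < 2 ^ (n + 1)) ∧ p x} =
      ((Finset.Ico (2 ^ n) (2 ^ (n + 1))).filter p : Set ℕ) := by
    ext x
    simp
  rw [h1, Set.ncard_coe_finset, Finset.card_filter]

theorem er_eq (T S : Set ℕ) (n : ℕ) : er T (posCompl S) n =
    ∑ x ∈ Finset.Ico (2 ^ n) (2 ^ (n + 1)), if (x ∈ T ↔ x ∈ S) then 1 else 0 := by
  unfold er
  rw [nc]
  refine Finset.sum_congr rfl fun x hx => ?_
  have h1 : 0 < x := lt_of_lt_of_le (Nat.two_pow_pos n) (Finset.mem_Ico.1 hx).1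
  have h2 : x ∈ posCompl S ↔ x ∉ S := ⟨fun h => h.2, fun h => ⟨h1, h⟩⟩
  by_cases h3 : x ∈ T <;> by_cases h4 : x ∈ S <;> simp [h2, h3, h4]

/-- the sum of the two censuses -/
theorem cen_le (T S : Set ℕ) (n : ℕ) :
    Set.ncard {x | (2 ^ n ≤ x ∧ x < 2 ^ (n + 1)) ∧ x ∈ S} +
      Set.ncard {x | (2 ^ n ≤ x ∧ x < 2 ^ (n + 1)) ∧ x ∈ T} ≤ 2 ^ n + er T (posCompl S) n ∧
    2 ^ n ≤ Set.ncard {x | (2 ^ n ≤ x ∧ x < 2 ^ (n + 1)) ∧ x ∈ S} +
      Set.ncard {x | (2 ^ n ≤ x ∧ x < 2 ^ (n + 1)) ∧ x ∈ T} + er T (posCompl S) n := by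
  have h0 : (2 : ℕ) ^ n = ∑ x ∈ Finset.Ico (2 ^ n) (2 ^ (n + 1)), 1 := by
    rw [Finset.sum_const, Nat.card_Ico, smul_eq_mul, mul_one, pow_succ]
    omega
  rw [er_eq, nc, nc]
  constructor
  · refine le_trans ?_ (Nat.add_le_add_right h0.ge _)
    rw [← Finset.sum_add_distrib, ← Finset.sum_add_distrib]
    refine Finset.sum_le_sum fun x _ => ?_
    by_cases h3 : x ∈ T <;> by_cases h4 : x ∈ S <;> simp [h3, h4]
  · refine h0.le.trans ?_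
    rw [← Finset.sum_add_distrib, ← Finset.sum_add_distrib]
    refine Finset.sum_le_sum fun x _ => ?_
    by_cases h3 : x ∈ T <;> by_cases h4 : x ∈ S <;> simp [h3, h4]

/-- the disjoint union of two sets of numbers -/
theorem card_evod (n : ℕ) (p q : ℕ → Prop) :
    Set.ncard {y | y < 4 * 2 ^ n ∧ (2 ^ n ≤ y / 2 ∧ ((y % 2 = 0 ∧ p (y / 2)) ∨
      (y % 2 = 1 ∧ q (y / 2))))} = Set.ncard {x | (2 ^ n ≤ x ∧ x < 2 ^ (n + 1)) ∧ p x} +
        Set.ncard {x | (2 ^ n ≤ x ∧ x < 2 ^ (n + 1)) ∧ q x} := by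
  have h1 : {y | y < 4 * 2 ^ n ∧ (2 ^ n ≤ y / 2 ∧ ((y % 2 = 0 ∧ p (y / 2)) ∨
      (y % 2 = 1 ∧ q (y / 2))))} = (fun x => 2 * x) '' {x | (2 ^ n ≤ x ∧ x < 2 ^ (n + 1)) ∧ p x} ∪
        (fun x => 2 * x + 1) '' {x | (2 ^ n ≤ x ∧ x < 2 ^ (n + 1)) ∧ q x} := by
    have e : (2 : ℕ) ^ (n + 1) = 2 * 2 ^ n := by ring
    ext y
    constructor
    · rintro ⟨h1, h2, ⟨h3, h4⟩ | ⟨h3, h4⟩⟩
      · exact Or.inl ⟨y / 2, ⟨⟨h2, by omega⟩, h4⟩, by show 2 * (y / 2) = y; omega⟩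
      · exact Or.inr ⟨y / 2, ⟨⟨h2, by omega⟩, h4⟩, by show 2 * (y / 2) + 1 = y; omega⟩
    · rintro (⟨x, ⟨⟨h1, h2⟩, h3⟩, rfl⟩ | ⟨x, ⟨⟨h1, h2⟩, h3⟩, rfl⟩)
      · have e1 : 2 * x / 2 = x := by omega
        refine ⟨by show 2 * x < 4 * 2 ^ n; omega, ?_, Or.inl ⟨?_, ?_⟩⟩
        · show 2 ^ n ≤ 2 * x / 2
          omega
        · show 2 * x % 2 = 0
          omega
        · show p (2 * x / 2)
          rw [e1]
          exact h3
      · have e1 : (2 * x + 1) / 2 = x := by omega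
        refine ⟨by show 2 * x + 1 < 4 * 2 ^ n; omega, ?_, Or.inr ⟨?_, ?_⟩⟩
        · show 2 ^ n ≤ (2 * x + 1) / 2
          omega
        · show (2 * x + 1) % 2 = 1
          omega
        · show q ((2 * x + 1) / 2)
          rw [e1]
          exact h3
  have hf : ∀ r : ℕ → Prop, {x | (2 ^ n ≤ x ∧ x < 2 ^ (n + 1)) ∧ r x}.Finite := fun r =>
    (Set.finite_Iio (2 ^ (n + 1))).subset fun t ht => ht.1.2
  rw [h1, Set.ncard_union_eq ?_ ((hf p).image _) ((hf q).image _),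
    Set.ncard_image_of_injective _ (fun a b h => by
    have : 2 * a = 2 * b := h
    omega), Set.ncard_image_of_injective _ (fun a b h => by
    have : 2 * a + 1 = 2 * b + 1 := h
    omega)]
  · rw [Set.disjoint_left]
    rintro y ⟨a, _, rfl⟩ ⟨b, _, h⟩
    have : 2 * b + 1 = 2 * a := h
    omega

/-- the census without `x` -/
theorem card_drop (n : ℕ) (S : Set ℕ) {x : ℕ} (hx : 2 ^ n ≤ x ∧ x < 2 ^ (n + 1)) :
    (x ∉ S → Set.ncard {y | (2 ^ n ≤ y ∧ y < 2 ^ (n + 1)) ∧ (y ∈ S ∧ y ≠ x)} =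
      Set.ncard {y | (2 ^ n ≤ y ∧ y < 2 ^ (n + 1)) ∧ y ∈ S}) ∧
    (x ∈ S → Set.ncard {y | (2 ^ n ≤ y ∧ y < 2 ^ (n + 1)) ∧ (y ∈ S ∧ y ≠ x)} <
      Set.ncard {y | (2 ^ n ≤ y ∧ y < 2 ^ (n + 1)) ∧ y ∈ S}) := by
  have hf : {y | (2 ^ n ≤ y ∧ y < 2 ^ (n + 1)) ∧ y ∈ S}.Finite :=
    (Set.finite_Iio (2 ^ (n + 1))).subset fun t ht => ht.1.2
  constructor
  · intro h
    congr 1
    ext y
    constructor
    · rintro ⟨h1, h2, _⟩
      exact ⟨h1, h2⟩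
    · rintro ⟨h1, h2⟩
      exact ⟨h1, h2, fun h3 => h (h3 ▸ h2)⟩
  · intro h
    refine Set.ncard_lt_ncard ⟨fun y hy => ⟨hy.1, hy.2.1⟩, fun h1 => ?_⟩ hf
    exact (h1 ⟨hx, h⟩).2.2 rfl

theorem pf_E : T_E := by
  intro A ν hν hs hyp S hS
  obtain ⟨T, ⟨X, hX, α, hα, hT⟩, herr0⟩ := hyp S hS
  obtain ⟨n₀, herr⟩ := Filter.eventually_atTop.1 herr0
  set M := 2 ^ n₀ with hM
  -- the threshold
  have hgr : ∀ {f g : ℕ → ℕ}, GR f → GR g → GR fun u =>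
      2 ^ Nat.log 2 (g u) + f u % 2 ^ ν (Nat.log 2 (g u)) - 2 ^ ν (Nat.log 2 (g u)) / 2 :=
    fun hf hg => (hg.powlog.add (hf.mod (GR.mulog hν hs hg))).sub
      ((GR.mulog hν hs hg).div (GR.num 2))
  refine ⟨{u | 0 < u ∧ (((Nat.unpair u).2 ∈ {u | 0 < u ∧ (u < M ∧ u ∈ posCompl S)}) ∨
    (M ≤ (Nat.unpair u).2 ∧ 2 ^ Nat.log 2 (Nat.unpair u).2 +
      (Nat.unpair u).1 % 2 ^ ν (Nat.log 2 (Nat.unpair u).2) -
        2 ^ ν (Nat.log 2 (Nat.unpair u).2) / 2 ≤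
      Set.ncard {y | y < 4 * 2 ^ Nat.log 2 (Nat.unpair u).2 ∧
        (2 ^ Nat.log 2 (Nat.unpair u).2 ≤ y / 2 ∧ ((y % 2 = 0 ∧ (y / 2 ∈ S ∧
          y / 2 ≠ (Nat.unpair u).2)) ∨ (y % 2 = 1 ∧
            Nat.pair ((Nat.unpair u).1 / 2 ^ ν (Nat.log 2 (Nat.unpair u).2)) (y / 2) ∈ X)))}))},
    ?_, fun n => α n * 2 ^ ν n + if n₀ ≤ n then
      (Set.ncard {x | (2 ^ n ≤ x ∧ x < 2 ^ (n + 1)) ∧ x ∈ S} +
        Set.ncard {x | (2 ^ n ≤ x ∧ x < 2 ^ (n + 1)) ∧ x ∈ T} + 2 ^ ν n / 2 - 2 ^ n) else 0,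
    fun n => ?_, fun x hx => ?_⟩
  · refine RL.isSpectrum ((RL.mem (fin_isSpectrum _ _) GR.id.snd).or ((RL.le (GR.num _)
      GR.id.snd).and (RL.card (R := fun y u => 2 ^ Nat.log 2 (Nat.unpair u).2 ≤ y / 2 ∧
        ((y % 2 = 0 ∧ (y / 2 ∈ S ∧ y / 2 ≠ (Nat.unpair u).2)) ∨ (y % 2 = 1 ∧
            Nat.pair ((Nat.unpair u).1 / 2 ^ ν (Nat.log 2 (Nat.unpair u).2)) (y / 2) ∈ X))) ?_
        (hgr GR.id.fst GR.id.snd) ((GR.num 4).mul GR.id.snd.powlog))))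
    refine (RL.le GR.id.snd.snd.powlog (GR.id.fst.div (GR.num 2))).and (RL.or ?_ ?_)
    · exact (RL.eq (GR.id.fst.mod (GR.num 2)) (GR.num 0)).and
        ((RL.mem hS (GR.id.fst.div (GR.num 2))).and (RL.ne (GR.id.fst.div (GR.num 2)) GR.id.snd.snd))
    · exact (RL.eq (GR.id.fst.mod (GR.num 2)) (GR.num 1)).and
        (RL.mem hX ((GR.id.snd.fst.div (GR.mulog hν hs GR.id.snd.snd)).pair
          (GR.id.fst.div (GR.num 2))))
  · show α n * 2 ^ ν n + (if n₀ ≤ n then _ else 0) < A n * 2 ^ ν n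
    have h1 : (α n + 1) * 2 ^ ν n ≤ A n * 2 ^ ν n := Nat.mul_le_mul_right _ (hα n)
    rw [add_mul, one_mul] at h1
    have h2 := Nat.two_pow_pos (ν n)
    split_ifs with h3
    · have h4 := cen_le T S n
      have h5 := herr n h3
      omega
    · omega
  · simp only [Set.mem_ofPred_eq, Nat.unpair_pair, pair_pos hx, true_and]
    set n := Nat.log 2 x with hn
    rcases Nat.lt_or_ge x M with hxM | hxM
    · constructor
      · intro h2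
        exact Or.inl ⟨hx, hxM, h2⟩
      · rintro (⟨_, _, h2⟩ | ⟨h2, _⟩)
        · exact h2
        · omega
    · have hlog : n₀ ≤ n := (Nat.le_log_iff_pow_le (by norm_num) hx.ne').2 hxM
      have hxn : 2 ^ n ≤ x ∧ x < 2 ^ (n + 1) := by
        have := (log_iff hx.ne').1 hn
        rw [pow_succ]
        omega
      rw [if_pos hlog]
      set s := Set.ncard {x | (2 ^ n ≤ x ∧ x < 2 ^ (n + 1)) ∧ x ∈ S} with hs'
      set t := Set.ncard {x | (2 ^ n ≤ x ∧ x < 2 ^ (n + 1)) ∧ x ∈ T} with ht'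
      have h4 := cen_le T S n
      have h5 := herr n hlog
      have hW := Nat.two_pow_pos (ν n)
      have h6 : s + t + 2 ^ ν n / 2 - 2 ^ n < 2 ^ ν n := by omega
      have e1 : (α n * 2 ^ ν n + (s + t + 2 ^ ν n / 2 - 2 ^ n)) % 2 ^ ν n =
          s + t + 2 ^ ν n / 2 - 2 ^ n := by
        rw [mul_comm, Nat.mul_add_mod, Nat.mod_eq_of_lt h6]
      have e2 : (α n * 2 ^ ν n + (s + t + 2 ^ ν n / 2 - 2 ^ n)) / 2 ^ ν n = α n := by
        rw [mul_comm, Nat.mul_add_div hW, Nat.div_eq_of_lt h6, add_zero]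
      rw [e1, e2]
      have e3 : 2 ^ n + (s + t + 2 ^ ν n / 2 - 2 ^ n) - 2 ^ ν n / 2 = s + t := by omega
      rw [e3, card_evod n (fun y => y ∈ S ∧ y ≠ x) (fun y => Nat.pair (α n) y ∈ X)]
      have e4 : Set.ncard {y | (2 ^ n ≤ y ∧ y < 2 ^ (n + 1)) ∧ Nat.pair (α n) y ∈ X} = t := by
        rw [ht']
        congr 1
        ext y
        refine and_congr_right fun hy => ?_
        have hy0 : 0 < y := lt_of_lt_of_le (Nat.two_pow_pos n) hy.1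
        have h7 := hT y hy0
        rw [show Nat.log 2 y = n from ((log_iff hy0.ne').2 ⟨hy.1, by
          have := hy.2
          rw [pow_succ] at this
          omega⟩).symm] at h7
        exact h7.symm
      rw [e4]
      obtain ⟨h7, h8⟩ := card_drop n S hxn
      constructor
      · intro h9
        right
        refine ⟨hxM, ?_⟩
        rw [h7 h9.2]
      · rintro (⟨_, h9, _⟩ | ⟨_, h9⟩)
        · omega
        · refine ⟨hx, fun h10 => ?_⟩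
          have := h8 h10
          omega

end Pool.Agent.H76.ADV
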