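import Pool.Agent.H76.ADV.Targets2
import Pool.Agent.H76.ADV.Law3

/-!
# NE with advice: the two censuses as advice; errors cost advice
-/

set_option autoImplicit false

namespace Pool.Agent.H76.ADV

open Pool.Agent.H69.Sp Pool.Agent.H69.Mt Pool.Agent.H8.JS Classical Filter

/-- finitely many lengths do not matter -/
theorem SA.fix {W : ℕ → ℕ} {T X : Set ℕ} (hX : IsSpectrum X) (n₀ : ℕ) (hW : ∀ n, 0 < W n)
    (β : ℕ → ℕ) (hβ : ∀ n, n₀ ≤ n → β n < W n)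
    (h : ∀ x, 0 < x → n₀ ≤ Nat.log 2 x → (x ∈ T ↔ Nat.pair (β (Nat.log 2 x)) x ∈ X)) : SA W T := by
  refine ⟨{u | 0 < u ∧ (((Nat.unpair u).2 ∈ {u | 0 < u ∧ (u < 2 ^ n₀ ∧ u ∈ T)}) ∨
    (2 ^ n₀ ≤ (Nat.unpair u).2 ∧ u ∈ X))},
    RL.isSpectrum ((RL.mem (fin_isSpectrum _ _) GR.id.snd).or ((RL.le (GR.num _) GR.id.snd).and
      (RL.mem hX GR.id))), fun n => if n₀ ≤ n then β n else 0, fun n => ?_, fun x hx => ?_⟩
  · show (if n₀ ≤ n then β n else 0) < W n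
    split_ifs with h1
    · exact hβ n h1
    · exact hW n
  · have h1 : n₀ ≤ Nat.log 2 x ↔ 2 ^ n₀ ≤ x := Nat.le_log_iff_pow_le (by norm_num) hx.ne'
    simp only [Set.mem_ofPred_eq, Nat.unpair_pair, pair_pos hx, true_and]
    split_ifs with h2
    · have h3 := h1.1 h2
      rw [h x hx h2]
      constructor
      · intro h4
        exact Or.inr ⟨h3, h4⟩
      · rintro (⟨_, h4, _⟩ | ⟨_, h4⟩)
        · omega
        · exact h4
    · have h3 : ¬ 2 ^ n₀ ≤ x := fun h4 => h2 (h1.2 h4)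
      constructor
      · intro h4
        exact Or.inl ⟨hx, by omega, h4⟩
      · rintro (⟨_, _, h4⟩ | ⟨h4, _⟩)
        · exact h4
        · exact absurd h4 h3

theorem pf_CO : T_CO := by
  rintro A S T hS ⟨X, hX, α, hα, hT⟩
  refine ⟨{u | 0 < u ∧ (Nat.unpair (Nat.unpair u).1).2 ≤
    Set.ncard {y | y < 4 * 2 ^ Nat.log 2 (Nat.unpair u).2 ∧
      (2 ^ Nat.log 2 (Nat.unpair u).2 ≤ y / 2 ∧ ((y % 2 = 0 ∧ (y / 2 ∈ S ∧
        y / 2 ≠ (Nat.unpair u).2)) ∨ (y % 2 = 1 ∧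
          Nat.pair (Nat.unpair (Nat.unpair u).1).1 (y / 2) ∈ X)))}}, ?_, α, hα, fun x hx => ?_⟩
  · refine RL.isSpectrum (RL.card (R := fun y u => 2 ^ Nat.log 2 (Nat.unpair u).2 ≤ y / 2 ∧
        ((y % 2 = 0 ∧ (y / 2 ∈ S ∧ y / 2 ≠ (Nat.unpair u).2)) ∨ (y % 2 = 1 ∧
            Nat.pair (Nat.unpair (Nat.unpair u).1).1 (y / 2) ∈ X))) ?_
        GR.id.fst.snd ((GR.num 4).mul GR.id.snd.powlog))
    refine (RL.le GR.id.snd.snd.powlog (GR.id.fst.div (GR.num 2))).and (RL.or ?_ ?_)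
    · exact (RL.eq (GR.id.fst.mod (GR.num 2)) (GR.num 0)).and
        ((RL.mem hS (GR.id.fst.div (GR.num 2))).and (RL.ne (GR.id.fst.div (GR.num 2)) GR.id.snd.snd))
    · exact (RL.eq (GR.id.fst.mod (GR.num 2)) (GR.num 1)).and
        (RL.mem hX (GR.id.snd.fst.fst.pair (GR.id.fst.div (GR.num 2))))
  · simp only [Set.mem_ofPred_eq, Nat.unpair_pair, pair_pos hx, true_and]
    set n := Nat.log 2 x with hn
    have hxn : 2 ^ n ≤ x ∧ x < 2 ^ (n + 1) := by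
      have := (log_iff hx.ne').1 hn
      rw [pow_succ]
      omega
    rw [card_evod n (fun y => y ∈ S ∧ y ≠ x) (fun y => Nat.pair (α n) y ∈ X)]
    have e4 : Set.ncard {y | (2 ^ n ≤ y ∧ y < 2 ^ (n + 1)) ∧ Nat.pair (α n) y ∈ X} =
        Set.ncard {y | (2 ^ n ≤ y ∧ y < 2 ^ (n + 1)) ∧ y ∈ T} := by
      congr 1
      ext y
      refine and_congr_right fun hy => ?_
      have hy0 : 0 < y := lt_of_lt_of_le (Nat.two_pow_pos n) hy.1
      have h7 := hT y hy0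
      rw [show Nat.log 2 y = n from ((log_iff hy0.ne').2 ⟨hy.1, by
        have := hy.2
        rw [pow_succ] at this
        omega⟩).symm] at h7
      exact h7.symm
    rw [e4]
    obtain ⟨h7, h8⟩ := card_drop n S hxn
    constructor
    · intro h9
      rw [h7 h9.2]
    · intro h9
      refine ⟨hx, fun h10 => ?_⟩
      have := h8 h10
      omega

/-- the sum of the two censuses -/
noncomputable def cs (S T : Set ℕ) (n : ℕ) : ℕ :=
  Set.ncard {y | (2 ^ n ≤ y ∧ y < 2 ^ (n + 1)) ∧ y ∈ S} +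
    Set.ncard {y | (2 ^ n ≤ y ∧ y < 2 ^ (n + 1)) ∧ y ∈ T}

/-- coding the perfect advice -/
theorem code_sa {W : ℕ → ℕ} {A : ℕ → ℕ} {S T : Set ℕ} (hS : IsSpectrum S) (hT : SA A T)
    {D : ℕ → ℕ} (hD : GR D) (n₀ : ℕ) (hW : ∀ n, 0 < W n)
    (h : ∀ a n, n₀ ≤ n → a < A n → ∃ v, v < W n ∧ ∀ x, 0 < x → Nat.log 2 x = n →
      D (Nat.pair v x) = Nat.pair a (cs S T n)) : SA W (posCompl S) := by
  obtain ⟨Y, hY, α, hα, hYS⟩ := pf_CO A S T hS hT
  choose v hv1 hv2 using h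
  have hX : IsSpectrum {u | 0 < u ∧ Nat.pair (D u) (Nat.unpair u).2 ∈ Y} :=
    RL.isSpectrum (RL.mem hY (hD.pair GR.id.snd))
  refine SA.fix hX n₀ hW (fun n => if hn : n₀ ≤ n then v (α n) n hn (hα n) else 0)
    (fun n hn => ?_) fun x hx hlog => ?_
  · show (if hn : n₀ ≤ n then v (α n) n hn (hα n) else 0) < W n
    rw [dif_pos hn]
    exact hv1 _ _ _ _
  · rw [dif_pos hlog]
    simp only [Set.mem_ofPred_eq, Nat.unpair_pair, pair_pos hx, true_and]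
    rw [hv2 (α (Nat.log 2 x)) (Nat.log 2 x) hlog (hα _) x hx rfl]
    exact hYS x hx

/-- the zigzag code of a signed number -/
def zg (p m : ℕ) : ℕ := if p ≤ m then 2 * (m - p) else 2 * (p - m) - 1

/-- its inverse -/
def zgi (p z : ℕ) : ℕ := (p + z / 2 * (1 - z % 2)) - (z + 1) / 2 * (z % 2)

theorem zgi_zg (p m : ℕ) : zgi p (zg p m) = m := by
  unfold zgi zg
  split_ifs with h
  · rw [show 2 * (m - p) % 2 = 0 by omega, show 2 * (m - p) / 2 = m - p by omega]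
    omega
  · rw [show (2 * (p - m) - 1) % 2 = 1 by omega, show (2 * (p - m) - 1 + 1) / 2 = p - m by omega]
    omega

theorem zg_le {p m h : ℕ} (h1 : m ≤ p + h) (h2 : p ≤ m + h) : zg p m ≤ 2 * h := by
  unfold zg
  split_ifs <;> omega

theorem GR.zgi {f g : ℕ → ℕ} (hf : GR f) (hg : GR g) : GR (fun u => zgi (f u) (g u)) :=
  (hf.add ((hg.div (GR.num 2)).mul ((GR.num 1).sub (hg.mod (GR.num 2))))).sub
    (((hg.add (GR.num 1)).div (GR.num 2)).mul (hg.mod (GR.num 2)))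

theorem cs_bd {S T : Set ℕ} {n h : ℕ} (he : er T (posCompl S) n ≤ h) :
    cs S T n ≤ 2 ^ n + h ∧ 2 ^ n ≤ cs S T n + h := by
  have h4 := cen_le T S n
  unfold cs
  omega

theorem pf_EC : T_EC := by
  intro c h hc hyp S hS
  obtain ⟨T, hT, herr⟩ := hyp S hS
  obtain ⟨n₀, hn₀⟩ := eventually_atTop.1 herr
  refine code_sa hS hT (D := fun u => Nat.pair ((Nat.unpair u).1 % c)
    (zgi (2 ^ Nat.log 2 (Nat.unpair u).2) ((Nat.unpair u).1 / c)))
    ((GR.id.fst.mod (GR.num c)).pair (GR.zgi GR.id.snd.powlog (GR.id.fst.div (GR.num c)))) n₀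
    (fun n => Nat.mul_pos hc (Nat.succ_pos _)) fun a n hn ha => ?_
  obtain ⟨h1, h2⟩ := cs_bd (hn₀ n hn)
  have h3 := zg_le h1 h2
  refine ⟨zg (2 ^ n) (cs S T n) * c + a, ?_, fun x hx hlog => ?_⟩
  · show zg (2 ^ n) (cs S T n) * c + a < c * (2 * h n + 1)
    have h4 : zg (2 ^ n) (cs S T n) * c ≤ 2 * h n * c := Nat.mul_le_mul_right _ h3
    have h5 : c * (2 * h n + 1) = 2 * h n * c + c := by ring
    have ha' : a < c := ha
    omega
  · have ha' : a < c := ha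
    simp only [Nat.unpair_pair, hlog]
    rw [mul_comm, Nat.mul_add_mod, Nat.mod_eq_of_lt ha', Nat.mul_add_div hc,
      Nat.div_eq_of_lt ha', add_zero, zgi_zg]

theorem pf_EH : T_EH := by
  intro A c hA hyp S hS
  obtain ⟨T, hT, herr⟩ := hyp S hS
  obtain ⟨n₀, hn₀⟩ := eventually_atTop.1 herr
  refine code_sa hS hT (D := fun u => Nat.pair ((Nat.unpair u).1 / (2 * c + 1))
    (2 ^ Nat.log 2 (Nat.unpair u).2 + (Nat.unpair u).1 % (2 * c + 1) - c))
    ((GR.id.fst.div (GR.num _)).pair ((GR.id.snd.powlog.add (GR.id.fst.mod (GR.num _))).sub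
      (GR.num c))) n₀ (fun n => Nat.mul_pos (hA n) (Nat.succ_pos _)) fun a n hn ha => ?_
  obtain ⟨h1, h2⟩ := cs_bd (h := c) (hn₀ n hn)
  have hw : cs S T n + c - 2 ^ n < 2 * c + 1 := by omega
  refine ⟨a * (2 * c + 1) + (cs S T n + c - 2 ^ n), ?_, fun x hx hlog => ?_⟩
  · show a * (2 * c + 1) + (cs S T n + c - 2 ^ n) < A n * (2 * c + 1)
    have h4 : (a + 1) * (2 * c + 1) ≤ A n * (2 * c + 1) := Nat.mul_le_mul_right _ ha
    rw [add_mul, one_mul] at h4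
    omega
  · simp only [Nat.unpair_pair, hlog]
    rw [mul_comm a, Nat.mul_add_mod, Nat.mod_eq_of_lt hw, Nat.mul_add_div (Nat.succ_pos _),
      Nat.div_eq_of_lt hw, add_zero]
    congr 1
    omega

end Pool.Agent.H76.ADV
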