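import Pool.Agent.H1.VR.FV
import Pool.Agent.H8.VR.Blk
import Pool.Agent.H69.Mt.Refl

/-!
# A calculus for spectra: predicates without parameters
-/

set_option autoImplicit false

namespace Pool.Agent.H76.ADV

open Pool.Agent.H69.Sp Pool.Agent.H69.Mt Pool.Agent.H1.VR Pool.Agent.H8.VR

/-- existential second-order definable, without parameters -/
def EK {κ : Type} (P : ℕ → (κ → ℕ) → Prop) : Prop := EV (fun N _ w => P N w)

section
variable {κ α : Type} {P Q : ℕ → (κ → ℕ) → Prop}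

theorem EK.sub {κ' : Type} (h : EK P) (f : κ → κ') : EK (fun N (w : κ' → ℕ) => P N (fun i => w (f i))) :=
  fun im => h (fun i => im (f i))

theorem EK.congr (h : EK P) (hPQ : ∀ N w, (∀ i, w i < N) → (P N w ↔ Q N w)) : EK Q :=
  EV.congr h fun N _ w hw => hPQ N w hw

theorem EK.and (h : EK P) (h' : EK Q) : EK (fun N w => P N w ∧ Q N w) := EV.and h h'

theorem EK.or (h : EK P) (h' : EK Q) : EK (fun N w => P N w ∨ Q N w) := EV.or h h'

theorem EK.of (h : FV (fun N _ w => P N w)) : EK P := FV.ev h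

theorem EK.ex [Finite κ] [Finite α] {P : ℕ → (κ ⊕ α → ℕ) → Prop} (h : EK P) :
    EK (fun N w => ∃ c : α → ℕ, Lt N c ∧ P N (Sum.elim w c)) := EV.ex h

theorem EK.all [Finite κ] [Finite α] {P : ℕ → (κ ⊕ α → ℕ) → Prop} (h : EK P) :
    EK (fun N w => ∀ c : α → ℕ, Lt N c → P N (Sum.elim w c)) := EV.all h

theorem EK.mem {X : Set ℕ} (h : IsSpectrum X) (x : κ) : EK (fun _ (w : κ → ℕ) => w x ∈ X) := EV.mem h x

theorem EK.const (p : Prop) : EK (fun _ (_ : κ → ℕ) => p) := EK.of (FV.const p)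

theorem EV.exR {P : PV κ} (j : ℕ) (h : EV P) :
    EV (fun N E w => ∃ R : List ℕ → Prop, P N (Function.update E j R) w) :=
  fun im => (h im).exR j

theorem FV.succ (i j : κ) : FV (fun _ _ (w : κ → ℕ) => w j = w i + 1) :=
  fun im => FD.succ (im i) (im j)

end

/-! ### the universe -/

theorem fv_K (j : ℕ) : FV (κ := Fin 1) (fun N _ w => N = w 0 ^ 2 ^ (j + 1) ∧ 2 ≤ w 0) := by
  induction j with
  | zero =>
    -- t the last element, u + 1 = z, s = z + 1, u * s = t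
    have h1 : FV (κ := Fin 1) (fun N _ w => (∃ c : Fin 3 → ℕ, Lt N c ∧
        (∀ d : Fin 1 → ℕ, Lt N d → d 0 ≤ c 0) ∧ w 0 = c 1 + 1 ∧ c 2 = w 0 + 1 ∧
          c 1 * c 2 = c 0) ∧ ¬ w 0 = 0 ∧ ¬ w 0 = 1) := by
      refine FV.and (FV.ex (κ := Fin 1) (α := Fin 3) (P := fun N _ w =>
        (∀ d : Fin 1 → ℕ, Lt N d → d 0 ≤ w (Sum.inr 0)) ∧ w (Sum.inl 0) = w (Sum.inr 1) + 1 ∧
          w (Sum.inr 2) = w (Sum.inl 0) + 1 ∧ w (Sum.inr 1) * w (Sum.inr 2) = w (Sum.inr 0))
          (FV.and ?_ (FV.and ?_ (FV.and ?_ ?_)))) (FV.and ?_ ?_)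
      · exact FV.all (α := Fin 1) (P := fun N _ w => w (Sum.inr 0) ≤ w (Sum.inl (Sum.inr 0)))
          (FV.le (Sum.inr 0) (Sum.inl (Sum.inr 0)))
      · exact FV.succ (Sum.inr 1) (Sum.inl 0)
      · exact FV.succ (Sum.inl 0) (Sum.inr 2)
      · exact FV.mul (Sum.inr 1) (Sum.inr 2) (Sum.inr 0)
      · exact (FV.num 0 0).not
      · exact (FV.num 1 0).not
    refine h1.congr fun N E w hw => ?_
    have hz := hw 0
    constructor
    · rintro ⟨⟨c, hc, h2, h3, h4, h5⟩, h6, h7⟩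
      have h8 : N - 1 ≤ c 0 := h2 (fun _ => N - 1) (fun _ => by show N - 1 < N; omega)
      have h9 := hc 0
      have h10 : N = c 0 + 1 := by omega
      refine ⟨?_, by omega⟩
      rw [h10, ← h5, h4, h3]
      ring
    · rintro ⟨h2, h3⟩
      obtain ⟨u, hu⟩ : ∃ u, w 0 = u + 1 := ⟨w 0 - 1, by omega⟩
      have h4 : N = u * (u + 2) + 1 := by rw [h2, hu]; ring
      have h5 : 1 ≤ u := by omega
      have h6 : u + 2 ≤ u * (u + 2) := Nat.le_mul_of_pos_left _ (by omega)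
      refine ⟨⟨![u * (u + 2), u, u + 2], ?_, ?_, ?_, ?_, ?_⟩, by omega, by omega⟩
      · intro i
        fin_cases i
        · show u * (u + 2) < N; omega
        · show u < N; omega
        · show u + 2 < N; omega
      · intro d hd
        have := hd 0
        show d 0 ≤ u * (u + 2)
        omega
      · exact hu
      · show u + 2 = w 0 + 1
        omega
      · rfl
  | succ j ih =>
    have h1 : FV (κ := Fin 1) (fun N _ w => ∃ c : Fin 1 → ℕ, Lt N c ∧ w 0 * w 0 = c 0 ∧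
        (N = c 0 ^ 2 ^ (j + 1) ∧ 2 ≤ c 0)) :=
      FV.ex (κ := Fin 1) (α := Fin 1) (P := fun N _ w => w (Sum.inl 0) * w (Sum.inl 0) =
        w (Sum.inr 0) ∧ (N = w (Sum.inr 0) ^ 2 ^ (j + 1) ∧ 2 ≤ w (Sum.inr 0)))
        (FV.and (FV.mul (Sum.inl 0) (Sum.inl 0) (Sum.inr 0)) (fun im => ih (fun _ => im (Sum.inr 0))))
    refine h1.congr fun N E w hw => ?_
    have hp : ∀ z : ℕ, (z * z) ^ 2 ^ (j + 1) = z ^ 2 ^ (j + 1 + 1) := by
      intro z
      rw [← pow_two, ← pow_mul]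
      congr 1
      ring
    constructor
    · rintro ⟨c, hc, h2, h3, h4⟩
      rw [← h2] at h3 h4
      refine ⟨h3.trans (hp _), ?_⟩
      by_contra h5
      have h6 : w 0 = 0 ∨ w 0 = 1 := by omega
      rcases h6 with h6 | h6 <;> rw [h6] at h4 <;> omega
    · rintro ⟨h2, h3⟩
      refine ⟨fun _ => w 0 * w 0, fun _ => ?_, rfl, h2.trans (hp _).symm, by nlinarith⟩
      rw [h2, ← hp]
      have h4 : 2 ≤ w 0 * w 0 := by nlinarith
      calc w 0 * w 0 = (w 0 * w 0) ^ 1 := (pow_one _).symm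
        _ < (w 0 * w 0) ^ 2 ^ (j + 1) := Nat.pow_lt_pow_right (by omega)
            (Nat.one_lt_two_pow (by omega))

theorem sq_iter {S : Set ℕ} (h : IsSpectrum S) (j : ℕ) : IsSpectrum {n | n ^ 2 ^ j ∈ S} := by
  induction j with
  | zero => simpa using h
  | succ j ih =>
    have h1 := sq_isSpectrum ih
    have e : {n | n * n ∈ {n | n ^ 2 ^ j ∈ S}} = {n | n ^ 2 ^ (j + 1) ∈ S} := by
      ext n
      show (n * n) ^ 2 ^ j ∈ S ↔ n ^ 2 ^ (j + 1) ∈ S
      rw [show (n * n) ^ 2 ^ j = n ^ 2 ^ (j + 1) by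
        rw [← pow_two, ← pow_mul]
        congr 1
        ring]
    rw [← e]
    exact h1

/-- a predicate in the universe of size `z ^ 2 ^ (j + 1)` gives a spectrum -/
theorem EK.isSpectrum {P : ℕ → (Fin 1 → ℕ) → Prop} (h : EK P) (j : ℕ) :
    IsSpectrum {z | 2 ≤ z ∧ P (z ^ 2 ^ (j + 1)) (fun _ => z)} := by
  have h1 : EK (κ := Empty) (fun N _ => ∃ c : Fin 1 → ℕ, Lt N c ∧
      ((N = c 0 ^ 2 ^ (j + 1) ∧ 2 ≤ c 0) ∧ P N c)) := by
    refine EK.ex (κ := Empty) (α := Fin 1) (P := fun N w => (N = w (Sum.inr 0) ^ 2 ^ (j + 1) ∧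
      2 ≤ w (Sum.inr 0)) ∧ P N (fun i => w (Sum.inr i))) (EK.and ?_ ?_)
    · exact fun im => (fv_K j fun _ => im (Sum.inr 0)).ed
    · exact h.sub (fun i => Sum.inr i)
  have h2 := sq_iter (ed_isSpectrum (h1 (fun i => i.elim))) (j + 1)
  convert h2 using 1
  ext z
  show 2 ≤ z ∧ P (z ^ 2 ^ (j + 1)) (fun _ => z) ↔ 0 < z ^ 2 ^ (j + 1) ∧
    ∃ _ : ℕ → List ℕ → Prop, ∃ c : Fin 1 → ℕ, Lt (z ^ 2 ^ (j + 1)) c ∧
      ((z ^ 2 ^ (j + 1) = c 0 ^ 2 ^ (j + 1) ∧ 2 ≤ c 0) ∧ P (z ^ 2 ^ (j + 1)) c)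
  constructor
  · rintro ⟨h3, h4⟩
    refine ⟨by positivity, fun _ _ => False, fun _ => z, fun _ => ?_, ⟨rfl, h3⟩, h4⟩
    calc z = z ^ 1 := (pow_one z).symm
      _ < z ^ 2 ^ (j + 1) := Nat.pow_lt_pow_right (by omega) (Nat.one_lt_two_pow (by omega))
  · rintro ⟨_, _, c, hc, ⟨h3, h4⟩, h5⟩
    have h6 : z = c 0 := Nat.pow_left_injective (Nat.two_pow_pos (j + 1)).ne' h3
    have h7 : (fun _ : Fin 1 => z) = c := by
      funext i
      rw [h6]
      congr 1
      exact Subsingleton.elim _ _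
    rw [h7, h6]
    rw [h6] at h5
    exact ⟨h4, h5⟩

/-! ### powers of two -/

/-- a part of the graph of the powers of two -/
def JW (N : ℕ) (R : List ℕ → Prop) : Prop := ∀ c : Fin 2 → ℕ, Lt N c → R [c 0, c 1] →
  ((c 0 = 1 ∧ c 1 = 0) ∨ ∃ d : Fin 2 → ℕ, Lt N d ∧ d 0 + d 0 = c 0 ∧ c 1 = d 1 + 1 ∧ R [d 0, d 1])

theorem JW.spec {N : ℕ} {R : List ℕ → Prop} (h : JW N R) : ∀ n p, p < N → n < N → R [p, n] →
    p = 2 ^ n := by
  intro n
  induction n with
  | zero =>
    intro p hp hn h1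
    rcases h ![p, 0] (fun i => by fin_cases i; exacts [hp, hn]) h1 with h2 | ⟨d, hd, h2, h3, h4⟩
    · exact h2.1
    · have : (0 : ℕ) = d 1 + 1 := h3
      omega
  | succ n ih =>
    intro p hp hn h1
    rcases h ![p, n + 1] (fun i => by fin_cases i; exacts [hp, hn]) h1 with h2 | ⟨d, hd, h2, h3, h4⟩
    · have : n + 1 = 0 := h2.2
      omega
    · have h5 : n + 1 = d 1 + 1 := h3
      have h6 : d 0 + d 0 = p := h2
      have h7 : d 1 = n := by omega
      rw [h7] at h4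
      have h8 := ih (d 0) (hd 0) (by omega) h4
      rw [pow_succ, ← h8, ← h6]
      ring

theorem EK.pow {κ : Type} [Finite κ] (x y : κ) : EK (fun _ (w : κ → ℕ) => w x = 2 ^ w y) := by
  have h0 : FV (κ := κ) (fun N E w => JW N (E 0) ∧ E 0 [w x, w y]) := by
    refine FV.and ?_ (FV.par 0 [x, y])
    refine FV.all (κ := κ) (α := Fin 2) (P := fun N E w => E 0 [w (Sum.inr 0), w (Sum.inr 1)] →
      ((w (Sum.inr 0) = 1 ∧ w (Sum.inr 1) = 0) ∨ ∃ d : Fin 2 → ℕ, Lt N d ∧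
        d 0 + d 0 = w (Sum.inr 0) ∧ w (Sum.inr 1) = d 1 + 1 ∧ E 0 [d 0, d 1])) ?_
    refine FV.imp (FV.par 0 [Sum.inr 0, Sum.inr 1]) (FV.or (FV.and (FV.num 1 _) (FV.num 0 _)) ?_)
    refine FV.ex (α := Fin 2) (P := fun N E w => w (Sum.inr 0) + w (Sum.inr 0) =
      w (Sum.inl (Sum.inr 0)) ∧ w (Sum.inl (Sum.inr 1)) = w (Sum.inr 1) + 1 ∧
        E 0 [w (Sum.inr 0), w (Sum.inr 1)]) (FV.and ?_ (FV.and ?_ ?_))
    · exact FV.add _ _ _
    · exact FV.succ _ _
    · exact FV.par 0 [Sum.inr 0, Sum.inr 1]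
  refine EV.congr (EV.exR 0 h0.ev) fun N E w hw => ?_
  simp only [Function.update_self]
  constructor
  · rintro ⟨R, h1, h2⟩
    exact h1.spec _ _ (hw x) (hw y) h2
  · intro h
    refine ⟨fun l => ∃ n, l = [2 ^ n, n], ?_, ⟨w y, by rw [h]⟩⟩
    rintro c hc ⟨n, hn⟩
    have h1 : c 0 = 2 ^ n := by
      have := congrArg (fun l => l.headD 0) hn
      simpa using this
    have h2 : c 1 = n := by
      have := congrArg (fun l => l.getD 1 0) hn
      simpa using this
    have hc0 := hc 0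
    have hc1 := hc 1
    cases n with
    | zero => left; exact ⟨by simpa using h1, h2⟩
    | succ n =>
      right
      have h3 : 2 ^ (n + 1) = 2 ^ n + 2 ^ n := by ring
      have := Nat.two_pow_pos n
      refine ⟨![2 ^ n, n], fun i => ?_, ?_, ?_, ⟨n, rfl⟩⟩
      · fin_cases i
        · show 2 ^ n < N
          omega
        · show n < N
          omega
      · show 2 ^ n + 2 ^ n = c 0
        omega
      · exact h2

/-! ### counting -/

theorem ncard_le_iff {s : Set ℕ} (hs : s.Finite) (k : ℕ) :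
    k ≤ s.ncard ↔ ∃ f : ℕ → ℕ, (∀ i < k, f i ∈ s) ∧ ∀ i < k, ∀ i' < k, f i = f i' → i = i' := by
  constructor
  · intro h
    obtain ⟨t, hts, htc⟩ := Set.exists_subset_card_eq h
    have ht : t.Finite := hs.subset hts
    have e := (ht.toFinset).equivFin
    have hc : (ht.toFinset).card = k := by rw [← Set.ncard_eq_toFinset_card t ht]; exact htc
    rw [hc] at e
    refine ⟨fun i => if hi : i < k then (e.symm ⟨i, hi⟩ : ℕ) else 0, fun i hi => ?_,
      fun i hi i' hi' h1 => ?_⟩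
    · simp only [dif_pos hi]
      have := (e.symm ⟨i, hi⟩).2
      exact hts (ht.mem_toFinset.1 this)
    · simp only [dif_pos hi, dif_pos hi'] at h1
      have h2 := e.symm.injective (Subtype.ext h1)
      simpa using h2
  · rintro ⟨f, h1, h2⟩
    have h3 : ((Finset.range k).image f : Set ℕ) ⊆ s := by
      intro x hx
      obtain ⟨i, hi, rfl⟩ := Finset.mem_image.1 (Finset.mem_coe.1 hx)
      exact h1 i (Finset.mem_range.1 hi)
    have h4 := Set.ncard_le_ncard h3 hs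
    rw [Set.ncard_coe_finset, Finset.card_image_of_injOn] at h4
    · simpa using h4
    · intro i hi i' hi' h5
      exact h2 i (by simpa using hi) i' (by simpa using hi') h5

theorem EK.card {κ : Type} [Finite κ] {P : ℕ → (κ ⊕ Fin 1 → ℕ) → Prop} (h : EK P) (x : κ) :
    EK (fun N (w : κ → ℕ) => w x ≤ Set.ncard {t | t < N ∧ P N (Sum.elim w fun _ => t)}) := by
  have h0 : EV (κ := κ) (fun N E w => (∀ c : Fin 1 → ℕ, Lt N c → c 0 < w x →
      ∃ d : Fin 1 → ℕ, Lt N d ∧ E 0 [c 0, d 0] ∧ P N (Sum.elim w d)) ∧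
      ∀ c : Fin 3 → ℕ, Lt N c → E 0 [c 0, c 2] → E 0 [c 1, c 2] → c 0 = c 1) := by
    refine EV.and ?_ (FV.ev ?_)
    · refine EV.all (α := Fin 1) (P := fun N E w => w (Sum.inr 0) < w (Sum.inl x) →
        ∃ d : Fin 1 → ℕ, Lt N d ∧ E 0 [w (Sum.inr 0), d 0] ∧
          P N (Sum.elim (fun i => w (Sum.inl i)) d)) (FV.impE (FV.lt _ _) ?_)
      refine EV.ex (α := Fin 1) (P := fun N E w => E 0 [w (Sum.inl (Sum.inr 0)), w (Sum.inr 0)] ∧
        P N (Sum.elim (fun i => w (Sum.inl (Sum.inl i))) (fun i => w (Sum.inr i))))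
        (EV.and (FV.par 0 [_, _]).ev ?_)
      refine EV.congr (h.sub (Sum.elim (fun i => Sum.inl (Sum.inl i)) (fun i => Sum.inr i)))
        fun N E w hw => ?_
      have : (fun i : κ ⊕ Fin 1 => w (Sum.elim (fun i => Sum.inl (Sum.inl i))
        (fun i => Sum.inr i) i)) = Sum.elim (fun i => w (Sum.inl (Sum.inl i)))
          (fun i => w (Sum.inr i)) := by
        funext i
        rcases i with i | i <;> rfl
      beta_reduce
      rw [this]
    · exact FV.all (α := Fin 3) (P := fun N E w => E 0 [w (Sum.inr 0), w (Sum.inr 2)] →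
        E 0 [w (Sum.inr 1), w (Sum.inr 2)] → w (Sum.inr 0) = w (Sum.inr 1))
        (FV.imp (FV.par 0 [Sum.inr 0, Sum.inr 2])
        (FV.imp (FV.par 0 [Sum.inr 1, Sum.inr 2]) (FV.eq _ _)))
  refine EV.congr (EV.exR 0 h0) fun N E w hw => ?_
  simp only [Function.update_self]
  have hfin : {t | t < N ∧ P N (Sum.elim w fun _ => t)}.Finite :=
    (Set.finite_Iio N).subset fun t ht => ht.1
  rw [ncard_le_iff hfin]
  constructor
  · rintro ⟨R, h1, h2⟩
    have h3 : ∀ i, ∃ d, i < w x → (d < N ∧ R [i, d] ∧ P N (Sum.elim w fun _ => d)) := by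
      intro i
      by_cases hi : i < w x
      · obtain ⟨d, hd, h4, h5⟩ := h1 (fun _ => i) (fun _ => lt_trans hi (hw x)) hi
        refine ⟨d 0, fun _ => ⟨hd 0, h4, ?_⟩⟩
        have : (fun _ : Fin 1 => d 0) = d := by
          funext i
          rw [Subsingleton.elim i 0]
        rw [this]
        exact h5
      · exact ⟨0, fun h => absurd h hi⟩
    choose f hf using h3
    refine ⟨f, fun i hi => ⟨(hf i hi).1, (hf i hi).2.2⟩, fun i hi i' hi' h4 => ?_⟩
    have h5 := h2 ![i, i', f i] (fun j => by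
      fin_cases j
      · exact lt_trans hi (hw x)
      · exact lt_trans hi' (hw x)
      · exact (hf i hi).1) (hf i hi).2.1 (by
        have := (hf i' hi').2.1
        rw [← h4] at this
        exact this)
    exact h5
  · rintro ⟨f, h1, h2⟩
    refine ⟨fun l => ∃ i, i < w x ∧ l = [i, f i], fun c hc h3 => ?_, ?_⟩
    · exact ⟨fun _ => f (c 0), fun _ => (h1 _ h3).1, ⟨c 0, h3, rfl⟩, (h1 _ h3).2⟩
    · rintro c hc ⟨i, hi, h3⟩ ⟨i', hi', h4⟩
      have e0 : c 0 = i := by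
        have := congrArg (fun l => l.headD 0) h3
        simpa using this
      have e1 : c 2 = f i := by
        have := congrArg (fun l => l.getD 1 0) h3
        simpa using this
      have e2 : c 1 = i' := by
        have := congrArg (fun l => l.headD 0) h4
        simpa using this
      have e3 : c 2 = f i' := by
        have := congrArg (fun l => l.getD 1 0) h4
        simpa using this
      rw [e0, e2]
      exact h2 i hi i' hi' (e1.symm.trans e3)

end Pool.Agent.H76.ADV
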