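import Pool.Agent.H76.ADV.Cal

/-!
# A calculus for spectra: functions of polynomial growth
-/

set_option autoImplicit false

namespace Pool.Agent.H76.ADV

open Pool.Agent.H69.Sp Pool.Agent.H69.Mt Pool.Agent.H1.VR Pool.Agent.H8.VR

/-- functions of polynomial growth with a definable graph -/
def GR (f : ℕ → ℕ) : Prop := ∃ (c : ℕ) (P : ℕ → ℕ → ℕ → Prop),
  EK (κ := Fin 2) (fun N w => P N (w 0) (w 1)) ∧ (∀ N u y, P N u y → y = f u) ∧
  (∀ u, f u ≤ (u + 2) ^ c) ∧ ∀ N u, (u + 2) ^ c < N → P N u (f u)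

/-- predicates that are definable in large universes -/
def RL (R : ℕ → Prop) : Prop := ∃ (c : ℕ) (P : ℕ → ℕ → Prop),
  EK (κ := Fin 1) (fun N w => P N (w 0)) ∧ (∀ N u, P N u → R u) ∧
  ∀ N u, (u + 2) ^ c < N → R u → P N u

theorem pw {u a b : ℕ} (h : a ≤ b) : (u + 2) ^ a ≤ (u + 2) ^ b := Nat.pow_le_pow_right (by omega) h

theorem pw1 (u a : ℕ) : 1 ≤ (u + 2) ^ a := Nat.one_le_pow _ _ (by omega)

theorem pw2 (u a : ℕ) : 2 * (u + 2) ^ a ≤ (u + 2) ^ (a + 1) := by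
  rw [pow_succ, mul_comm]
  exact Nat.mul_le_mul_left _ (by omega)

/-- `(f + g + 2) ^ d` for `f, g` bounded -/
theorem pwc {u a b m d : ℕ} (ha : a ≤ (u + 2) ^ m) (hb : b ≤ (u + 2) ^ m) :
    (a + b + 2) ^ d ≤ (u + 2) ^ ((m + 2) * d) := by
  rw [pow_mul]
  refine Nat.pow_le_pow_left ?_ d
  have h1 := pw2 u m
  have h2 := pw2 u (m + 1)
  have h3 := pw1 u m
  have e : m + 1 + 1 = m + 2 := rfl
  rw [e] at h2
  omega

theorem GR.op2 {h : ℕ → ℕ → ℕ} (Q : ℕ → ℕ → ℕ → ℕ → Prop) (d : ℕ)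
    (hQ : EK (κ := Fin 3) (fun N w => Q N (w 0) (w 1) (w 2)))
    (h1 : ∀ N a b y, Q N a b y → y = h a b) (h2 : ∀ a b, h a b ≤ (a + b + 2) ^ d)
    (h3 : ∀ N a b, (a + b + 2) ^ d < N → Q N a b (h a b)) {f g : ℕ → ℕ} (hf : GR f) (hg : GR g) :
    GR (fun u => h (f u) (g u)) := by
  obtain ⟨c, P, hP, p1, p2, p3⟩ := hf
  obtain ⟨c', P', hP', p1', p2', p3'⟩ := hg
  refine ⟨(c + c' + 2) * d + (c + c'), fun N u y => ∃ e : Fin 2 → ℕ, Lt N e ∧ P N u (e 0) ∧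
    P' N u (e 1) ∧ Q N (e 0) (e 1) y, ?_, ?_, ?_, ?_⟩
  · exact EK.ex (κ := Fin 2) (α := Fin 2) (P := fun N w => P N (w (Sum.inl 0)) (w (Sum.inr 0)) ∧
      P' N (w (Sum.inl 0)) (w (Sum.inr 1)) ∧ Q N (w (Sum.inr 0)) (w (Sum.inr 1)) (w (Sum.inl 1)))
      ((hP.sub ![Sum.inl 0, Sum.inr 0]).and ((hP'.sub ![Sum.inl 0, Sum.inr 1]).and
        (hQ.sub ![Sum.inr 0, Sum.inr 1, Sum.inl 1])))
  · rintro N u y ⟨e, _, e1, e2, e3⟩
    rw [h1 _ _ _ _ e3, p1 _ _ _ e1, p1' _ _ _ e2]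
  · intro u
    have ha : f u ≤ (u + 2) ^ (c + c') := (p2 u).trans (pw (by omega))
    have hb : g u ≤ (u + 2) ^ (c + c') := (p2' u).trans (pw (by omega))
    exact (h2 _ _).trans ((pwc ha hb).trans (pw (by omega)))
  · intro N u hN
    have ha : f u ≤ (u + 2) ^ (c + c') := (p2 u).trans (pw (by omega))
    have hb : g u ≤ (u + 2) ^ (c + c') := (p2' u).trans (pw (by omega))
    have hc : (u + 2) ^ (c + c') ≤ (u + 2) ^ ((c + c' + 2) * d + (c + c')) := pw (by omega)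
    refine ⟨![f u, g u], fun i => ?_, p3 N u ?_, p3' N u ?_, h3 N _ _ ?_⟩
    · fin_cases i
      · show f u < N
        omega
      · show g u < N
        omega
    · exact lt_of_le_of_lt (pw (by omega)) hN
    · exact lt_of_le_of_lt (pw (by omega)) hN
    · exact lt_of_le_of_lt ((pwc ha hb).trans (pw (by omega))) hN

theorem GR.id : GR (fun u => u) := by
  refine ⟨1, fun _ u y => y = u, EK.of (FV.eq 1 0), fun _ _ _ h => h,
    fun u => by show u ≤ (u + 2) ^ 1; rw [pow_one]; omega, fun _ _ _ => rfl⟩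

theorem GR.num (k : ℕ) : GR (fun _ => k) := by
  refine ⟨k, fun _ _ y => y = k, EK.of (FV.num k 1), fun _ _ _ h => h, fun u => ?_, fun _ _ _ => rfl⟩
  calc k ≤ 2 ^ k := Nat.lt_two_pow_self.le
    _ ≤ (u + 2) ^ k := Nat.pow_le_pow_left (by omega) k

theorem GR.add {f g : ℕ → ℕ} (hf : GR f) (hg : GR g) : GR (fun u => f u + g u) :=
  GR.op2 (h := fun a b => a + b) (fun _ a b y => a + b = y) 1 (EK.of (FV.add 0 1 2))
    (fun _ _ _ _ h => h.symm) (fun a b => by rw [pow_one]; omega) (fun _ _ _ _ => rfl) hf hg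

theorem sq_big (a b : ℕ) : a * b ≤ (a + b + 2) ^ 2 := by nlinarith [Nat.zero_le (a * b)]

theorem GR.mul {f g : ℕ → ℕ} (hf : GR f) (hg : GR g) : GR (fun u => f u * g u) :=
  GR.op2 (h := fun a b => a * b) (fun _ a b y => a * b = y) 2 (EK.of (FV.mul 0 1 2))
    (fun _ _ _ _ h => h.symm) sq_big (fun _ _ _ _ => rfl) hf hg

theorem GR.pair {f g : ℕ → ℕ} (hf : GR f) (hg : GR g) : GR (fun u => Nat.pair (f u) (g u)) :=
  GR.op2 (h := fun a b => Nat.pair a b) (fun _ a b y => y = Nat.pair a b) 2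
    (EK.of fun im => fd_pair (im 0) (im 1) (im 2))
    (fun _ _ _ _ h => h) (fun a b => by
      have := Nat.pair_lt_max_add_one_sq a b
      have h2 : (max a b + 1) ^ 2 ≤ (a + b + 2) ^ 2 := Nat.pow_le_pow_left (by omega) 2
      omega) (fun _ _ _ _ => rfl) hf hg

theorem GR.sub {f g : ℕ → ℕ} (hf : GR f) (hg : GR g) : GR (fun u => f u - g u) :=
  GR.op2 (h := fun a b => a - b) (fun _ a b y => (a ≤ b ∧ y = 0) ∨ y + b = a) 1
    (EK.of (FV.or (FV.and (FV.le 0 1) (FV.num 0 2)) (FV.add 2 1 0)))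
    (fun _ _ _ _ h => by omega) (fun a b => by rw [pow_one]; omega)
    (fun _ _ _ _ => by omega) hf hg

theorem GR.fst' : GR (fun u => (Nat.unpair u).1) :=
  GR.op2 (h := fun a _ => (Nat.unpair a).1) (fun N a _ y => ∃ e : Fin 1 → ℕ, Lt N e ∧
      a = Nat.pair y (e 0)) 1
    (EK.ex (κ := Fin 3) (α := Fin 1) (P := fun _ w => w (Sum.inl 0) =
      Nat.pair (w (Sum.inl 2)) (w (Sum.inr 0)))
      (EK.of fun im => fd_pair (im (Sum.inl 2)) (im (Sum.inr 0)) (im (Sum.inl 0))))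
    (fun _ _ _ _ ⟨e, _, h⟩ => by rw [h, Nat.unpair_pair])
    (fun a b => by
      have := Nat.unpair_left_le a
      rw [pow_one]
      omega)
    (fun N a b hN => ⟨fun _ => (Nat.unpair a).2, fun _ => by
      have := Nat.unpair_right_le a
      rw [pow_one] at hN
      show (Nat.unpair a).2 < N
      omega, (Nat.pair_unpair a).symm⟩) GR.id GR.id

theorem GR.snd' : GR (fun u => (Nat.unpair u).2) :=
  GR.op2 (h := fun a _ => (Nat.unpair a).2) (fun N a _ y => ∃ e : Fin 1 → ℕ, Lt N e ∧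
      a = Nat.pair (e 0) y) 1
    (EK.ex (κ := Fin 3) (α := Fin 1) (P := fun _ w => w (Sum.inl 0) =
      Nat.pair (w (Sum.inr 0)) (w (Sum.inl 2)))
      (EK.of fun im => fd_pair (im (Sum.inr 0)) (im (Sum.inl 2)) (im (Sum.inl 0))))
    (fun _ _ _ _ ⟨e, _, h⟩ => by rw [h, Nat.unpair_pair])
    (fun a b => by
      have := Nat.unpair_right_le a
      rw [pow_one]
      omega)
    (fun N a b hN => ⟨fun _ => (Nat.unpair a).1, fun _ => by
      have := Nat.unpair_left_le a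
      rw [pow_one] at hN
      show (Nat.unpair a).1 < N
      omega, (Nat.pair_unpair a).symm⟩) GR.id GR.id

/-- composition -/
theorem GR.comp {f g : ℕ → ℕ} (hf : GR f) (hg : GR g) : GR (fun u => f (g u)) := by
  obtain ⟨c, P, hP, p1, p2, p3⟩ := hf
  obtain ⟨c', P', hP', p1', p2', p3'⟩ := hg
  refine ⟨(c' + 2) * c + c', fun N u y => ∃ e : Fin 1 → ℕ, Lt N e ∧ P' N u (e 0) ∧ P N (e 0) y,
    ?_, ?_, ?_, ?_⟩
  · exact EK.ex (κ := Fin 2) (α := Fin 1) (P := fun N w => P' N (w (Sum.inl 0)) (w (Sum.inr 0)) ∧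
      P N (w (Sum.inr 0)) (w (Sum.inl 1)))
      ((hP'.sub ![Sum.inl 0, Sum.inr 0]).and (hP.sub ![Sum.inr 0, Sum.inl 1]))
  · rintro N u y ⟨e, _, e1, e2⟩
    rw [p1 _ _ _ e2, p1' _ _ _ e1]
  · intro u
    refine (p2 _).trans (((Nat.pow_le_pow_left (by omega) c).trans
      (pwc (p2' u) (Nat.zero_le _))).trans (pw (by omega)))
  · intro N u hN
    have h1 : (g u + 2) ^ c ≤ (u + 2) ^ ((c' + 2) * c) :=
      (Nat.pow_le_pow_left (by omega) c).trans (pwc (p2' u) (Nat.zero_le _))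
    have h2 : (u + 2) ^ c' < N := lt_of_le_of_lt (pw (by omega)) hN
    exact ⟨fun _ => g u, fun _ => lt_of_le_of_lt (p2' u) h2, p3' N u h2,
      p3 N _ (lt_of_le_of_lt (h1.trans (pw (by omega))) hN)⟩

theorem GR.fst {f : ℕ → ℕ} (hf : GR f) : GR (fun u => (Nat.unpair (f u)).1) := GR.fst'.comp hf

theorem GR.snd {f : ℕ → ℕ} (hf : GR f) : GR (fun u => (Nat.unpair (f u)).2) := GR.snd'.comp hf

theorem GR.div {f g : ℕ → ℕ} (hf : GR f) (hg : GR g) : GR (fun u => f u / g u) := by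
  refine GR.op2 (h := fun a b => a / b) (fun N a b y => (b = 0 ∧ y = 0) ∨
    ∃ e : Fin 2 → ℕ, Lt N e ∧ e 0 < b ∧ b * y = e 1 ∧ e 1 + e 0 = a) 1 ?_ ?_ ?_ ?_ hf hg
  · refine EK.or (EK.of (FV.and (FV.num 0 1) (FV.num 0 2))) (EK.ex (κ := Fin 3) (α := Fin 2)
      (P := fun _ w => w (Sum.inr 0) < w (Sum.inl 1) ∧ w (Sum.inl 1) * w (Sum.inl 2) =
        w (Sum.inr 1) ∧ w (Sum.inr 1) + w (Sum.inr 0) = w (Sum.inl 0)) (EK.of ?_))
    exact FV.and (FV.lt _ _) (FV.and (FV.mul _ _ _) (FV.add _ _ _))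
  · rintro N a b y (⟨rfl, rfl⟩ | ⟨e, _, h1, h2, h3⟩)
    · simp
    · rw [← h3, ← h2, Nat.mul_add_div (by omega), Nat.div_eq_of_lt h1, add_zero]
  · intro a b
    have := Nat.div_le_self a b
    rw [pow_one]
    omega
  · intro N a b hN
    rw [pow_one] at hN
    rcases Nat.eq_zero_or_pos b with rfl | hb
    · left
      simp
    · right
      have h1 := Nat.div_add_mod a b
      have h2 := Nat.mod_lt a hb
      refine ⟨![a % b, b * (a / b)], fun i => ?_, h2, rfl, h1⟩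
      fin_cases i
      · show a % b < N
        omega
      · show b * (a / b) < N
        omega

theorem GR.mod {f g : ℕ → ℕ} (hf : GR f) (hg : GR g) : GR (fun u => f u % g u) := by
  refine GR.op2 (h := fun a b => a % b) (fun N a b y => (b = 0 ∧ y = a) ∨
    ∃ e : Fin 2 → ℕ, Lt N e ∧ y < b ∧ b * e 0 = e 1 ∧ e 1 + y = a) 1 ?_ ?_ ?_ ?_ hf hg
  · refine EK.or (EK.of (FV.and (FV.num 0 1) (FV.eq 2 0))) (EK.ex (κ := Fin 3) (α := Fin 2)
      (P := fun _ w => w (Sum.inl 2) < w (Sum.inl 1) ∧ w (Sum.inl 1) * w (Sum.inr 0) =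
        w (Sum.inr 1) ∧ w (Sum.inr 1) + w (Sum.inl 2) = w (Sum.inl 0)) (EK.of ?_))
    exact FV.and (FV.lt _ _) (FV.and (FV.mul _ _ _) (FV.add _ _ _))
  · rintro N a b y (⟨rfl, rfl⟩ | ⟨e, _, h1, h2, h3⟩)
    · simp
    · rw [← h3, ← h2, Nat.mul_add_mod, Nat.mod_eq_of_lt h1]
  · intro a b
    have := Nat.mod_le a b
    rw [pow_one]
    omega
  · intro N a b hN
    rw [pow_one] at hN
    rcases Nat.eq_zero_or_pos b with rfl | hb
    · left
      simp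
    · right
      have h1 := Nat.div_add_mod a b
      have h2 := Nat.mod_lt a hb
      have h3 := Nat.div_le_self a b
      refine ⟨![a / b, b * (a / b)], fun i => ?_, h2, rfl, h1⟩
      fin_cases i
      · show a / b < N
        omega
      · show b * (a / b) < N
        omega

theorem log_iff {a y : ℕ} (ha : a ≠ 0) : y = Nat.log 2 a ↔ 2 ^ y ≤ a ∧ a < 2 ^ y + 2 ^ y := by
  rw [eq_comm, Nat.log_eq_iff (Or.inr ⟨by norm_num, ha⟩), pow_succ, mul_two]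

theorem GR.log {f : ℕ → ℕ} (hf : GR f) : GR (fun u => Nat.log 2 (f u)) := by
  refine GR.op2 (h := fun a _ => Nat.log 2 a) (fun N a _ y => (a = 0 ∧ y = 0) ∨
    ∃ e : Fin 2 → ℕ, Lt N e ∧ e 0 = 2 ^ y ∧ e 0 ≤ a ∧ e 0 + e 0 = e 1 ∧ a < e 1) 2
      ?_ ?_ ?_ ?_ hf hf
  · refine EK.or (EK.of (FV.and (FV.num 0 0) (FV.num 0 2))) (EK.ex (κ := Fin 3) (α := Fin 2)
      (P := fun _ w => w (Sum.inr 0) = 2 ^ w (Sum.inl 2) ∧ w (Sum.inr 0) ≤ w (Sum.inl 0) ∧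
        w (Sum.inr 0) + w (Sum.inr 0) = w (Sum.inr 1) ∧ w (Sum.inl 0) < w (Sum.inr 1))
        (EK.and (EK.pow _ _) (EK.of ?_)))
    exact FV.and (FV.le _ _) (FV.and (FV.add _ _ _) (FV.lt _ _))
  · rintro N a b y (⟨rfl, rfl⟩ | ⟨e, _, h1, h2, h3, h4⟩)
    · simp
    · have : a ≠ 0 := by
        have := Nat.two_pow_pos y
        omega
      rw [log_iff this]
      omega
  · intro a b
    have := Nat.log_le_self 2 a
    have h4 : a + b + 2 ≤ (a + b + 2) ^ 2 := Nat.le_self_pow (by omega) _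
    omega
  · intro N a b hN
    rcases Nat.eq_zero_or_pos a with rfl | ha
    · left
      simp
    · right
      have h1 := (log_iff ha.ne').1 rfl
      have h2 : a + a < N := by
        have : a + a ≤ (a + b + 2) ^ 2 := by nlinarith [Nat.zero_le (a * b)]
        omega
      refine ⟨![2 ^ Nat.log 2 a, 2 ^ Nat.log 2 a + 2 ^ Nat.log 2 a], fun i => ?_, rfl, h1.1, rfl, h1.2⟩
      fin_cases i
      · show 2 ^ Nat.log 2 a < N
        omega
      · show 2 ^ Nat.log 2 a + 2 ^ Nat.log 2 a < N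
        omega

theorem GR.pow {f : ℕ → ℕ} (hf : GR f) (d : ℕ) (hd : ∀ u, 2 ^ f u ≤ (u + 2) ^ d) :
    GR (fun u => 2 ^ f u) := by
  obtain ⟨c, P, hP, p1, p2, p3⟩ := hf
  refine ⟨c + d, fun N u y => ∃ e : Fin 1 → ℕ, Lt N e ∧ P N u (e 0) ∧ y = 2 ^ e 0, ?_, ?_, ?_, ?_⟩
  · exact EK.ex (κ := Fin 2) (α := Fin 1) (P := fun N w => P N (w (Sum.inl 0)) (w (Sum.inr 0)) ∧
      w (Sum.inl 1) = 2 ^ w (Sum.inr 0)) ((hP.sub ![Sum.inl 0, Sum.inr 0]).and (EK.pow _ _))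
  · rintro N u y ⟨e, _, e1, e2⟩
    rw [e2, p1 _ _ _ e1]
  · intro u
    exact (hd u).trans (pw (by omega))
  · intro N u hN
    have h1 : (u + 2) ^ c < N := lt_of_le_of_lt (pw (by omega)) hN
    exact ⟨fun _ => f u, fun _ => lt_of_le_of_lt (p2 u) h1, p3 N u h1, rfl⟩

/-- the power of two below -/
theorem GR.powlog {f : ℕ → ℕ} (hf : GR f) : GR (fun u => 2 ^ Nat.log 2 (f u)) := by
  have hf' := hf
  obtain ⟨c, P, hP, p1, p2, p3⟩ := hf'
  refine GR.pow hf.log c fun u => ?_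
  rcases Nat.eq_zero_or_pos (f u) with h | h
  · rw [h]
    simpa using pw1 u c
  · exact (Nat.pow_log_le_self 2 h.ne').trans (p2 u)

theorem code_inj {ν : ℕ → ℕ} (hν : ∀ n, ν n ≤ n) {n n' y : ℕ} (hy : y < 2 ^ n)
    (h : 2 ^ n + y = 2 ^ n' + ν n') : y = ν n := by
  have h1 : ν n' < 2 ^ n' := lt_of_le_of_lt (hν n') Nat.lt_two_pow_self
  have h2 : n = Nat.log 2 (2 ^ n + y) := (log_iff (by have := Nat.two_pow_pos n; omega)).2
    ⟨by omega, by omega⟩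
  have h3 : n' = Nat.log 2 (2 ^ n' + ν n') := (log_iff (by have := Nat.two_pow_pos n'; omega)).2
    ⟨by omega, by omega⟩
  have h4 : n = n' := by rw [h2, h, ← h3]
  subst h4
  omega

theorem GR.nu {ν : ℕ → ℕ} (hν : ∀ n, ν n ≤ n) (hs : IsSpectrum {z | ∃ n, z = 2 ^ n + ν n})
    {f : ℕ → ℕ} (hf : GR f) (d : ℕ) (hd : ∀ u, 2 ^ f u ≤ (u + 2) ^ d) : GR (fun u => ν (f u)) := by
  obtain ⟨c, P, hP, p1, p2, p3⟩ := hf
  refine ⟨c + (d + 1), fun N u y => ∃ e : Fin 3 → ℕ, Lt N e ∧ P N u (e 0) ∧ e 1 = 2 ^ e 0 ∧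
    (y < e 1 ∧ e 1 + y = e 2) ∧ e 2 ∈ {z | ∃ n, z = 2 ^ n + ν n}, ?_, ?_, ?_, ?_⟩
  · exact EK.ex (κ := Fin 2) (α := Fin 3) (P := fun N w => P N (w (Sum.inl 0)) (w (Sum.inr 0)) ∧
      w (Sum.inr 1) = 2 ^ w (Sum.inr 0) ∧ (w (Sum.inl 1) < w (Sum.inr 1) ∧
      w (Sum.inr 1) + w (Sum.inl 1) = w (Sum.inr 2)) ∧ w (Sum.inr 2) ∈ {z | ∃ n, z = 2 ^ n + ν n})
      ((hP.sub ![Sum.inl 0, Sum.inr 0]).and ((EK.pow _ _).and (EK.and (EK.of (FV.and (FV.lt _ _)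
        (FV.add _ _ _))) (EK.mem hs _))))
  · rintro N u y ⟨e, _, e1, e2, ⟨e3, e4⟩, n, e5⟩
    show y = ν (f u)
    rw [← p1 _ _ _ e1]
    rw [e2] at e3 e4
    exact code_inj hν e3 (e4.trans e5)
  · intro u
    calc ν (f u) ≤ f u := hν _
      _ ≤ 2 ^ f u := Nat.lt_two_pow_self.le
      _ ≤ (u + 2) ^ d := hd u
      _ ≤ _ := pw (by omega)
  · intro N u hN
    have h1 : (u + 2) ^ c < N := lt_of_le_of_lt (pw (by omega)) hN
    have h2 : (u + 2) ^ (d + 1) < N := lt_of_le_of_lt (pw (by omega)) hN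
    have h3 := pw2 u d
    have h4 := hd u
    have h5 : ν (f u) < 2 ^ f u := lt_of_le_of_lt (hν _) Nat.lt_two_pow_self
    refine ⟨![f u, 2 ^ f u, 2 ^ f u + ν (f u)], fun i => ?_, p3 N u h1, rfl, ⟨h5, rfl⟩, f u, rfl⟩
    fin_cases i
    · exact lt_of_le_of_lt (p2 u) h1
    · show 2 ^ f u < N
      omega
    · show 2 ^ f u + ν (f u) < N
      omega

end Pool.Agent.H76.ADV
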