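import Pool.Agent.H76.ADV.Law7

/-!
# NE with advice and the difference hierarchy over NE
-/

set_option autoImplicit false

namespace Pool.Agent.H76.ADV

open Pool.Agent.H69.Sp Pool.Agent.H69.Mt Pool.Agent.H8.JS Classical

/-- sets at the level `A` of the difference hierarchy -/
def DS (A : ℕ → ℕ) (T : Set ℕ) : Prop :=
  ∃ X, IsSpectrum X ∧ (∀ x j, 0 < x → Nat.pair (j + 1) x ∈ X → Nat.pair j x ∈ X) ∧
    ∀ x, 0 < x → (x ∈ T ↔ Odd (Set.ncard {j | j < A (Nat.log 2 x) ∧ Nat.pair j x ∈ X}))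

section
variable (B Y : Set ℕ) (c : ℕ)

/-- the padding -/
def PP (x : ℕ) : ℕ := (2 * 2 ^ Nat.log 2 x) ^ (2 * c + 4)

theorem PP_eq (x : ℕ) : PP c x = 2 ^ ((2 * c + 4) * (Nat.log 2 x + 1)) := by
  unfold PP
  rw [← pow_succ', ← pow_mul, mul_comm]

theorem GR.PP {f : ℕ → ℕ} (hf : GR f) : GR (fun u => PP c (f u)) :=
  ((GR.num 2).mul hf.powlog).npow _

/-- the advice `a` is unsound -/
def un (a x : ℕ) : Prop := ∃ w, w < PP c x ∧ (w ∈ B ∧ Nat.pair a (PP c x + w) ∈ Y)

variable {B Y}

theorem RL.un (hB : IsSpectrum B) (hY : IsSpectrum Y) {f g : ℕ → ℕ} (hf : GR f) (hg : GR g) :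
    RL (fun u => un B Y c (f u) (g u)) := by
  have h : RL (fun v => ADV.un B Y c (Nat.unpair v).1 (Nat.unpair v).2) :=
    RL.ex (R := fun w v => w ∈ B ∧ Nat.pair (Nat.unpair v).1 (ADV.PP c (Nat.unpair v).2 + w) ∈ Y)
      ((RL.mem hB GR.id.fst).and (RL.mem hY (GR.id.snd.fst.pair
        ((GR.PP c GR.id.snd.snd).add GR.id.fst)))) (GR.PP c GR.id.snd)
  exact (h.comp (hf.pair hg)).congr fun u => by simp

end

/-- the certificate for an even number of changes -/
def ce (B Y : Set ℕ) (c a x : ℕ) : Prop := ∃ i, i < (2 ^ Nat.log 2 x) ^ c + 1 ∧ (i % 2 = 0 ∧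
  (i = 0 ∨ Nat.pair (i - 1) x ∈ B) ∧ (i = (2 ^ Nat.log 2 x) ^ c ∨
    Nat.pair a (PP c x + Nat.pair i x) ∈ Y))

theorem RL.ce {B Y : Set ℕ} (c : ℕ) (hB : IsSpectrum B) (hY : IsSpectrum Y) {f g : ℕ → ℕ}
    (hf : GR f) (hg : GR g) : RL (fun u => ce B Y c (f u) (g u)) := by
  have h : RL (fun v => ADV.ce B Y c (Nat.unpair v).1 (Nat.unpair v).2) := by
    refine RL.ex (R := fun i v => i % 2 = 0 ∧ (i = 0 ∨ Nat.pair (i - 1) (Nat.unpair v).2 ∈ B) ∧
      (i = (2 ^ Nat.log 2 (Nat.unpair v).2) ^ c ∨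
        Nat.pair (Nat.unpair v).1 (PP c (Nat.unpair v).2 + Nat.pair i (Nat.unpair v).2) ∈ Y)) ?_
      ((GR.id.snd.powlog.npow c).add (GR.num 1))
    refine (RL.eq (GR.id.fst.mod (GR.num 2)) (GR.num 0)).and (RL.and (RL.or ?_ ?_) (RL.or ?_ ?_))
    · exact RL.eq GR.id.fst (GR.num 0)
    · exact RL.mem hB ((GR.id.fst.sub (GR.num 1)).pair GR.id.snd.snd)
    · exact RL.eq GR.id.fst (GR.id.snd.snd.powlog.npow c)
    · exact RL.mem hY (GR.id.snd.fst.pair ((GR.PP c GR.id.snd.snd).add
        (GR.id.fst.pair GR.id.snd.snd)))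
  exact (h.comp (hf.pair hg)).congr fun u => by simp

/-- at least `k` values of the advice are unsound -/
def th (A : ℕ → ℕ) (B Y : Set ℕ) (c k x : ℕ) : Prop :=
  k ≤ Set.ncard {a | a < A (Nat.log 2 (PP c x)) ∧ un B Y c a x}

theorem RL.th {A : ℕ → ℕ} (hA : Cmp A) {B Y : Set ℕ} (c : ℕ) (hB : IsSpectrum B)
    (hY : IsSpectrum Y) {f g : ℕ → ℕ} (hf : GR f) (hg : GR g) :
    RL (fun u => th A B Y c (f u) (g u)) := by
  have h : RL (fun v => ADV.th A B Y c (Nat.unpair v).1 (Nat.unpair v).2) :=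
    RL.card (R := fun a v => ADV.un B Y c a (Nat.unpair v).2)
      (RL.un c hB hY GR.id.fst GR.id.snd.snd) GR.id.fst (GR.w hA (GR.PP c GR.id.snd))
  exact (h.comp (hf.pair hg)).congr fun u => by simp

/-- at least `k` other values of the advice are unsound -/
def oth (A : ℕ → ℕ) (B Y : Set ℕ) (c k a x : ℕ) : Prop :=
  k ≤ Set.ncard {a' | a' < A (Nat.log 2 (PP c x)) ∧ (a' ≠ a ∧ un B Y c a' x)}

theorem RL.oth {A : ℕ → ℕ} (hA : Cmp A) {B Y : Set ℕ} (c : ℕ) (hB : IsSpectrum B)
    (hY : IsSpectrum Y) {f g h : ℕ → ℕ} (hf : GR f) (hg : GR g) (hh : GR h) :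
    RL (fun u => oth A B Y c (f u) (g u) (h u)) := by
  have h : RL (fun v => ADV.oth A B Y c (Nat.unpair (Nat.unpair v).1).1
      (Nat.unpair (Nat.unpair v).1).2 (Nat.unpair v).2) :=
    RL.card (R := fun a' v => a' ≠ (Nat.unpair (Nat.unpair v).1).2 ∧
      ADV.un B Y c a' (Nat.unpair v).2)
      ((RL.ne GR.id.fst GR.id.snd.fst.snd).and (RL.un c hB hY GR.id.fst GR.id.snd.snd))
        GR.id.fst.fst (GR.w hA (GR.PP c GR.id.snd))
  exact (h.comp ((hf.pair hg).pair hh)).congr fun u => by simp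

theorem pair_lt_PP (c : ℕ) {i x : ℕ} (hx : 0 < x) (hi : i ≤ (2 ^ Nat.log 2 x) ^ c) :
    Nat.pair i x < PP c x := by
  set n := Nat.log 2 x with hn
  have h1 := (log_iff hx.ne').1 hn
  have h2 : max i x + 1 ≤ 2 ^ ((c + 2) * (n + 1)) := by
    have h3 : (2 ^ n) ^ c + 1 ≤ 2 ^ ((c + 2) * (n + 1)) := by
      have h4 : (2 ^ n) ^ c = 2 ^ (n * c) := by rw [← pow_mul]
      rw [h4]
      have h5 := Nat.two_pow_pos (n * c)
      calc 2 ^ (n * c) + 1 ≤ 2 ^ (n * c + 1) := by rw [pow_succ]; omega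
        _ ≤ 2 ^ ((c + 2) * (n + 1)) := Nat.pow_le_pow_right (by norm_num) (by nlinarith)
    have h6 : x + 1 ≤ 2 ^ ((c + 2) * (n + 1)) := by
      calc x + 1 ≤ 2 ^ (n + 1) := by rw [pow_succ]; omega
        _ ≤ 2 ^ ((c + 2) * (n + 1)) := Nat.pow_le_pow_right (by norm_num)
          (Nat.le_mul_of_pos_left _ (by omega))
    have : max i x + 1 = max (i + 1) (x + 1) := by omega
    rw [this]
    exact max_le (by omega) h6
  calc Nat.pair i x < (max i x + 1) ^ 2 := Nat.pair_lt_max_add_one_sq i x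
    _ ≤ (2 ^ ((c + 2) * (n + 1))) ^ 2 := Nat.pow_le_pow_left h2 2
    _ = PP c x := by
      rw [PP_eq, ← hn, ← pow_mul]
      congr 1
      ring

/-- decreasing sequences -/
theorem chain_iff {B : Set ℕ} (hd : ∀ x j, 0 < x → Nat.pair (j + 1) x ∈ B → Nat.pair j x ∈ B)
    {x : ℕ} (hx : 0 < x) (R j : ℕ) (hj : j < R) :
    Nat.pair j x ∈ B ↔ j < Set.ncard {j | j < R ∧ Nat.pair j x ∈ B} := by
  have hdown : ∀ j i, i ≤ j → Nat.pair j x ∈ B → Nat.pair i x ∈ B := by
    intro j
    induction j with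
    | zero =>
      intro i hi h
      rwa [Nat.le_zero.1 hi]
    | succ j ih =>
      intro i hi h
      rcases Nat.lt_or_ge i (j + 1) with h1 | h1
      · exact ih i (by omega) (hd x j hx h)
      · rwa [show i = j + 1 by omega]
  have hfin : {j | j < R ∧ Nat.pair j x ∈ B}.Finite := (Set.finite_Iio R).subset fun t ht => ht.1
  constructor
  · intro h
    have h1 : ((Finset.range (j + 1) : Finset ℕ) : Set ℕ) ⊆ {j | j < R ∧ Nat.pair j x ∈ B} := by
      intro i hi
      have : i < j + 1 := by simpa using hi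
      exact ⟨by omega, hdown j i (by omega) h⟩
    have h2 := Set.ncard_le_ncard h1 hfin
    rw [Set.ncard_coe_finset, Finset.card_range] at h2
    omega
  · intro h
    by_contra h1
    have h2 : {j | j < R ∧ Nat.pair j x ∈ B} ⊆ ((Finset.range j : Finset ℕ) : Set ℕ) := by
      rintro i ⟨_, hi⟩
      simp only [Finset.coe_range, Set.mem_Iio]
      by_contra h3
      exact h1 (hdown i j (by omega) hi)
    have h3 := Set.ncard_le_ncard h2 (Finset.finite_toSet _)
    rw [Set.ncard_coe_finset, Finset.card_range] at h3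
    omega

theorem pf_DH {A : ℕ → ℕ} (hA : Cmp A) (hCA : CA A) (c : ℕ) (A' : ℕ → ℕ) (n₀ : ℕ)
    (hA' : ∀ n, 0 < A' n) (hAA : ∀ n, n₀ ≤ n → 2 * A ((2 * c + 4) * (n + 1)) ≤ A' n)
    {T : Set ℕ} (hT : DS (fun n => 2 ^ (c * n)) T) : DS A' T := by
  obtain ⟨B, hB, hd, hBT⟩ := hT
  have hB0 : 0 ∉ B := spec_zero hB
  have hQ : IsSpectrum {z | 0 < z ∧ z - 2 ^ Nat.log 2 z ∈ B} :=
    RL.isSpectrum (RL.mem hB (GR.id.sub GR.id.powlog))
  obtain ⟨Y, hY, α, hα, hα2⟩ := hCA _ hQ
  set M₀ := 2 ^ n₀ with hM₀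
  refine ⟨{u | 0 < u ∧ (((Nat.unpair u).1 = 0 ∧ (Nat.unpair u).2 ∈ {x | 0 < x ∧ (x < M₀ ∧ x ∈ T)}) ∨
    (M₀ ≤ (Nat.unpair u).2 ∧ (((Nat.unpair u).1 % 2 = 0 ∧
        th A B Y c ((Nat.unpair u).1 / 2) (Nat.unpair u).2) ∨ ((Nat.unpair u).1 % 2 = 1 ∧
        ((∃ a, a < A (Nat.log 2 (PP c (Nat.unpair u).2)) ∧ (ce B Y c a (Nat.unpair u).2 ∧
          oth A B Y c ((Nat.unpair u).1 / 2) a (Nat.unpair u).2)) ∨
        th A B Y c ((Nat.unpair u).1 / 2 + 1) (Nat.unpair u).2)))))}, ?_, ?_, ?_⟩
  · refine RL.isSpectrum (RL.or ((RL.eq GR.id.fst (GR.num 0)).and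
      (RL.mem (fin_isSpectrum _ _) GR.id.snd)) ((RL.le (GR.num _) GR.id.snd).and
      (RL.or ((RL.eq (GR.id.fst.mod (GR.num 2)) (GR.num 0)).and
        (RL.th hA c hB hY (GR.id.fst.div (GR.num 2)) GR.id.snd))
        ((RL.eq (GR.id.fst.mod (GR.num 2)) (GR.num 1)).and (RL.or ?_
          (RL.th hA c hB hY ((GR.id.fst.div (GR.num 2)).add (GR.num 1)) GR.id.snd))))))
    exact RL.ex (R := fun a u => ce B Y c a (Nat.unpair u).2 ∧
      oth A B Y c ((Nat.unpair u).1 / 2) a (Nat.unpair u).2)
      ((RL.ce c hB hY GR.id.fst GR.id.snd.snd).and (RL.oth hA c hB hY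
        (GR.id.snd.fst.div (GR.num 2)) GR.id.fst GR.id.snd.snd)) (GR.w hA (GR.PP c GR.id.snd))
  · intro x j hx
    simp only [Set.mem_ofPred_eq, Nat.unpair_pair, pair_pos hx, true_and]
    rintro (⟨h1, _⟩ | ⟨h1, ⟨h2, h3⟩ | ⟨h2, h3⟩⟩)
    · omega
    · right
      refine ⟨h1, Or.inr ⟨by omega, Or.inr ?_⟩⟩
      rwa [show j / 2 + 1 = (j + 1) / 2 by omega]
    · right
      refine ⟨h1, Or.inl ⟨by omega, ?_⟩⟩
      rw [show (j + 1) / 2 = j / 2 by omega] at h3
      rcases h3 with ⟨a, _, _, h4⟩ | h4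
      · refine le_trans h4 (Set.ncard_le_ncard (fun a' h => ⟨h.1, h.2.2⟩)
          ((Set.finite_Iio _).subset fun t ht => ht.1))
      · exact le_trans (Nat.le_succ _) h4
  · intro x hx
    set n := Nat.log 2 x with hn
    simp only [Set.mem_ofPred_eq, Nat.unpair_pair, pair_pos hx, true_and]
    rcases Nat.lt_or_ge x M₀ with hxM | hxM
    · by_cases hxT : x ∈ T
      · have : {j | j < A' n ∧ (j = 0 ∧ 0 < x ∧ x < M₀ ∧ x ∈ T ∨ M₀ ≤ x ∧
            (j % 2 = 0 ∧ th A B Y c (j / 2) x ∨ j % 2 = 1 ∧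
              ((∃ a, a < A (Nat.log 2 (PP c x)) ∧ ce B Y c a x ∧ oth A B Y c (j / 2) a x) ∨
                th A B Y c (j / 2 + 1) x)))} = {0} := by
          ext j
          constructor
          · rintro ⟨_, ⟨h1, _⟩ | ⟨h1, _⟩⟩
            · exact h1
            · omega
          · intro h1
            have h1' : j = 0 := h1
            exact ⟨by rw [h1']; exact hA' n, Or.inl ⟨h1', hx, hxM, hxT⟩⟩
        rw [this, Set.ncard_singleton]
        simp [hxT]
      · have : {j | j < A' n ∧ (j = 0 ∧ 0 < x ∧ x < M₀ ∧ x ∈ T ∨ M₀ ≤ x ∧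
            (j % 2 = 0 ∧ th A B Y c (j / 2) x ∨ j % 2 = 1 ∧
              ((∃ a, a < A (Nat.log 2 (PP c x)) ∧ ce B Y c a x ∧ oth A B Y c (j / 2) a x) ∨
                th A B Y c (j / 2 + 1) x)))} = ∅ := by
          ext j
          simp only [Set.mem_empty_iff_false, iff_false]
          rintro ⟨_, ⟨_, _, _, h1⟩ | ⟨h1, _⟩⟩
          · exact hxT h1
          · omega
        rw [this, Set.ncard_empty]
        simp [hxT]
    · have hlog : n₀ ≤ n := (Nat.le_log_iff_pow_le (by norm_num) hx.ne').2 hxM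
      have hlP : Nat.log 2 (PP c x) = (2 * c + 4) * (n + 1) := by
        rw [PP_eq, Nat.log_pow (by norm_num)]
      have hPpos : 0 < PP c x := by rw [PP_eq]; exact Nat.two_pow_pos _
      set m := (2 * c + 4) * (n + 1) with hm
      rw [hlP]
      have hR : (2 ^ n) ^ c = 2 ^ (c * n) := by rw [← pow_mul, mul_comm]
      have hT1 := hBT x hx
      set NN := Set.ncard {j | j < 2 ^ (c * n) ∧ Nat.pair j x ∈ B} with hNN
      have hNR : NN ≤ 2 ^ (c * n) := by
        have h1 : {j | j < 2 ^ (c * n) ∧ Nat.pair j x ∈ B} ⊆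
            ((Finset.range (2 ^ (c * n)) : Finset ℕ) : Set ℕ) := fun i hi => by simpa using hi.1
        have h2 := Set.ncard_le_ncard h1 (Finset.finite_toSet _)
        rwa [Set.ncard_coe_finset, Finset.card_range] at h2
      have hch : ∀ j < 2 ^ (c * n), (Nat.pair j x ∈ B ↔ j < NN) := fun j hj =>
        chain_iff hd hx (2 ^ (c * n)) j hj
      -- membership in the padded set
      have hz : ∀ w < PP c x, Nat.log 2 (PP c x + w) = m := by
        intro w hw
        rw [PP_eq] at hw ⊢
        exact log_code hw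
      have hQw : ∀ w < PP c x, (w ∉ B ↔ Nat.pair (α m) (PP c x + w) ∈ Y) := by
        intro w hw
        have h1 := hα2 (PP c x + w) (by omega)
        rw [hz w hw] at h1
        rw [← h1]
        have h2 : PP c x + w - 2 ^ Nat.log 2 (PP c x + w) = w := by
          rw [hz w hw, hm, hn, ← PP_eq]
          omega
        constructor
        · intro h3
          refine ⟨by omega, fun h4 => h3 ?_⟩
          have := h4.2
          rwa [h2] at this
        · intro h3 h4
          exact h3.2 ⟨by omega, by rw [h2]; exact h4⟩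
      have hfin : {a | a < A m ∧ un B Y c a x}.Finite := (Set.finite_Iio _).subset fun t ht => ht.1
      have hKn : Set.ncard {a | a < A (Nat.log 2 (PP c x)) ∧ un B Y c a x} =
        Set.ncard {a | a < A m ∧ un B Y c a x} := by rw [hlP]
      set K := Set.ncard {a | a < A m ∧ un B Y c a x} with hK
      have hth : ∀ k, th A B Y c k x ↔ k ≤ K := by
        intro k
        unfold th
        rw [hKn]
      -- the right advice is sound
      have hsound : ¬ un B Y c (α m) x := by
        rintro ⟨w, hw, h1, h2⟩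
        exact (hQw w hw).2 h2 h1
      have hKA : K < A m := by
        have h1 : {a | a < A m ∧ un B Y c a x} ⊂ ((Finset.range (A m) : Finset ℕ) : Set ℕ) := by
          refine ⟨fun a ha => by simpa using ha.1, fun h2 => ?_⟩
          exact hsound (h2 (by simpa using hα m)).2
        have h2 := Set.ncard_lt_ncard h1 (Finset.finite_toSet _)
        rwa [Set.ncard_coe_finset, Finset.card_range] at h2
      have key : (∃ a, a < A m ∧ (ce B Y c a x ∧ oth A B Y c K a x)) ↔ x ∉ T := by
        rw [hT1, Nat.not_odd_iff_even]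
        constructor
        · rintro ⟨a, ha, ⟨i, hi, hi2, h1, h2⟩, h3⟩
          rw [← hn, hR] at hi h2
          have ha2 : ¬ un B Y c a x := by
            intro h4
            unfold oth at h3
            rw [hlP] at h3
            have h5 : {a' | a' < A m ∧ (a' ≠ a ∧ un B Y c a' x)} ⊂
                {a | a < A m ∧ un B Y c a x} := by
              refine ⟨fun a' h => ⟨h.1, h.2.2⟩, fun h6 => ?_⟩
              exact (h6 ⟨ha, h4⟩).2.1 rfl
            have h6 := Set.ncard_lt_ncard h5 hfin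
            omega
          have h4 : i ≤ NN := by
            rcases h1 with h1 | h1
            · omega
            · rcases Nat.eq_zero_or_pos i with h5 | h5
              · omega
              · have := (hch (i - 1) (by omega)).1 h1
                omega
          have h5 : NN = i := by
            rcases h2 with h2 | h2
            · omega
            · rcases Nat.lt_or_ge i (2 ^ (c * n)) with h6 | h6
              · by_contra h7
                have h8 := (hch i h6).2 (by omega)
                exact ha2 ⟨_, pair_lt_PP c hx (by rw [← hn, hR]; exact h6.le), h8, h2⟩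
              · omega
          rw [h5]
          exact Nat.even_iff.2 hi2
        · intro hev
          refine ⟨α m, hα m, ⟨NN, by rw [← hn, hR]; omega, Nat.even_iff.1 hev, ?_, ?_⟩, ?_⟩
          · rcases Nat.eq_zero_or_pos NN with h5 | h5
            · exact Or.inl h5
            · exact Or.inr ((hch (NN - 1) (by omega)).2 (by omega))
          · rw [← hn, hR]
            rcases Nat.lt_or_ge NN (2 ^ (c * n)) with h6 | h6
            · right
              refine (hQw _ (pair_lt_PP c hx (by rw [← hn, hR]; exact h6.le))).1 fun h7 => ?_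
              have := (hch _ h6).1 h7
              omega
            · left
              omega
          · unfold oth
            rw [hlP]
            have h5 : {a' | a' < A m ∧ (a' ≠ α m ∧ un B Y c a' x)} =
                {a | a < A m ∧ un B Y c a x} := by
              ext a'
              constructor
              · rintro ⟨h, _, h'⟩
                exact ⟨h, h'⟩
              · rintro ⟨h, h'⟩
                exact ⟨h, fun h6 => hsound (h6 ▸ h'), h'⟩
            rw [h5]
      have hA2 : 2 * A m ≤ A' n := hAA n hlog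
      have hset : {j | j < A' n ∧ (j = 0 ∧ 0 < x ∧ x < M₀ ∧ x ∈ T ∨ M₀ ≤ x ∧
            (j % 2 = 0 ∧ th A B Y c (j / 2) x ∨ j % 2 = 1 ∧
              ((∃ a, a < A m ∧ ce B Y c a x ∧ oth A B Y c (j / 2) a x) ∨
                th A B Y c (j / 2 + 1) x)))} =
          ((Finset.range (2 * K + 1 + if x ∈ T then 0 else 1) : Finset ℕ) : Set ℕ) := by
        ext j
        simp only [Set.mem_ofPred_eq, Finset.coe_range, Set.mem_Iio, hth]
        have hto : ∀ k a, oth A B Y c k a x → k ≤ K := fun k a h =>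
          le_trans h (by
            rw [← hKn]
            exact Set.ncard_le_ncard (fun a' h => ⟨h.1, h.2.2⟩)
              ((Set.finite_Iio _).subset fun t ht => ht.1))
        constructor
        · rintro ⟨_, ⟨_, _, h1, _⟩ | ⟨_, ⟨h1, h2⟩ | ⟨h1, ⟨a, ha, h2, h3⟩ | h2⟩⟩⟩
          · omega
          · split_ifs <;> omega
          · have h4 := hto _ _ h3
            rcases Nat.lt_or_ge (j / 2) K with h5 | h5
            · split_ifs <;> omega
            · have h6 : j / 2 = K := by omega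
              rw [h6] at h3
              rw [if_neg (key.1 ⟨a, ha, h2, h3⟩)]
              omega
          · split_ifs <;> omega
        · intro h1
          have h2 : j < 2 * K + 2 := by split_ifs at h1 <;> omega
          refine ⟨by omega, Or.inr ⟨hxM, ?_⟩⟩
          rcases Nat.mod_two_eq_zero_or_one j with h3 | h3
          · left
            exact ⟨h3, by omega⟩
          · right
            refine ⟨h3, ?_⟩
            rcases Nat.lt_or_ge (j / 2) K with h5 | h5
            · right
              omega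
            · left
              have h6 : j / 2 = K := by omega
              have h7 : x ∉ T := by
                intro h8
                rw [if_pos h8] at h1
                omega
              rw [h6]
              obtain ⟨a, ha, h8, h9⟩ := key.2 h7
              exact ⟨a, ha, h8, h9⟩
      rw [hset, Set.ncard_coe_finset, Finset.card_range]
      by_cases hxT : x ∈ T
      · simp [hxT]
      · simp [hxT, Nat.not_odd_iff_even]
        exact ⟨K + 1, by ring⟩

end Pool.Agent.H76.ADV
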