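import Pool.Agent.H76.ADV.Defs

/-!
# Approximation by NE with advice; the difference hierarchy over NE
-/

set_option autoImplicit false

namespace Pool.Agent.H76.ADV

open Pool.Agent.H8.JS Pool.Agent.H69.Sp Filter

/-- Every set in `coNE` agrees, up to `h n` words of length `n`, for all large `n`, with a set in `NE`
with `A n` advice values. -/
def Appr (A : ℕ → ℕ) (h : ℕ → ℝ) : Prop :=
  ∀ L ∈ coNE, ∃ B ∈ NEadv A, ∀ᶠ n in atTop, (err B L n : ℝ) ≤ h n

/-- The level `A` of the difference hierarchy over `NE`: `x` is in the set if and only if the number of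
`j < A |x|` such that the pair of `j` and `x` is in `X` is odd, where (the language of) `X` is in `NE`
and decreasing in `j`. -/
def DH (A : ℕ → ℕ) : Set (Set (List Bool)) :=
  {T | ∃ X : Set ℕ, lang X ∈ NE ∧
    (∀ (x : List Bool) (j : ℕ), Nat.pair (j + 1) (num x) ∈ X → Nat.pair j (num x) ∈ X) ∧
    ∀ x : List Bool, x ∈ T ↔ Odd (Set.ncard {j | j < A x.length ∧ Nat.pair j (num x) ∈ X})}

end Pool.Agent.H76.ADV
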