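import Pool.Agent.H76.ADV.Targets2

/-!
# NE with advice: from the collapse of the difference hierarchy to constantly many advice values
-/

set_option autoImplicit false

namespace Pool.Agent.H76.ADV

open Pool.Agent.H69.Sp Pool.Agent.H69.Mt Pool.Agent.H8.JS Classical

theorem RL.finall {R : ℕ → ℕ → Prop} (h : ∀ a, RL (R a)) (n : ℕ) :
    RL (fun u => ∀ a, a < n → R a u) := by
  induction n with
  | zero => exact (RL.const True).congr fun u => by simp
  | succ n ih =>
    refine (ih.and (h n)).congr fun u => ?_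
    constructor
    · rintro ⟨h1, h2⟩ a ha
      rcases Nat.lt_succ_iff_lt_or_eq.1 ha with h3 | rfl
      · exact h1 a h3
      · exact h2
    · intro h1
      exact ⟨fun a ha => h1 a (by omega), h1 n (by omega)⟩

/-- the `i`-th digit of `b` -/
def en (P b i : ℕ) : ℕ := b / P ^ i % P

theorem GR.en {f g : ℕ → ℕ} (hf : GR f) (hg : GR g) (i : ℕ) : GR (fun u => en (f u) (g u) i) :=
  (hg.div (hf.npow i)).mod hf

theorem exists_code {P : ℕ} (f : ℕ → ℕ) (hf : ∀ i, f i < P) (K : ℕ) :
    ∃ b < P ^ K, ∀ i < K, en P b i = f i := by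
  have hP : 0 < P := lt_of_le_of_lt (Nat.zero_le _) (hf 0)
  induction K with
  | zero => exact ⟨0, by simp, by simp⟩
  | succ K ih =>
    obtain ⟨b, hb, h⟩ := ih
    refine ⟨b + f K * P ^ K, ?_, fun i hi => ?_⟩
    · have h1 : (f K + 1) * P ^ K ≤ P * P ^ K := Nat.mul_le_mul_right _ (hf K)
      rw [pow_succ, mul_comm (P ^ K)]
      rw [add_mul, one_mul] at h1
      omega
    · unfold ADV.en
      rcases Nat.lt_succ_iff_lt_or_eq.1 hi with h1 | rfl
      · obtain ⟨d, hd⟩ : ∃ d, K = i + (d + 1) := ⟨K - i - 1, by omega⟩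
        have h2 : f K * P ^ K = P ^ i * (f K * P ^ d * P) := by
          rw [hd, pow_add, pow_succ]
          ring
        rw [h2, Nat.add_mul_div_left _ _ (Nat.pow_pos hP), Nat.add_mul_mod_self_right]
        exact h i h1
      · rw [mul_comm, Nat.add_mul_div_left _ _ (Nat.pow_pos hP), Nat.div_eq_of_lt hb, zero_add,
          Nat.mod_eq_of_lt (hf _)]

/-- the entries up to the `j`-th are at most `v` -/
def ind (P b v : ℕ) : ℕ → ℕ
  | 0 => 1 - (en P b 0 - v)
  | j + 1 => ind P b v j * (1 - (en P b (j + 1) - v))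

theorem ind_eq (P b v j : ℕ) : ind P b v j = if ∀ i ≤ j, en P b i ≤ v then 1 else 0 := by
  induction j with
  | zero =>
    unfold ind
    by_cases h : en P b 0 ≤ v
    · rw [if_pos (fun i hi => by rwa [Nat.le_zero.1 hi])]
      omega
    · rw [if_neg (fun h1 => h (h1 0 le_rfl))]
      omega
  | succ j ih =>
    unfold ind
    rw [ih]
    by_cases h : en P b (j + 1) ≤ v
    · by_cases h1 : ∀ i ≤ j, en P b i ≤ v
      · rw [if_pos h1, if_pos]
        · omega
        · intro i hi
          rcases Nat.lt_or_ge j i with h2 | h2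
          · rwa [show i = j + 1 by omega]
          · exact h1 i h2
      · rw [if_neg h1, if_neg fun h2 => h1 fun i hi => h2 i (by omega), zero_mul]
    · have h3 : ¬ ∀ i ≤ j + 1, en P b i ≤ v := fun h2 => h (h2 (j + 1) le_rfl)
      rw [if_neg h3, show 1 - (en P b (j + 1) - v) = 0 by omega, mul_zero]

/-- the number of the entries before the first one which is larger than `v` -/
def prf (P b v : ℕ) : ℕ → ℕ
  | 0 => 0
  | K + 1 => prf P b v K + ind P b v K

theorem prf_eq (P b v K : ℕ) : prf P b v K =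
    Set.ncard {j | j < K ∧ ∀ i ≤ j, en P b i ≤ v} := by
  induction K with
  | zero => simp [prf]
  | succ K ih =>
    unfold prf
    rw [ih, ind_eq]
    have hfin : {j | j < K ∧ ∀ i ≤ j, en P b i ≤ v}.Finite :=
      (Set.finite_Iio K).subset fun t ht => ht.1
    by_cases h : ∀ i ≤ K, en P b i ≤ v
    · rw [if_pos h]
      have : {j | j < K + 1 ∧ ∀ i ≤ j, en P b i ≤ v} =
          insert K {j | j < K ∧ ∀ i ≤ j, en P b i ≤ v} := by
        ext j
        constructor
        · rintro ⟨h1, h2⟩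
          rcases Nat.lt_succ_iff_lt_or_eq.1 h1 with h3 | rfl
          · exact Or.inr ⟨h3, h2⟩
          · exact Or.inl rfl
        · rintro (rfl | ⟨h1, h2⟩)
          · exact ⟨by omega, h⟩
          · exact ⟨by omega, h2⟩
      rw [this, Set.ncard_insert_of_notMem (fun h1 => lt_irrefl _ h1.1) hfin]
    · rw [if_neg h, add_zero]
      congr 1
      ext j
      constructor
      · rintro ⟨h1, h2⟩
        exact ⟨by omega, h2⟩
      · rintro ⟨h1, h2⟩
        rcases Nat.lt_succ_iff_lt_or_eq.1 h1 with h3 | rfl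
        · exact ⟨h3, h2⟩
        · exact absurd h2 h

/-- prescribed values for `prf` -/
theorem prf_of {P b K t : ℕ} {v : ℕ → ℕ} (ht : t ≤ K) (hb : ∀ i < t, en P b i = v (i + 1))
    (hb' : ∀ i, t ≤ i → i < K → v t < en P b i) (hv : ∀ j < t, v j < v (j + 1)) :
    ∀ j ≤ t, prf P b (v j) K = j := by
  intro j hj
  have hmono : ∀ i k, i ≤ k → k ≤ t → v i ≤ v k := by
    intro i k hik hk
    induction k with
    | zero => rw [Nat.le_zero.1 hik]
    | succ k ih =>
      rcases Nat.lt_or_ge i (k + 1) with h1 | h1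
      · exact (ih (by omega) (by omega)).trans (hv k (by omega)).le
      · rw [show i = k + 1 by omega]
  have hlt : ∀ i k, i < k → k ≤ t → v i < v k := fun i k hik hk =>
    lt_of_lt_of_le (hv i (by omega)) (hmono (i + 1) k hik hk)
  rw [prf_eq]
  have : {k | k < K ∧ ∀ i ≤ k, en P b i ≤ v j} = ((Finset.range j : Finset ℕ) : Set ℕ) := by
    ext k
    simp only [Set.mem_ofPred_eq, Finset.coe_range, Set.mem_Iio]
    constructor
    · rintro ⟨h1, h2⟩
      by_contra h3
      have h4 := h2 j (by omega)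
      rcases Nat.lt_or_ge j t with h5 | h5
      · rw [hb j h5] at h4
        have := hlt j (j + 1) (by omega) (by omega)
        omega
      · have h6 := hb' j h5 (by omega)
        rw [show t = j by omega] at h6
        omega
    · intro h1
      refine ⟨by omega, fun i hi => ?_⟩
      rw [hb i (by omega)]
      exact hmono (i + 1) j (by omega) hj
  rw [this, Set.ncard_coe_finset, Finset.card_range]

theorem GR.ind {f g h : ℕ → ℕ} (hf : GR f) (hg : GR g) (hh : GR h) (j : ℕ) :
    GR (fun u => ind (f u) (g u) (h u) j) := by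
  induction j with
  | zero => exact (GR.num 1).sub ((GR.en hf hg 0).sub hh)
  | succ j ih => exact ih.mul ((GR.num 1).sub ((GR.en hf hg (j + 1)).sub hh))

theorem GR.prf {f g h : ℕ → ℕ} (hf : GR f) (hg : GR g) (hh : GR h) (K : ℕ) :
    GR (fun u => prf (f u) (g u) (h u) K) := by
  induction K with
  | zero => exact GR.num 0
  | succ K ih => exact ih.add (GR.ind hf hg hh K)

/-- the number of the changes -/
def alt (K P b : ℕ) (v : ℕ → ℕ) : ℕ → ℕ
  | 0 => (prf P b (v 0) K + 1) % 2
  | t + 1 => alt K P b v t + (prf P b (v t) K + prf P b (v (t + 1)) K) % 2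

theorem GR.alt {f g : ℕ → ℕ} {v : ℕ → ℕ → ℕ} (K : ℕ) (hf : GR f) (hg : GR g) (hv : ∀ j, GR (v j))
    (t : ℕ) : GR (fun u => alt K (f u) (g u) (fun j => v j u) t) := by
  induction t with
  | zero => exact ((GR.prf hf hg (hv 0) K).add (GR.num 1)).mod (GR.num 2)
  | succ t ih =>
    exact ih.add (((GR.prf hf hg (hv t) K).add (GR.prf hf hg (hv (t + 1)) K)).mod (GR.num 2))

theorem alt_congr {K P b : ℕ} {v v' : ℕ → ℕ} {t : ℕ} (h : ∀ j ≤ t, v j = v' j) :
    alt K P b v t = alt K P b v' t := by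
  induction t with
  | zero =>
    unfold alt
    rw [h 0 le_rfl]
  | succ t ih =>
    unfold alt
    rw [ih fun j hj => h j (by omega), h t (by omega), h (t + 1) le_rfl]

theorem alt_par (K P b : ℕ) (v : ℕ → ℕ) (t : ℕ) :
    alt K P b v t % 2 = (prf P b (v t) K + 1) % 2 := by
  induction t with
  | zero =>
    unfold alt
    omega
  | succ t ih =>
    unfold alt
    omega

theorem alt_full {K P b : ℕ} {v : ℕ → ℕ} (t : ℕ) (h : ∀ j ≤ t, prf P b (v j) K = j) :
    alt K P b v t = t + 1 := by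
  induction t with
  | zero =>
    unfold alt
    rw [h 0 le_rfl]
  | succ t ih =>
    unfold alt
    rw [ih fun j hj => h j (by omega), h t (by omega), h (t + 1) le_rfl]
    omega

/-- the number of the changes is at most the number of the levels -/
def good (K : ℕ) (Y : Set ℕ) (t b q m : ℕ) : Prop :=
  alt K (m + 2) b (fun j => en (m + 2) q j) t = 0 ∨
    (alt K (m + 2) b (fun j => en (m + 2) q j) t ≤ K ∧
      Nat.pair (alt K (m + 2) b (fun j => en (m + 2) q j) t - 1) (Nat.pair b m) ∈ Y)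

theorem RL.good (K : ℕ) {Y : Set ℕ} (hY : IsSpectrum Y) (t : ℕ) {f g h : ℕ → ℕ} (hf : GR f)
    (hg : GR g) (hh : GR h) : RL (fun u => good K Y t (f u) (g u) (h u)) := by
  have h1 : GR (fun u => ADV.alt K (h u + 2) (f u) (fun j => ADV.en (h u + 2) (g u) j) t) :=
    GR.alt (v := fun j u => ADV.en (h u + 2) (g u) j) K (hh.add (GR.num 2)) hf
      (fun j => GR.en (hh.add (GR.num 2)) hg j) t
  exact (RL.eq h1 (GR.num 0)).or ((RL.le h1 (GR.num K)).and
    (RL.mem hY ((h1.sub (GR.num 1)).pair (hf.pair hh))))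

/-- a chain of claims -/
def vld (K : ℕ) (S Y : Set ℕ) (t q x : ℕ) : Prop :=
  (∀ j, j < t → en (2 ^ Nat.log 2 x + 2) q j < en (2 ^ Nat.log 2 x + 2) q (j + 1)) ∧
    (∀ b, b < (2 ^ Nat.log 2 x + 2) ^ K → good K Y t b q (2 ^ Nat.log 2 x)) ∧
    en (2 ^ Nat.log 2 x + 2) q t ≤ Set.ncard {y | y < 2 * 2 ^ Nat.log 2 x ∧
      (2 ^ Nat.log 2 x ≤ y ∧ (y ∈ S ∧ y ≠ x))}

theorem RL.vld (K : ℕ) {S Y : Set ℕ} (hS : IsSpectrum S) (hY : IsSpectrum Y) (t : ℕ)
    {f g : ℕ → ℕ} (hf : GR f) (hg : GR g) : RL (fun u => vld K S Y t (f u) (g u)) := by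
  have hm : ∀ {k : ℕ → ℕ}, GR k → GR (fun u => 2 ^ Nat.log 2 (k u) + 2) := fun hk =>
    hk.powlog.add (GR.num 2)
  have h : RL (fun w => ADV.vld K S Y t (Nat.unpair w).1 (Nat.unpair w).2) := by
    refine RL.and (RL.finall (fun j => RL.lt (GR.en (hm GR.id.snd) GR.id.fst j)
      (GR.en (hm GR.id.snd) GR.id.fst (j + 1))) t) (RL.and ?_ ?_)
    · exact RL.all (R := fun b w => ADV.good K Y t b (Nat.unpair w).1
        (2 ^ Nat.log 2 (Nat.unpair w).2)) (RL.good K hY t GR.id.fst GR.id.snd.fst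
          GR.id.snd.snd.powlog) ((hm GR.id.snd).npow K)
    · refine RL.card (R := fun y w => 2 ^ Nat.log 2 (Nat.unpair w).2 ≤ y ∧ (y ∈ S ∧
        y ≠ (Nat.unpair w).2)) ?_ (GR.en (hm GR.id.snd) GR.id.fst t)
          ((GR.num 2).mul GR.id.snd.powlog)
      exact (RL.le GR.id.snd.snd.powlog GR.id.fst).and ((RL.mem hS GR.id.fst).and
        (RL.ne GR.id.fst GR.id.snd.snd))
  exact (h.comp (hf.pair hg)).congr fun u => by simp

theorem pf_KK : T_KK := by
  intro K hK hyp S hS
  -- the set with `K` levels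
  set cn : ℕ → ℕ := fun n => Set.ncard {y | y < 2 * 2 ^ n ∧ (2 ^ n ≤ y ∧ y ∈ S)} with hcn
  set X : Set ℕ := {w | 0 < w ∧ ((Nat.unpair w).1 < K ∧ ∀ i, i < K → ((Nat.unpair w).1 < i ∨
    en (2 ^ Nat.log 2 (Nat.unpair (Nat.unpair w).2).2 + 2) (Nat.unpair (Nat.unpair w).2).1 i ≤
      Set.ncard {y | y < 2 * 2 ^ Nat.log 2 (Nat.unpair (Nat.unpair w).2).2 ∧
        (2 ^ Nat.log 2 (Nat.unpair (Nat.unpair w).2).2 ≤ y ∧ y ∈ S)}))} with hX
  have hXs : IsSpectrum X := by
    refine RL.isSpectrum (RL.and (RL.lt GR.id.fst (GR.num K)) (RL.finall (fun i =>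
      RL.or (RL.lt GR.id.fst (GR.num i)) ?_) K))
    exact RL.card (R := fun y w => 2 ^ Nat.log 2 (Nat.unpair (Nat.unpair w).2).2 ≤ y ∧ y ∈ S)
      ((RL.le GR.id.snd.snd.snd.powlog GR.id.fst).and (RL.mem hS GR.id.fst))
      (GR.en (GR.id.snd.snd.powlog.add (GR.num 2)) GR.id.snd.fst i)
      ((GR.num 2).mul GR.id.snd.snd.powlog)
  obtain ⟨Y, hY, hYd, hYT⟩ := hyp {z | Odd (Set.ncard {j | j < K ∧ Nat.pair j z ∈ X})}
    ⟨X, hXs, fun z j hz h => by
      simp only [hX, Set.mem_ofPred_eq, Nat.unpair_pair, pair_pos hz, true_and] at h ⊢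
      exact ⟨by omega, fun i hi => (h.2 i hi).imp (fun h1 => by omega) id⟩, fun z _ => Iff.rfl⟩
  -- the number of the levels
  set u : ℕ → ℕ → ℕ := fun n b => Set.ncard {j | j < K ∧ Nat.pair j (Nat.pair b (2 ^ n)) ∈ Y}
    with hu
  have hpl : ∀ n b, Set.ncard {j | j < K ∧ Nat.pair j (Nat.pair b (2 ^ n)) ∈ X} =
      prf (2 ^ n + 2) b (cn n) K := by
    intro n b
    rw [prf_eq]
    congr 1
    ext j
    have hz : 0 < Nat.pair b (2 ^ n) := pair_pos (Nat.two_pow_pos n)
    simp only [hX, Set.mem_ofPred_eq, Nat.unpair_pair, pair_pos hz, true_and,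
      Nat.log_pow (show 1 < 2 by norm_num)]
    constructor
    · rintro ⟨h1, _, h2⟩
      exact ⟨h1, fun i hi => (h2 i (by omega)).resolve_left (by omega)⟩
    · rintro ⟨h1, h2⟩
      refine ⟨h1, h1, fun i hi => ?_⟩
      rcases Nat.lt_or_ge j i with h3 | h3
      · exact Or.inl h3
      · exact Or.inr (h2 i h3)
  have hpar : ∀ n b, u n b % 2 = (prf (2 ^ n + 2) b (cn n) K + 1) % 2 := by
    intro n b
    have hz : 0 < Nat.pair b (2 ^ n) := pair_pos (Nat.two_pow_pos n)
    have h1 := hYT _ hz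
    beta_reduce at h1
    have h2 : Nat.pair b (2 ^ n) ∈ posCompl {z | Odd (Set.ncard {j | j < K ∧ Nat.pair j z ∈ X})} ↔
        ¬ Odd (prf (2 ^ n + 2) b (cn n) K) := by
      rw [← hpl n b]
      exact ⟨fun h => h.2, fun h => ⟨hz, h⟩⟩
    rw [h2, Nat.odd_iff, Nat.odd_iff] at h1
    show Set.ncard _ % 2 = _
    omega
  have huK : ∀ n b, u n b ≤ K := by
    intro n b
    have h1 : {j | j < K ∧ Nat.pair j (Nat.pair b (2 ^ n)) ∈ Y} ⊆
        ((Finset.range K : Finset ℕ) : Set ℕ) := fun i hi => by simpa using hi.1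
    have h2 := Set.ncard_le_ncard h1 (Finset.finite_toSet _)
    rwa [Set.ncard_coe_finset, Finset.card_range] at h2
  have hlev : ∀ n b a, (a = 0 ∨ (a ≤ K ∧ Nat.pair (a - 1) (Nat.pair b (2 ^ n)) ∈ Y)) ↔
      a ≤ u n b := by
    intro n b a
    have hz : 0 < Nat.pair b (2 ^ n) := pair_pos (Nat.two_pow_pos n)
    have h0 := huK n b
    rcases Nat.eq_zero_or_pos a with rfl | ha
    · simp
    · constructor
      · rintro (h1 | ⟨h1, h2⟩)
        · omega
        · have h3 := (chain_iff hYd hz K (a - 1) (by omega)).1 h2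
          have h4 : a - 1 < u n b := h3
          omega
      · intro h1
        refine Or.inr ⟨by omega, (chain_iff hYd hz K (a - 1) (by omega)).2 ?_⟩
        show a - 1 < u n b
        omega
  have hcle : ∀ n, cn n ≤ 2 ^ n := by
    intro n
    have h1 : {y | y < 2 * 2 ^ n ∧ (2 ^ n ≤ y ∧ y ∈ S)} ⊆
        (Finset.Ico (2 ^ n) (2 * 2 ^ n) : Set ℕ) := by
      rintro y ⟨h1, h2, _⟩
      simp [h1, h2]
    have h2 := Set.ncard_le_ncard h1 (Finset.finite_toSet _)
    rw [Set.ncard_coe_finset, Nat.card_Ico] at h2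
    show Set.ncard {y | y < 2 * 2 ^ n ∧ (2 ^ n ≤ y ∧ y ∈ S)} ≤ 2 ^ n
    omega
  -- the chains of claims
  let V : ℕ → ℕ → (ℕ → ℕ) → Prop := fun n t v => (∀ j < t, v j < v (j + 1)) ∧ v t ≤ cn n ∧
    ∀ b < (2 ^ n + 2) ^ K, alt K (2 ^ n + 2) b v t ≤ u n b
  have V0 : ∀ n, V n 0 (fun _ => cn n) := by
    intro n
    refine ⟨fun j hj => by omega, le_rfl, fun b _ => ?_⟩
    have h1 := hpar n b
    unfold alt
    omega
  have VK : ∀ n t v, V n t v → t < K := by
    rintro n t v ⟨h1, h2, h3⟩
    have hle : ∀ j ≤ t, v j ≤ v t := by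
      intro j hj
      induction t with
      | zero => rw [Nat.le_zero.1 hj]
      | succ t ih =>
        have key : ∀ k, k ≤ t + 1 → j ≤ k → v j ≤ v k := by
          intro k
          induction k with
          | zero =>
            intro _ h
            rw [Nat.le_zero.1 h]
          | succ k ih2 =>
            intro hk h
            rcases Nat.lt_or_ge j (k + 1) with h4 | h4
            · exact (ih2 (by omega) (by omega)).trans (h1 k (by omega)).le
            · rw [show j = k + 1 by omega]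
        exact key (t + 1) le_rfl hj
    by_contra hKt
    -- the tuple of the first `K` claims
    obtain ⟨b, hb, hb2⟩ := exists_code (P := 2 ^ n + 2)
      (fun i => if i < K then v (i + 1) else 0) (fun i => by
        show (if i < K then v (i + 1) else 0) < 2 ^ n + 2
        have h4 := hcle n
        split_ifs with h5
        · have := hle (i + 1) (by omega)
          omega
        · omega) K
    have hall : ∀ j ≤ K, prf (2 ^ n + 2) b (v j) K = j := by
      refine prf_of le_rfl (fun i hi => ?_) (fun i hi1 hi2 => by omega) (fun j hj => h1 j (by omega))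
      rw [hb2 i hi]
      exact if_pos hi
    have h5 := alt_full (K := K) (P := 2 ^ n + 2) (b := b) (v := v) K hall
    have hmon : ∀ s, s ≤ t → K ≤ s → alt K (2 ^ n + 2) b v K ≤ alt K (2 ^ n + 2) b v s := by
      intro s
      induction s with
      | zero =>
        intro _ h
        omega
      | succ s ih =>
        intro hs h
        rcases Nat.lt_or_ge s K with h6 | h6
        · rw [show s + 1 = K by omega]
        · refine (ih (by omega) h6).trans ?_
          conv_rhs => unfold alt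
          omega
    have h6 := hmon t le_rfl (not_lt.1 hKt)
    have h7 := h3 b hb
    have h8 := huK n b
    omega
  have VS : ∀ n t v, V n t v → v t < cn n → ∃ v', V n (t + 1) v' := by
    rintro n t v ⟨h1, h2, h3⟩ hlt
    refine ⟨fun j => if j ≤ t then v j else cn n, fun j hj => ?_, ?_, fun b hb => ?_⟩
    · show (if j ≤ t then v j else cn n) < (if j + 1 ≤ t then v (j + 1) else cn n)
      rcases Nat.lt_or_ge j t with h4 | h4
      · rw [if_pos h4.le, if_pos (show j + 1 ≤ t by omega)]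
        exact h1 j h4
      · rw [show j = t by omega, if_pos le_rfl, if_neg (show ¬ t + 1 ≤ t by omega)]
        exact hlt
    · show (if t + 1 ≤ t then v (t + 1) else cn n) ≤ cn n
      rw [if_neg (show ¬ t + 1 ≤ t by omega)]
    · have h4 := h3 b hb
      have h5 := hpar n b
      have h6 := alt_par K (2 ^ n + 2) b v t
      have h7 : alt K (2 ^ n + 2) b (fun j => if j ≤ t then v j else cn n) t =
          alt K (2 ^ n + 2) b v t := alt_congr fun j hj => if_pos hj
      conv_lhs => unfold alt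
      rw [h7, if_pos le_rfl, if_neg (show ¬ t + 1 ≤ t by omega)]
      omega
  -- the longest chain
  have hmax : ∀ n, ∃ t, t < K ∧ (∃ v, V n t v) ∧ ∀ v, V n t v → v t = cn n := by
    intro n
    by_contra hno
    have key : ∀ t, ∃ v, V n t v := by
      intro t
      induction t with
      | zero => exact ⟨_, V0 n⟩
      | succ t ih =>
        by_contra h1
        refine hno ⟨t, ?_, ih, fun v hv => ?_⟩
        · obtain ⟨v, hv⟩ := ih
          exact VK n t v hv
        · by_contra h2
          exact h1 (VS n t v hv (lt_of_le_of_ne hv.2.1 h2))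
    obtain ⟨v, hv⟩ := key K
    exact lt_irrefl _ (VK n K v hv)
  choose ts hts1 hts2 hts3 using hmax
  refine ⟨{w | 0 < w ∧ ∃ t, t < K ∧ ((Nat.unpair w).1 = t ∧
    ∃ q, q < (2 ^ Nat.log 2 (Nat.unpair w).2 + 2) ^ K ∧ vld K S Y t q (Nat.unpair w).2)}, ?_, ts,
    hts1, fun x hx => ?_⟩
  · refine RL.isSpectrum (RL.fin (fun t => RL.and (RL.eq GR.id.fst (GR.num t)) ?_) K)
    exact RL.ex (R := fun q w => vld K S Y t q (Nat.unpair w).2)
      (RL.vld K hS hY t GR.id.fst GR.id.snd.snd)
      ((GR.id.snd.powlog.add (GR.num 2)).npow K)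
  · set n := Nat.log 2 x with hn
    have hxn := (log_iff hx.ne').1 hn
    simp only [Set.mem_ofPred_eq, Nat.unpair_pair, pair_pos hx, true_and]
    -- the census without `x`
    have hfin : {y | y < 2 * 2 ^ n ∧ (2 ^ n ≤ y ∧ y ∈ S)}.Finite :=
      (Set.finite_Iio (2 * 2 ^ n)).subset fun t ht => ht.1
    have hsub : {y | y < 2 * 2 ^ n ∧ (2 ^ n ≤ y ∧ (y ∈ S ∧ y ≠ x))} ⊆
        {y | y < 2 * 2 ^ n ∧ (2 ^ n ≤ y ∧ y ∈ S)} := fun y hy => ⟨hy.1, hy.2.1, hy.2.2.1⟩
    have hle := Set.ncard_le_ncard hsub hfin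
    have hcases : (x ∉ S → Set.ncard {y | y < 2 * 2 ^ n ∧ (2 ^ n ≤ y ∧ (y ∈ S ∧ y ≠ x))} = cn n) ∧
        (x ∈ S → Set.ncard {y | y < 2 * 2 ^ n ∧ (2 ^ n ≤ y ∧ (y ∈ S ∧ y ≠ x))} < cn n) := by
      constructor
      · intro h
        congr 1
        ext y
        constructor
        · exact fun h1 => hsub h1
        · rintro ⟨h1, h2, h3⟩
          exact ⟨h1, h2, h3, fun h4 => h (h4 ▸ h3)⟩
      · intro h
        refine Set.ncard_lt_ncard ⟨hsub, fun h1 => ?_⟩ hfin
        exact (h1 ⟨by omega, hxn.1, h⟩).2.2.2 rfl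
    constructor
    · intro hxS
      obtain ⟨v, hv1, hv2, hv3⟩ := hts2 n
      have hvt := hts3 n v ⟨hv1, hv2, hv3⟩
      have hle2 : ∀ k, k ≤ ts n → ∀ j ≤ k, v j ≤ v k := by
        intro k
        induction k with
        | zero =>
          intro _ j hj
          rw [Nat.le_zero.1 hj]
        | succ k ih =>
          intro hk j hj
          rcases Nat.lt_or_ge j (k + 1) with h4 | h4
          · exact (ih (by omega) j (by omega)).trans (hv1 k (by omega)).le
          · rw [show j = k + 1 by omega]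
      have hcl := hcle n
      obtain ⟨q, hq, hq2⟩ := exists_code (P := 2 ^ n + 2)
        (fun j => if j ≤ ts n then v j else 0) (fun j => by
          show (if j ≤ ts n then v j else 0) < 2 ^ n + 2
          split_ifs with h5
          · have := hle2 (ts n) le_rfl j h5
            omega
          · omega) K
      have hq3 : ∀ j ≤ ts n, en (2 ^ n + 2) q j = v j := fun j hj => by
        have := hts1 n
        rw [hq2 j (by omega)]
        exact if_pos hj
      refine ⟨ts n, hts1 n, rfl, q, hq, ?_⟩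
      unfold vld
      rw [← hn]
      refine ⟨fun j hj => ?_, fun b hb => ?_, ?_⟩
      · rw [hq3 j (by omega), hq3 (j + 1) (by omega)]
        exact hv1 j hj
      · unfold good
        rw [alt_congr (v' := v) fun j hj => hq3 j hj, hlev]
        exact hv3 b hb
      · rw [hq3 _ le_rfl, hvt, hcases.1 hxS.2]
    · rintro ⟨t, _, h0, q, _, h4⟩
      rw [← h0] at h4
      unfold vld at h4
      rw [← hn] at h4
      obtain ⟨h1, h2, h3⟩ := h4
      refine ⟨hx, fun hxS => ?_⟩
      have h5 := hcases.2 hxS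
      have h6 := hts3 n (fun j => en (2 ^ n + 2) q j) ⟨h1, by
        show en (2 ^ n + 2) q (ts n) ≤ cn n
        omega, fun b hb => (hlev n b _).1 (h2 b hb)⟩
      have h7 : en (2 ^ n + 2) q (ts n) = cn n := h6
      omega

end Pool.Agent.H76.ADV
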