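import Pool.Agent.H76.ADV.Cal3

/-!
# NE with advice: simple facts
-/

set_option autoImplicit false

namespace Pool.Agent.H76.ADV

open Pool.Agent.H69.Sp Pool.Agent.H69.Mt Pool.Agent.H8.JS

abbrev GR.f1 {f : ℕ → ℕ} (h : GR f) := h.fst
abbrev GR.f2 {f : ℕ → ℕ} (h : GR f) := h.snd

theorem pair_pos {a x : ℕ} (hx : 0 < x) : 0 < Nat.pair a x :=
  lt_of_lt_of_le hx (Nat.right_le_pair a x)

theorem pf_IN : T_IN := by
  intro A T hA hT
  refine ⟨{u | 0 < u ∧ ((Nat.unpair u).1 = 0 ∧ (Nat.unpair u).2 ∈ T)},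
    RL.isSpectrum ((RL.eq GR.id.fst (GR.num 0)).and (RL.mem hT GR.id.snd)), fun _ => 0,
    hA, fun x hx => ?_⟩
  simp [pair_pos hx]

theorem pf_MO : T_MO := by
  intro A B n₀ hB hAB hA S hS
  obtain ⟨X, hX, α, hα, h⟩ := hA S hS
  refine ⟨{u | 0 < u ∧ (((Nat.unpair u).2 ∈ {u | 0 < u ∧ (u < 2 ^ n₀ ∧ u ∈ posCompl S)}) ∨
    (2 ^ n₀ ≤ (Nat.unpair u).2 ∧ u ∈ X))},
    RL.isSpectrum ((RL.mem (fin_isSpectrum _ _) GR.id.snd).or ((RL.le (GR.num _) GR.id.snd).and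
      (RL.mem hX GR.id))), fun n => if n₀ ≤ n then α n else 0, fun n => ?_, fun x hx => ?_⟩
  · show (if n₀ ≤ n then α n else 0) < B n
    split_ifs with h1
    · exact lt_of_lt_of_le (hα n) (hAB n h1)
    · exact hB n
  · have h1 : n₀ ≤ Nat.log 2 x ↔ 2 ^ n₀ ≤ x := Nat.le_log_iff_pow_le (by norm_num) hx.ne'
    simp only [Set.mem_ofPred_eq, Nat.unpair_pair, pair_pos hx, true_and]
    split_ifs with h2
    · have h3 := h1.1 h2
      rw [h x hx]
      constructor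
      · intro h4
        exact Or.inr ⟨h3, h4⟩
      · rintro (⟨_, h4, _⟩ | ⟨_, h4⟩)
        · omega
        · exact h4
    · have h3 : ¬ 2 ^ n₀ ≤ x := fun h4 => h2 (h1.2 h4)
      constructor
      · intro h4
        exact Or.inl ⟨hx, by omega, h4⟩
      · rintro (⟨_, _, h4⟩ | ⟨h4, _⟩)
        · exact h4
        · exact absurd h4 h3

/-- numbers `2 ^ n + ν n` for definable `ν` -/
theorem sp_code {g : ℕ → ℕ} (hg : GR g) (hle : ∀ n, g n ≤ n) :
    IsSpectrum {z | ∃ n, z = 2 ^ n + g n} := by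
  have h : RL fun z => z = 2 ^ Nat.log 2 z + g (Nat.log 2 z) :=
    RL.eq GR.id (GR.id.powlog.add (hg.comp GR.id.log))
  convert h.isSpectrum using 1
  ext z
  constructor
  · rintro ⟨n, rfl⟩
    have h1 : g n < 2 ^ n := lt_of_le_of_lt (hle n) Nat.lt_two_pow_self
    have h2 : n = Nat.log 2 (2 ^ n + g n) := (log_iff (by have := Nat.two_pow_pos n; omega)).2
      ⟨by omega, by omega⟩
    refine ⟨by have := Nat.two_pow_pos n; omega, ?_⟩
    rw [← h2]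
  · rintro ⟨_, h1⟩
    exact ⟨_, h1⟩

theorem pf_MU : T_MU := by
  intro p q r hp hpq
  have hq : 0 < q := by omega
  have hle : ∀ n, (p * n - r) / q ≤ n := by
    intro n
    calc (p * n - r) / q ≤ (q * n) / q := Nat.div_le_div_right (by
          have := Nat.mul_le_mul_right n hpq
          omega)
      _ = n := Nat.mul_div_cancel_left n hq
  refine ⟨hq, ?_, ⟨r, fun n hn => ?_⟩, hle, ?_⟩
  · intro a b hab
    refine Nat.div_le_div_right ?_
    have := Nat.mul_le_mul_left p hab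
    omega
  · have h1 : r ≤ p * n := hn.trans (Nat.le_mul_of_pos_left n hp)
    have h2 : p * (n + q) - r = (p * n - r) + q * p := by
      rw [mul_add, mul_comm q p]
      omega
    show (p * n - r) / q < (p * (n + q) - r) / q
    rw [h2, Nat.add_mul_div_left _ _ hq]
    omega
  · exact sp_code (((GR.num p).mul GR.id).sub (GR.num r) |>.div (GR.num q)) hle

/-- the census -/
theorem pf_U : T_U := by
  intro S hS
  -- the words of the same length in `S`, without `x`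
  refine ⟨{u | 0 < u ∧ (Nat.unpair u).1 ≤ Set.ncard {y | y < 2 * 2 ^ Nat.log 2 (Nat.unpair u).2 ∧
    (2 ^ Nat.log 2 (Nat.unpair u).2 ≤ y ∧ y ∈ S ∧ y ≠ (Nat.unpair u).2)}}, ?_, ?_⟩
  · refine RL.isSpectrum (RL.card (R := fun y u => 2 ^ Nat.log 2 (Nat.unpair u).2 ≤ y ∧ y ∈ S ∧
      y ≠ (Nat.unpair u).2) ?_ GR.id.fst ((GR.num 2).mul GR.id.snd.powlog))
    exact (RL.le GR.id.snd.snd.powlog GR.id.fst).and ((RL.mem hS GR.id.fst).and
      (RL.ne GR.id.fst GR.id.snd.snd))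
  · refine ⟨fun n => Set.ncard {y | y < 2 * 2 ^ n ∧ (2 ^ n ≤ y ∧ y ∈ S)}, fun n => ?_, fun x hx => ?_⟩
    · have h1 : {y | y < 2 * 2 ^ n ∧ (2 ^ n ≤ y ∧ y ∈ S)} ⊆ (Finset.Ico (2 ^ n) (2 * 2 ^ n) : Set ℕ) := by
        rintro y ⟨h1, h2, _⟩
        simp [h1, h2]
      have h2 := Set.ncard_le_ncard h1 (Finset.finite_toSet _)
      rw [Set.ncard_coe_finset, Nat.card_Ico] at h2
      show Set.ncard {y | y < 2 * 2 ^ n ∧ (2 ^ n ≤ y ∧ y ∈ S)} < 2 ^ n + 1
      omega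
    · simp only [Set.mem_ofPred_eq, Nat.unpair_pair, pair_pos hx, true_and]
      set n := Nat.log 2 x with hn
      have hxn := (log_iff hx.ne').1 hn
      have hfin : {y | y < 2 * 2 ^ n ∧ (2 ^ n ≤ y ∧ y ∈ S)}.Finite :=
        (Set.finite_Iio (2 * 2 ^ n)).subset fun t ht => ht.1
      have hsub : {y | y < 2 * 2 ^ n ∧ (2 ^ n ≤ y ∧ y ∈ S ∧ y ≠ x)} ⊆
          {y | y < 2 * 2 ^ n ∧ (2 ^ n ≤ y ∧ y ∈ S)} := fun y hy => ⟨hy.1, hy.2.1, hy.2.2.1⟩
      constructor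
      · intro hxS
        refine Set.ncard_le_ncard (fun y hy => ⟨hy.1, hy.2.1, hy.2.2, ?_⟩) (hfin.subset hsub)
        rintro rfl
        exact hxS.2 hy.2.2
      · intro h1
        refine ⟨hx, fun hxS => ?_⟩
        have h2 : {y | y < 2 * 2 ^ n ∧ (2 ^ n ≤ y ∧ y ∈ S ∧ y ≠ x)} ⊂
            {y | y < 2 * 2 ^ n ∧ (2 ^ n ≤ y ∧ y ∈ S)} := by
          refine ⟨hsub, fun h3 => ?_⟩
          exact (h3 ⟨by omega, hxn.1, hxS⟩).2.2.2 rfl
        have h3 := Set.ncard_lt_ncard h2 hfin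
        omega

end Pool.Agent.H76.ADV
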