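import Pool.Agent.H76.ADV.Law1

/-!
# NE with advice: the general law
-/

set_option autoImplicit false

namespace Pool.Agent.H76.ADV

open Pool.Agent.H69.Sp Pool.Agent.H69.Mt Pool.Agent.H8.JS

theorem GR.bd {f : ℕ → ℕ} (hf : GR f) : ∃ d, ∀ u, f u ≤ (u + 2) ^ d := by
  obtain ⟨c, _, _, _, h, _⟩ := hf
  exact ⟨c, h⟩

theorem GR.npow {f : ℕ → ℕ} (hf : GR f) (k : ℕ) : GR (fun u => f u ^ k) := by
  induction k with
  | zero => exact GR.num 1
  | succ k ih => exact ih.mul hf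

/-- the new length -/
theorem GR.mulog {ν : ℕ → ℕ} (hν : ∀ n, ν n ≤ n) (hs : IsSpectrum {z | ∃ n, z = 2 ^ n + ν n})
    {f : ℕ → ℕ} (hf : GR f) : GR (fun u => 2 ^ ν (Nat.log 2 (f u))) := by
  obtain ⟨d, hd⟩ := hf.powlog.bd
  exact (GR.nu hν hs hf.log d hd).pow d fun u =>
    (Nat.pow_le_pow_right (by norm_num) (hν _)).trans (hd u)

/-- the rest of the code -/
def rs (K a x : ℕ) : ℕ := a * K + Nat.log 2 x % K

/-- the code of `a` and `log x` by a word of length `μ (log x)` -/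
def cd (μ : ℕ → ℕ) (K a x : ℕ) : ℕ := 2 ^ μ (Nat.log 2 x) + rs K a x

theorem GR.rs {K : ℕ} {f g : ℕ → ℕ} (hf : GR f) (hg : GR g) : GR (fun u => rs K (f u) (g u)) :=
  (hf.mul (GR.num K)).add (hg.log.mod (GR.num K))

theorem GR.cd {μ : ℕ → ℕ} {K : ℕ} (hμ : Mu μ K) {f g : ℕ → ℕ} (hf : GR f) (hg : GR g) :
    GR (fun u => cd μ K (f u) (g u)) :=
  (GR.mulog hμ.le hμ.sp hg).add (hf.rs hg)

theorem log_code {m w : ℕ} (hw : w < 2 ^ m) : Nat.log 2 (2 ^ m + w) = m :=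
  ((log_iff (by have := Nat.two_pow_pos m; omega)).2 ⟨by omega, by omega⟩).symm

theorem Mu.inj {μ : ℕ → ℕ} {K n₁ : ℕ} (hμ : Mu μ K) (h1 : ∀ n, n₁ ≤ n → μ n < μ (n + K))
    {n n' : ℕ} (hn : n₁ ≤ n) (hn' : n₁ ≤ n') (h : μ n = μ n') (hm : n % K = n' % K) : n = n' := by
  have key : ∀ n n' : ℕ, n₁ ≤ n → n < n' → n % K = n' % K → μ n < μ n' := by
    intro n n' hn hlt hm
    have h2 : n + K ≤ n' := by
      have h3 := Nat.div_add_mod n K
      have h4 := Nat.div_add_mod n' K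
      rw [← hm] at h4
      have h5 : n / K < n' / K := by
        by_contra h6
        have := Nat.mul_le_mul_left K (not_lt.1 h6)
        omega
      have h6 : K * (n / K + 1) ≤ K * (n' / K) := Nat.mul_le_mul_left K h5
      rw [mul_add, mul_one] at h6
      omega
    exact lt_of_lt_of_le (h1 n hn) (hμ.mono h2)
  rcases Nat.lt_trichotomy n n' with h2 | h2 | h2
  · have := key n n' hn h2 hm
    omega
  · exact h2
  · have := key n' n hn' h2 hm.symm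
    omega

theorem cd_inj {μ : ℕ → ℕ} {K n₁ : ℕ} (hμ : Mu μ K) (h1 : ∀ n, n₁ ≤ n → μ n < μ (n + K))
    {a x a' x' : ℕ} (hx : n₁ ≤ Nat.log 2 x) (hx' : n₁ ≤ Nat.log 2 x')
    (hr : rs K a x < 2 ^ μ (Nat.log 2 x)) (hr' : rs K a' x' < 2 ^ μ (Nat.log 2 x'))
    (h : cd μ K a x = cd μ K a' x') : a = a' ∧ Nat.log 2 x = Nat.log 2 x' := by
  have e1 := log_code hr
  have e2 := log_code hr'
  have e3 : μ (Nat.log 2 x) = μ (Nat.log 2 x') := by
    rw [← e1, ← e2]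
    exact congrArg (Nat.log 2) h
  unfold cd at h
  rw [e3] at h
  have e4 : rs K a x = rs K a' x' := by omega
  unfold rs at e4
  have hK := hμ.pos
  have m1 := Nat.mod_lt (Nat.log 2 x) hK
  have m2 := Nat.mod_lt (Nat.log 2 x') hK
  have e5 : a = a' := by
    have f1 : (a * K + Nat.log 2 x % K) / K = a := by
      rw [mul_comm, Nat.mul_add_div hK, Nat.div_eq_of_lt m1, add_zero]
    have f2 : (a' * K + Nat.log 2 x' % K) / K = a' := by
      rw [mul_comm, Nat.mul_add_div hK, Nat.div_eq_of_lt m2, add_zero]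
    rw [← f1, ← f2, e4]
  subst e5
  exact ⟨rfl, hμ.inj h1 hx hx' e3 (by omega)⟩

theorem Mu.bound {μ : ℕ → ℕ} {K n₁ : ℕ} (hμ : Mu μ K) (h1 : ∀ n, n₁ ≤ n → μ n < μ (n + K))
    {n : ℕ} (hn : n₁ ≤ n) : n + 1 ≤ n₁ + K * (μ n + 1) := by
  have h2 : ∀ j, j ≤ μ (n₁ + K * j) := by
    intro j
    induction j with
    | zero => exact Nat.zero_le _
    | succ j ih =>
      have := h1 (n₁ + K * j) (by omega)
      rw [show n₁ + K * (j + 1) = n₁ + K * j + K by ring]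
      omega
  have hK := hμ.pos
  have h3 := Nat.div_add_mod (n - n₁) K
  have h4 := Nat.mod_lt (n - n₁) hK
  have h5 := h2 ((n - n₁) / K)
  have h6 : μ (n₁ + K * ((n - n₁) / K)) ≤ μ n := hμ.mono (by omega)
  have h7 : K * ((n - n₁) / K + 1) ≤ K * (μ n + 1) := Nat.mul_le_mul_left K (by omega)
  rw [mul_add, mul_one] at h7
  omega

/-- the bad advice, coded by words of length `μ n` -/
def Bad (μ : ℕ → ℕ) (K n₁ : ℕ) (S X : Set ℕ) : Set ℕ :=
  {z | 0 < z ∧ ∃ s, s < (z + 2) ^ (2 * (n₁ + 2 * K + 2)) ∧ (2 ^ n₁ ≤ (Nat.unpair s).2 ∧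
    (Nat.unpair s).2 ∈ S ∧ s ∈ X ∧
    rs K (Nat.unpair s).1 (Nat.unpair s).2 < 2 ^ μ (Nat.log 2 (Nat.unpair s).2) ∧
    z = cd μ K (Nat.unpair s).1 (Nat.unpair s).2)}

theorem bad_isSpectrum {μ : ℕ → ℕ} {K : ℕ} (hμ : Mu μ K) (n₁ : ℕ) {S X : Set ℕ}
    (hS : IsSpectrum S) (hX : IsSpectrum X) : IsSpectrum (Bad μ K n₁ S X) := by
  refine RL.isSpectrum (RL.ex (R := fun s z => 2 ^ n₁ ≤ (Nat.unpair s).2 ∧
    (Nat.unpair s).2 ∈ S ∧ s ∈ X ∧
    rs K (Nat.unpair s).1 (Nat.unpair s).2 < 2 ^ μ (Nat.log 2 (Nat.unpair s).2) ∧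
    z = cd μ K (Nat.unpair s).1 (Nat.unpair s).2) ?_ ((GR.id.add (GR.num 2)).npow _))
  refine (RL.le (GR.num _) GR.id.fst.snd).and ((RL.mem hS GR.id.fst.snd).and
    ((RL.mem hX GR.id.fst).and ((RL.lt (GR.id.fst.fst.rs GR.id.fst.snd)
      (GR.mulog hμ.le hμ.sp GR.id.fst.snd)).and (RL.eq GR.id.snd
        (GR.cd hμ GR.id.fst.fst GR.id.fst.snd)))))

theorem mem_bad {μ : ℕ → ℕ} {K n₁ : ℕ} (hμ : Mu μ K) (h1 : ∀ n, n₁ ≤ n → μ n < μ (n + K))
    {S X : Set ℕ} {z : ℕ} : z ∈ Bad μ K n₁ S X ↔ ∃ a x, n₁ ≤ Nat.log 2 x ∧ 0 < x ∧ x ∈ S ∧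
      Nat.pair a x ∈ X ∧ rs K a x < 2 ^ μ (Nat.log 2 x) ∧ z = cd μ K a x := by
  constructor
  · rintro ⟨_, s, _, h2, h3, h4, h5, h6⟩
    have h7 : 0 < (Nat.unpair s).2 := lt_of_lt_of_le (Nat.two_pow_pos n₁) h2
    exact ⟨_, _, (Nat.le_log_iff_pow_le (by norm_num) h7.ne').2 h2, h7, h3,
      by rw [Nat.pair_unpair]; exact h4, h5, h6⟩
  · rintro ⟨a, x, h2, h0, h3, h4, h5, h6⟩
    have h7 : 0 < z := by
      rw [h6]
      unfold cd
      have := Nat.two_pow_pos (μ (Nat.log 2 x))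
      omega
    refine ⟨h7, Nat.pair a x, ?_, ?_⟩
    · set n := Nat.log 2 x with hn
      have e1 := (log_iff h0.ne').1 hn
      have e2 := hμ.bound h1 h2
      have e3 : 2 ^ μ n ≤ z + 2 := by rw [h6]; unfold cd; rw [← hn]; omega
      have e4 : a ≤ z + 2 := by
        have : a * 1 ≤ a * K := Nat.mul_le_mul_left a hμ.pos
        rw [h6]
        unfold cd rs
        rw [← hn]
        have := Nat.zero_le (n % K)
        omega
      have e5 : x < (z + 2) ^ (n₁ + 2 * K) := by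
        calc x < 2 ^ n + 2 ^ n := e1.2
          _ = 2 ^ (n + 1) := by ring
          _ ≤ 2 ^ (n₁ + K * (μ n + 1)) := Nat.pow_le_pow_right (by norm_num) e2
          _ = 2 ^ (n₁ + K) * (2 ^ μ n) ^ K := by rw [← pow_mul, ← pow_add]; congr 1; ring
          _ ≤ (z + 2) ^ (n₁ + K) * (z + 2) ^ K := Nat.mul_le_mul (Nat.pow_le_pow_left (by omega) _)
              (Nat.pow_le_pow_left e3 _)
          _ = (z + 2) ^ (n₁ + 2 * K) := by rw [← pow_add]; congr 1; ring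
      have e6 : z + 2 ≤ (z + 2) ^ (n₁ + 2 * K) := Nat.le_self_pow (by have := hμ.pos; omega) _
      have e7 : max a x + 1 ≤ (z + 2) ^ (n₁ + 2 * K + 2) := by
        have e8 := pw2 z (n₁ + 2 * K)
        have e9 : (z + 2) ^ (n₁ + 2 * K + 1) ≤ (z + 2) ^ (n₁ + 2 * K + 2) := pw (by omega)
        have := pw1 z (n₁ + 2 * K)
        omega
      calc Nat.pair a x < (max a x + 1) ^ 2 := Nat.pair_lt_max_add_one_sq a x
        _ ≤ ((z + 2) ^ (n₁ + 2 * K + 2)) ^ 2 := Nat.pow_le_pow_left e7 2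
        _ = _ := by rw [← pow_mul]; congr 1; ring
    · rw [Nat.unpair_pair]
      exact ⟨(Nat.le_log_iff_pow_le (by norm_num) h0.ne').1 h2, h3, h4, h5, h6⟩

theorem pf_G : T_G := by
  intro A μ K n₀ hμ hb hA S hS
  obtain ⟨n₁, h1⟩ := hμ.inc
  obtain ⟨X, hX, α, hα, h⟩ := hA S hS
  obtain ⟨X', hX', β, hβ, h'⟩ := hA _ (bad_isSpectrum hμ n₁ hS hX)
  set M := 2 ^ (n₀ + n₁) with hM
  refine ⟨{u | 0 < u ∧ (((Nat.unpair u).2 ∈ {u | 0 < u ∧ (u < M ∧ u ∈ posCompl S)}) ∨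
    (M ≤ (Nat.unpair u).2 ∧ ∃ a, a < 2 ^ Nat.log 2 (Nat.unpair u).2 ∧
      (rs K a (Nat.unpair u).2 < 2 ^ μ (Nat.log 2 (Nat.unpair u).2) ∧
        Nat.pair a (Nat.unpair u).2 ∈ X ∧
        Nat.pair (Nat.unpair u).1 (cd μ K a (Nat.unpair u).2) ∈ X')))}, ?_, fun n => β (μ n),
    fun n => hβ _, fun x hx => ?_⟩
  · refine RL.isSpectrum ((RL.mem (fin_isSpectrum _ _) GR.id.snd).or ((RL.le (GR.num _)
      GR.id.snd).and (RL.ex (R := fun a u => rs K a (Nat.unpair u).2 <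
        2 ^ μ (Nat.log 2 (Nat.unpair u).2) ∧ Nat.pair a (Nat.unpair u).2 ∈ X ∧
        Nat.pair (Nat.unpair u).1 (cd μ K a (Nat.unpair u).2) ∈ X') ?_ GR.id.snd.powlog)))
    exact (RL.lt (GR.id.fst.rs GR.id.snd.snd) (GR.mulog hμ.le hμ.sp GR.id.snd.snd)).and
      ((RL.mem hX (GR.id.fst.pair GR.id.snd.snd)).and
        (RL.mem hX' (GR.id.snd.fst.pair (GR.cd hμ GR.id.fst GR.id.snd.snd))))
  · simp only [Set.mem_ofPred_eq, Nat.unpair_pair, pair_pos hx, true_and]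
    rcases Nat.lt_or_ge x M with hxM | hxM
    · constructor
      · intro h2
        exact Or.inl ⟨hx, hxM, h2⟩
      · rintro (⟨_, _, h2⟩ | ⟨h2, _⟩)
        · exact h2
        · omega
    · have hlog : n₀ + n₁ ≤ Nat.log 2 x := (Nat.le_log_iff_pow_le (by norm_num) hx.ne').2 hxM
      constructor
      · intro h2
        right
        have ha := hα (Nat.log 2 x)
        have h3 : rs K (α (Nat.log 2 x)) x < 2 ^ μ (Nat.log 2 x) := by
          have h4 := hb (Nat.log 2 x) (by omega)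
          have h5 := Nat.mod_lt (Nat.log 2 x) hμ.pos
          have h6 : K * (α (Nat.log 2 x) + 1) ≤ K * A (Nat.log 2 x) := Nat.mul_le_mul_left K ha
          unfold rs
          rw [mul_add, mul_one, mul_comm] at h6
          omega
        have h4 : α (Nat.log 2 x) < 2 ^ Nat.log 2 x := by
          have h5 : 2 ^ μ (Nat.log 2 x) ≤ 2 ^ Nat.log 2 x :=
            Nat.pow_le_pow_right (by norm_num) (hμ.le _)
          have h6 : α (Nat.log 2 x) * 1 ≤ α (Nat.log 2 x) * K := Nat.mul_le_mul_left _ hμ.pos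
          unfold rs at h3
          omega
        refine ⟨hxM, α (Nat.log 2 x), h4, h3, (h x hx).1 h2, ?_⟩
        have hz : 0 < cd μ K (α (Nat.log 2 x)) x := by
          unfold cd
          have := Nat.two_pow_pos (μ (Nat.log 2 x))
          omega
        have h5 := (h' _ hz).1 ⟨hz, fun h6 => ?_⟩
        · rwa [show Nat.log 2 (cd μ K (α (Nat.log 2 x)) x) = μ (Nat.log 2 x) from log_code h3] at h5
        · obtain ⟨a', x', g1, g0, g2, g3, g4, g5⟩ := (mem_bad hμ h1).1 h6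
          obtain ⟨e1, e2⟩ := cd_inj hμ h1 (by omega : n₁ ≤ Nat.log 2 x) g1 h3 g4 g5
          rw [← e1, e2] at g3
          exact ((h x' g0).2 g3).2 g2
      · rintro (⟨_, h2, _⟩ | ⟨_, a, _, h3, h4, h5⟩)
        · omega
        · refine ⟨hx, fun hxS => ?_⟩
          have hz : 0 < cd μ K a x := by
            unfold cd
            have := Nat.two_pow_pos (μ (Nat.log 2 x))
            omega
          have h6 := h' _ hz
          rw [show Nat.log 2 (cd μ K a x) = μ (Nat.log 2 x) from log_code h3] at h6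
          exact (h6.2 h5).2 ((mem_bad hμ h1).2 ⟨a, x, by omega, hx, hxS, h4, h3, rfl⟩)

end Pool.Agent.H76.ADV
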