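import Pool.Agent.H76.ADV.Law3

/-!
# NE with advice: padding
-/

set_option autoImplicit false

namespace Pool.Agent.H76.ADV

open Pool.Agent.H69.Sp Pool.Agent.H69.Mt Pool.Agent.H8.JS Classical

/-- the padded length -/
def pl (C n : ℕ) : ℕ := C * (n / (C + 1))

theorem pl_le (C n : ℕ) : pl C n ≤ n := by
  unfold pl
  calc C * (n / (C + 1)) ≤ (C + 1) * (n / (C + 1)) := Nat.mul_le_mul_right _ (by omega)
    _ ≤ n := Nat.mul_div_le n (C + 1)

theorem pl_mul (C k : ℕ) : pl C ((C + 1) * k) = C * k := by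
  unfold pl
  rw [Nat.mul_div_cancel_left _ (by omega)]

theorem GR.pl (C : ℕ) {f : ℕ → ℕ} (hf : GR f) : GR (fun u => 2 ^ pl C (Nat.log 2 (f u))) :=
  GR.mulog (pl_le C) (sp_code ((GR.num C).mul (GR.id.div (GR.num (C + 1)))) (pl_le C)) hf

/-- `2 ^ (C log x)` -/
theorem GR.pc (C : ℕ) {f : ℕ → ℕ} (hf : GR f) : GR (fun u => (2 ^ Nat.log 2 (f u)) ^ C) :=
  hf.powlog.npow C

theorem log_pad {C x y : ℕ} (hx : 0 < x) (hy : y < 2 ^ (C * Nat.log 2 x)) :
    Nat.log 2 (x * 2 ^ (C * Nat.log 2 x) + y) = (C + 1) * Nat.log 2 x := by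
  set n := Nat.log 2 x with hn
  have h1 := (log_iff hx.ne').1 hn
  have h2 : 0 < 2 ^ (C * n) := Nat.two_pow_pos _
  have h3 : 2 ^ ((C + 1) * n) = 2 ^ n * 2 ^ (C * n) := by rw [← pow_add]; congr 1; ring
  have h4 : 2 ^ n * 2 ^ (C * n) ≤ x * 2 ^ (C * n) := Nat.mul_le_mul_right _ h1.1
  have h5 : (x + 1) * 2 ^ (C * n) ≤ (2 ^ n + 2 ^ n) * 2 ^ (C * n) := Nat.mul_le_mul_right _ h1.2
  rw [add_mul, add_mul, one_mul] at h5
  have h6 : 0 < x * 2 ^ (C * n) := Nat.mul_pos hx h2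
  exact ((log_iff (by omega)).2 ⟨by omega, by omega⟩).symm

theorem pf_P : T_P := by
  intro C hyp S hS
  have hS' : IsSpectrum {z | 0 < z ∧ z / 2 ^ pl C (Nat.log 2 z) ∈ S} :=
    RL.isSpectrum (RL.mem hS (GR.id.div (GR.pl C GR.id)))
  obtain ⟨T, hT, herr0⟩ := hyp _ hS'
  obtain ⟨n₀, herr⟩ := Filter.eventually_atTop.1 herr0
  set S' := {z | 0 < z ∧ z / 2 ^ pl C (Nat.log 2 z) ∈ S} with hS'def
  set M := 2 ^ n₀ with hM
  have hB : IsSpectrum {x | 0 < x ∧ ((x ∈ {u | 0 < u ∧ (u < M ∧ u ∈ posCompl S)}) ∨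
      (M ≤ x ∧ ((2 ^ Nat.log 2 x) ^ C + 1) / 2 ≤ Set.ncard {y | y < (2 ^ Nat.log 2 x) ^ C ∧
        x * (2 ^ Nat.log 2 x) ^ C + y ∈ T}))} := by
    refine RL.isSpectrum ((RL.mem (fin_isSpectrum _ _) GR.id).or ((RL.le (GR.num _) GR.id).and
      (RL.card (R := fun y x => x * (2 ^ Nat.log 2 x) ^ C + y ∈ T) ?_
        (((GR.pc C GR.id).add (GR.num 1)).div (GR.num 2)) (GR.pc C GR.id))))
    exact RL.mem hT ((GR.id.snd.mul (GR.pc C GR.id.snd)).add GR.id.fst)
  convert hB using 1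
  ext x
  rcases Nat.eq_zero_or_pos x with rfl | hx
  · constructor
    · intro h
      exact absurd h.1 (lt_irrefl 0)
    · intro h
      exact absurd h.1 (lt_irrefl 0)
  set n := Nat.log 2 x with hn
  have epow : (2 ^ n) ^ C = 2 ^ (C * n) := by rw [← pow_mul, mul_comm]
  set P := 2 ^ (C * n) with hP
  simp only [Set.mem_ofPred_eq, ← hn, epow]
  rcases Nat.lt_or_ge x M with hxM | hxM
  · constructor
    · intro h2
      exact ⟨hx, Or.inl ⟨hx, hxM, h2⟩⟩
    · rintro ⟨_, ⟨_, _, h2⟩ | ⟨h2, _⟩⟩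
      · exact h2
      · omega
  · have hlog : n₀ ≤ n := (Nat.le_log_iff_pow_le (by norm_num) hx.ne').2 hxM
    have h1 := herr n hlog
    have hPpos : 0 < P := Nat.two_pow_pos _
    have hxn := (log_iff hx.ne').1 hn
    -- membership
    have hmem : ∀ y < P, (x * P + y ∈ S' ↔ x ∈ S) := by
      intro y hy
      have h2 : Nat.log 2 (x * P + y) = (C + 1) * n := log_pad hx hy
      have h3 : 0 < x * P := Nat.mul_pos hx hPpos
      show 0 < x * P + y ∧ (x * P + y) / 2 ^ pl C (Nat.log 2 (x * P + y)) ∈ S ↔ x ∈ S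
      rw [h2, pl_mul, ← hP, mul_comm x P, Nat.mul_add_div hPpos, Nat.div_eq_of_lt hy, add_zero]
      exact ⟨fun h => h.2, fun h => ⟨by rw [mul_comm]; omega, h⟩⟩
    have hrange : ∀ y < P, 2 ^ ((C + 1) * n) ≤ x * P + y ∧ x * P + y < 2 ^ ((C + 1) * n + 1) := by
      intro y hy
      have h2 : Nat.log 2 (x * P + y) = (C + 1) * n := log_pad hx hy
      have h3 : 0 < x * P := Nat.mul_pos hx hPpos
      have h4 := (log_iff (show x * P + y ≠ 0 by omega)).1 h2.symm
      rw [pow_succ]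
      omega
    have hfin : {z | (2 ^ ((C + 1) * n) ≤ z ∧ z < 2 ^ ((C + 1) * n + 1)) ∧
        ¬ (z ∈ T ↔ z ∈ posCompl S')}.Finite :=
      (Set.finite_Iio (2 ^ ((C + 1) * n + 1))).subset fun t ht => ht.1.2
    have hinj : Function.Injective fun y => x * P + y := fun a b h => by
      have : x * P + a = x * P + b := h
      omega
    have hpos : ∀ y < P, 0 < x * P + y := fun y _ => by
      have h3 : 0 < x * P := Nat.mul_pos hx hPpos
      omega
    by_cases hxS : x ∈ S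
    · -- all pairs are in S'
      have h2 : Set.ncard {y | y < P ∧ x * P + y ∈ T} ≤ er T (posCompl S') ((C + 1) * n) := by
        rw [← Set.ncard_image_of_injective _ hinj]
        refine Set.ncard_le_ncard ?_ hfin
        rintro _ ⟨y, ⟨hy, hyT⟩, rfl⟩
        refine ⟨hrange y hy, fun h3 => ?_⟩
        exact (h3.1 hyT).2 ((hmem y hy).2 hxS)
      constructor
      · intro h
        exact absurd hxS h.2
      · rintro ⟨_, ⟨_, _, h3⟩ | ⟨_, h3⟩⟩
        · exact absurd hxS h3.2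
        · exfalso
          omega
    · have h2 : Set.ncard {y | y < P ∧ x * P + y ∉ T} ≤ er T (posCompl S') ((C + 1) * n) := by
        rw [← Set.ncard_image_of_injective _ hinj]
        refine Set.ncard_le_ncard ?_ hfin
        rintro _ ⟨y, ⟨hy, hyT⟩, rfl⟩
        refine ⟨hrange y hy, fun h3 => ?_⟩
        exact hyT (h3.2 ⟨hpos y hy, fun h4 => hxS ((hmem y hy).1 h4)⟩)
      have h3 : Set.ncard {y | y < P ∧ x * P + y ∈ T} + Set.ncard {y | y < P ∧ x * P + y ∉ T} = P := by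
        rw [← Set.ncard_union_eq ?_ ((Set.finite_Iio P).subset fun t ht => ht.1)
          ((Set.finite_Iio P).subset fun t ht => ht.1)]
        · have : {y | y < P ∧ x * P + y ∈ T} ∪ {y | y < P ∧ x * P + y ∉ T} = (Finset.range P : Set ℕ) := by
            ext y
            by_cases h5 : x * P + y ∈ T <;> simp [h5]
          rw [this, Set.ncard_coe_finset, Finset.card_range]
        · rw [Set.disjoint_left]
          rintro y ⟨_, h4⟩ ⟨_, h5⟩
          exact h5 h4
      constructor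
      · intro _
        exact ⟨hx, Or.inr ⟨hxM, by omega⟩⟩
      · intro _
        exact ⟨hx, hxS⟩

end Pool.Agent.H76.ADV
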