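import Pool.Agent.H76.ADV.Law4

/-!
# NE with advice: near the threshold, sublinear advice, average case
-/

set_option autoImplicit false

namespace Pool.Agent.H76.ADV

open Pool.Agent.H69.Sp Pool.Agent.H69.Mt Pool.Agent.H8.JS Filter

theorem mu_sub_one : Mu (fun n => n - 1) 1 := by
  have h := pf_MU 1 1 1 (by norm_num) (by norm_num)
  simpa using h

theorem mu_div {C : ℕ} (hC : 0 < C) : Mu (fun n => n / C) C := by
  have h := pf_MU 1 C 0 (by norm_num) hC
  simpa using h

theorem pf_N1 : T_N1 := by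
  intro h
  have key : ∀ k, 1 ≤ k → CA fun n => 2 ^ (n - k) := by
    intro k hk
    induction k, hk using Nat.le_induction with
    | base => exact h
    | succ k hk ih =>
      have h1 := pf_G (fun n => 2 ^ (n - k)) (fun n => n - 1) 1 0 mu_sub_one (fun n _ => by
        rw [one_mul]
        exact Nat.pow_le_pow_right (by norm_num) (by omega)) ih
      have e : (fun n => 2 ^ (n - 1 - k)) = fun n => 2 ^ (n - (k + 1)) := by
        funext n
        congr 1
        omega
      rw [← e]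
      exact h1
  intro k
  rcases Nat.eq_zero_or_pos k with rfl | hk
  · exact pf_MO (fun n => 2 ^ (n - 1)) _ 0 (fun n => Nat.two_pow_pos _)
      (fun n _ => Nat.pow_le_pow_right (by norm_num) (by omega)) h
  · exact key k hk

theorem pf_N2 : T_N2 := by
  intro h
  refine pf_N1 ?_
  have h1 := pf_E (fun _ => 1) (fun n => n - 1) mu_sub_one.le mu_sub_one.sp (fun S hS => by
    obtain ⟨T, hT, herr⟩ := h S hS
    refine ⟨T, pf_IN _ T (fun _ => Nat.one_pos) hT, ?_⟩
    filter_upwards [herr, eventually_ge_atTop 1] with n hn hn1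
    have e : 2 ^ n = 2 * 2 ^ (n - 1) := by
      rw [← pow_succ']
      congr 1
      omega
    omega)
  simpa using h1

theorem pf_SL : T_SL := by
  intro A hA h C hC
  have hC' : (0 : ℝ) < C := by exact_mod_cast hC
  have h1 := hA (1 / (2 * C)) (by positivity)
  obtain ⟨n₀, h2⟩ := eventually_atTop.1 (h1.and (eventually_ge_atTop (4 * C ^ 2)))
  refine pf_G A (fun n => n / C) C n₀ (mu_div hC) (fun n hn => ?_) h
  obtain ⟨h3, h4⟩ := h2 n hn
  have hn' : (4 * (C : ℝ) ^ 2) ≤ n := by exact_mod_cast h4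
  have h5 : (C : ℝ) * A n ≤ 2 ^ (n / C) := by
    have h6 : 2 * (C : ℝ) ≤ (2 : ℝ) ^ (1 / (2 * C) * (n : ℝ)) := by
      have h7 : (2 * C : ℝ) ≤ 1 / (2 * C) * (n : ℝ) := by
        rw [div_mul_eq_mul_div, one_mul, le_div_iff₀ (by positivity)]
        nlinarith
      calc 2 * (C : ℝ) ≤ (2 : ℝ) ^ (2 * C : ℕ) := by
            exact_mod_cast (Nat.lt_two_pow_self (n := 2 * C)).le
        _ = (2 : ℝ) ^ (2 * C : ℝ) := by
            rw [← Real.rpow_natCast]
            push_cast
            rfl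
        _ ≤ _ := Real.rpow_le_rpow_of_exponent_le (by norm_num) h7
    have h8 : (n : ℝ) / C ≤ ((n / C : ℕ) : ℝ) + 1 := by
      rw [div_le_iff₀ hC']
      have h9 : n < C * (n / C + 1) := Nat.lt_mul_div_succ n hC
      have h10 : (n : ℝ) ≤ C * ((n / C : ℕ) + 1) := by exact_mod_cast h9.le
      linarith
    have h11 : (2 : ℝ) ^ (1 / (2 * C) * (n : ℝ)) * (2 : ℝ) ^ (1 / (2 * C) * (n : ℝ)) ≤
        2 * 2 ^ (n / C) := by
      rw [← Real.rpow_add (by norm_num)]
      calc (2 : ℝ) ^ (1 / (2 * (C : ℝ)) * (n : ℝ) + 1 / (2 * C) * (n : ℝ))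
          ≤ (2 : ℝ) ^ (((n / C : ℕ) : ℝ) + 1) := by
            refine Real.rpow_le_rpow_of_exponent_le (by norm_num) (le_trans (le_of_eq ?_) h8)
            field_simp
            ring
        _ = 2 * 2 ^ (n / C) := by
            rw [Real.rpow_add (by norm_num), Real.rpow_one, Real.rpow_natCast]
            ring
    set w := (2 : ℝ) ^ (1 / (2 * C) * (n : ℝ)) with hw
    have hw0 : 0 < w := by positivity
    have h12 : (A n : ℝ) ≤ w := h3
    have h13 : 2 * (C : ℝ) * w ≤ w * w := by nlinarith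
    nlinarith
  exact_mod_cast h5

theorem pf_AV : T_AV := by
  intro β hβ h
  -- `C` with `β (C + 1) < C`
  obtain ⟨C, hC⟩ := exists_nat_gt (β / (1 - β))
  have h1 : β < C * (1 - β) := (div_lt_iff₀ (by linarith)).1 hC
  refine pf_P C fun S hS => ?_
  obtain ⟨T, hT, herr⟩ := h S hS
  refine ⟨T, hT, ?_⟩
  have h2 : Tendsto (fun k : ℕ => (C + 1) * k) atTop atTop :=
    tendsto_id.const_mul_atTop' (by omega)
  set γ : ℝ := C - β * (C + 1) with hγ
  have hγ0 : 0 < γ := by rw [hγ]; nlinarith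
  obtain ⟨k₀, hk₀⟩ := exists_nat_gt (1 / γ)
  filter_upwards [h2.eventually herr, eventually_ge_atTop k₀] with k hk hk1
  have h3 : 1 < γ * k := by
    have h4 : (k₀ : ℝ) ≤ k := by exact_mod_cast hk1
    have h5 := (div_lt_iff₀ hγ0).1 hk₀
    nlinarith
  have h6 : 2 * (2 : ℝ) ^ (β * ((C + 1) * k : ℕ)) < 2 ^ (C * k) := by
    calc 2 * (2 : ℝ) ^ (β * ((C + 1) * k : ℕ)) = (2 : ℝ) ^ (1 + β * ((C + 1) * k : ℕ)) := by
          rw [Real.rpow_add (by norm_num), Real.rpow_one]
      _ < (2 : ℝ) ^ ((C * k : ℕ) : ℝ) := by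
          refine Real.rpow_lt_rpow_of_exponent_lt (by norm_num) ?_
          push_cast
          rw [hγ] at h3
          nlinarith
      _ = 2 ^ (C * k) := Real.rpow_natCast _ _
  have h7 : (2 : ℝ) * er T (posCompl S) ((C + 1) * k) < 2 ^ (C * k) := by linarith
  exact_mod_cast h7

end Pool.Agent.H76.ADV
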