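import Pool.Agent.H76.ADV.Law5

/-!
# NE with advice: counting the advice values exactly
-/

set_option autoImplicit false

namespace Pool.Agent.H76.ADV

open Pool.Agent.H69.Sp Pool.Agent.H69.Mt Pool.Agent.H1.VR Pool.Agent.H8.VR Pool.Agent.H8.JS Classical

/-- computable bounds for the number of the advice values -/
structure Cmp (w : ℕ → ℕ) : Prop where
  le : ∀ n, w n ≤ 2 ^ n
  sp : IsSpectrum {z | ∃ n, z = 2 ^ (n + 1) + w n}

theorem code_inj2 {w : ℕ → ℕ} (hw : ∀ n, w n ≤ 2 ^ n) {n n' y : ℕ} (hy : y < 2 ^ (n + 1))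
    (h : 2 ^ (n + 1) + y = 2 ^ (n' + 1) + w n') : y = w n := by
  have h1 : w n' < 2 ^ (n' + 1) := lt_of_le_of_lt (hw n') (by
    have := Nat.two_pow_pos n'
    rw [pow_succ]
    omega)
  have h2 := log_code hy
  have h3 := log_code h1
  rw [h, h3] at h2
  have h4 : n' = n := by omega
  subst h4
  omega

theorem GR.w {w : ℕ → ℕ} (hw : Cmp w) {f : ℕ → ℕ} (hf : GR f) :
    GR (fun u => w (Nat.log 2 (f u))) := by
  have hg : GR (fun u => 2 * 2 ^ Nat.log 2 (f u)) := (GR.num 2).mul hf.powlog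
  obtain ⟨c, P, hP, p1, p2, p3⟩ := hg
  refine ⟨c + 1, fun N u y => ∃ e : Fin 2 → ℕ, Lt N e ∧ P N u (e 0) ∧ (y < e 0 ∧ e 0 + y = e 1) ∧
    e 1 ∈ {z | ∃ n, z = 2 ^ (n + 1) + w n}, ?_, ?_, ?_, ?_⟩
  · exact EK.ex (κ := Fin 2) (α := Fin 2) (P := fun N v => P N (v (Sum.inl 0)) (v (Sum.inr 0)) ∧
      (v (Sum.inl 1) < v (Sum.inr 0) ∧ v (Sum.inr 0) + v (Sum.inl 1) = v (Sum.inr 1)) ∧
      v (Sum.inr 1) ∈ {z | ∃ n, z = 2 ^ (n + 1) + w n})
      (EK.and (hP.sub ![Sum.inl 0, Sum.inr 0]) (EK.and (EK.of (FV.and (FV.lt _ _)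
        (FV.add _ _ _))) (EK.mem hw.sp _)))
  · rintro N u y ⟨e, _, e1, ⟨e2, e3⟩, n, e4⟩
    have e5 := p1 _ _ _ e1
    have e6 : e 0 = 2 ^ (Nat.log 2 (f u) + 1) := by rw [e5, pow_succ]; ring
    rw [e6] at e2 e3
    exact code_inj2 hw.le e2 (e3.trans e4)
  · intro u
    have h1 := hw.le (Nat.log 2 (f u))
    have h2 : 2 * 2 ^ Nat.log 2 (f u) ≤ (u + 2) ^ c := p2 u
    have h3 := pw (u := u) (show c ≤ c + 1 by omega)
    show w (Nat.log 2 (f u)) ≤ _
    omega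
  · intro N u hN
    have h1 : (u + 2) ^ c < N := lt_of_le_of_lt (pw (by omega)) hN
    have h3 := pw2 u c
    have h4 : 2 * 2 ^ Nat.log 2 (f u) ≤ (u + 2) ^ c := p2 u
    have h5 := hw.le (Nat.log 2 (f u))
    have h6 := Nat.two_pow_pos (Nat.log 2 (f u))
    refine ⟨![2 * 2 ^ Nat.log 2 (f u), 2 * 2 ^ Nat.log 2 (f u) + w (Nat.log 2 (f u))],
      fun i => ?_, p3 N u h1, ⟨?_, rfl⟩, Nat.log 2 (f u), ?_⟩
    · fin_cases i
      · show 2 * 2 ^ Nat.log 2 (f u) < N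
        omega
      · show 2 * 2 ^ Nat.log 2 (f u) + w (Nat.log 2 (f u)) < N
        omega
    · show w (Nat.log 2 (f u)) < 2 * 2 ^ Nat.log 2 (f u)
      omega
    · show 2 * 2 ^ Nat.log 2 (f u) + w (Nat.log 2 (f u)) = _
      rw [pow_succ]
      ring

/-- functions of `2 ^ n` -/
theorem cmp_of {g : ℕ → ℕ} (hg : GR g) (hle : ∀ n, g (2 ^ n) ≤ 2 ^ n) : Cmp (fun n => g (2 ^ n)) := by
  refine ⟨hle, ?_⟩
  have h : RL fun z => 2 ≤ z ∧ z = 2 ^ Nat.log 2 z + g (2 ^ Nat.log 2 z / 2) :=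
    (RL.le (GR.num 2) GR.id).and (RL.eq GR.id (GR.id.powlog.add
      (hg.comp (GR.id.powlog.div (GR.num 2)))))
  convert h.isSpectrum using 1
  have e : ∀ n, 2 ^ (n + 1) / 2 = 2 ^ n := fun n => by rw [pow_succ]; omega
  ext z
  constructor
  · rintro ⟨n, rfl⟩
    have h1 : g (2 ^ n) < 2 ^ (n + 1) := lt_of_le_of_lt (hle n) (by
      have := Nat.two_pow_pos n
      rw [pow_succ]
      omega)
    have h2 := Nat.two_pow_pos n
    have h3 : 2 ^ (n + 1) = 2 * 2 ^ n := by ring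
    refine ⟨by omega, by omega, ?_⟩
    rw [log_code h1, e]
  · rintro ⟨_, h1, h2⟩
    obtain ⟨m, hm⟩ : ∃ m, Nat.log 2 z = m + 1 := ⟨Nat.log 2 z - 1, by
      have := Nat.log_pos (b := 2) (by norm_num) h1
      omega⟩
    rw [hm, e] at h2
    exact ⟨m, h2⟩

/-- errors cost advice -/
theorem pf_E2 (A w : ℕ → ℕ) (hw : Cmp w) (hw0 : ∀ n, 0 < w n)
    (hyp : ∀ S, IsSpectrum S → ∃ T, SA A T ∧ ∀ᶠ n in Filter.atTop,
      2 * er T (posCompl S) n < w n) : CA fun n => A n * w n := by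
  intro S hS
  obtain ⟨T, ⟨X, hX, α, hα, hT⟩, herr0⟩ := hyp S hS
  obtain ⟨n₀, herr⟩ := Filter.eventually_atTop.1 herr0
  set M := 2 ^ n₀ with hM
  -- the threshold
  have hgr : ∀ {f g : ℕ → ℕ}, GR f → GR g → GR fun u =>
      2 ^ Nat.log 2 (g u) + f u % w (Nat.log 2 (g u)) - w (Nat.log 2 (g u)) / 2 :=
    fun hf hg => (hg.powlog.add (hf.mod (GR.w hw hg))).sub ((GR.w hw hg).div (GR.num 2))
  refine ⟨{u | 0 < u ∧ (((Nat.unpair u).2 ∈ {u | 0 < u ∧ (u < M ∧ u ∈ posCompl S)}) ∨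
    (M ≤ (Nat.unpair u).2 ∧ 2 ^ Nat.log 2 (Nat.unpair u).2 +
      (Nat.unpair u).1 % w (Nat.log 2 (Nat.unpair u).2) -
        w (Nat.log 2 (Nat.unpair u).2) / 2 ≤
      Set.ncard {y | y < 4 * 2 ^ Nat.log 2 (Nat.unpair u).2 ∧
        (2 ^ Nat.log 2 (Nat.unpair u).2 ≤ y / 2 ∧ ((y % 2 = 0 ∧ (y / 2 ∈ S ∧
          y / 2 ≠ (Nat.unpair u).2)) ∨ (y % 2 = 1 ∧
            Nat.pair ((Nat.unpair u).1 / w (Nat.log 2 (Nat.unpair u).2)) (y / 2) ∈ X)))}))},
    ?_, fun n => α n * w n + if n₀ ≤ n then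
      (Set.ncard {x | (2 ^ n ≤ x ∧ x < 2 ^ (n + 1)) ∧ x ∈ S} +
        Set.ncard {x | (2 ^ n ≤ x ∧ x < 2 ^ (n + 1)) ∧ x ∈ T} + w n / 2 - 2 ^ n) else 0,
    fun n => ?_, fun x hx => ?_⟩
  · refine RL.isSpectrum ((RL.mem (fin_isSpectrum _ _) GR.id.snd).or ((RL.le (GR.num _)
      GR.id.snd).and (RL.card (R := fun y u => 2 ^ Nat.log 2 (Nat.unpair u).2 ≤ y / 2 ∧
        ((y % 2 = 0 ∧ (y / 2 ∈ S ∧ y / 2 ≠ (Nat.unpair u).2)) ∨ (y % 2 = 1 ∧
            Nat.pair ((Nat.unpair u).1 / w (Nat.log 2 (Nat.unpair u).2)) (y / 2) ∈ X))) ?_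
        (hgr GR.id.fst GR.id.snd) ((GR.num 4).mul GR.id.snd.powlog))))
    refine (RL.le GR.id.snd.snd.powlog (GR.id.fst.div (GR.num 2))).and (RL.or ?_ ?_)
    · exact (RL.eq (GR.id.fst.mod (GR.num 2)) (GR.num 0)).and
        ((RL.mem hS (GR.id.fst.div (GR.num 2))).and (RL.ne (GR.id.fst.div (GR.num 2)) GR.id.snd.snd))
    · exact (RL.eq (GR.id.fst.mod (GR.num 2)) (GR.num 1)).and
        (RL.mem hX ((GR.id.snd.fst.div (GR.w hw GR.id.snd.snd)).pair
          (GR.id.fst.div (GR.num 2))))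
  · show α n * w n + (if n₀ ≤ n then _ else 0) < A n * w n
    have h1 : (α n + 1) * w n ≤ A n * w n := Nat.mul_le_mul_right _ (hα n)
    rw [add_mul, one_mul] at h1
    have h2 := hw0 n
    split_ifs with h3
    · have h4 := cen_le T S n
      have h5 := herr n h3
      omega
    · omega
  · simp only [Set.mem_ofPred_eq, Nat.unpair_pair, pair_pos hx, true_and]
    set n := Nat.log 2 x with hn
    rcases Nat.lt_or_ge x M with hxM | hxM
    · constructor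
      · intro h2
        exact Or.inl ⟨hx, hxM, h2⟩
      · rintro (⟨_, _, h2⟩ | ⟨h2, _⟩)
        · exact h2
        · omega
    · have hlog : n₀ ≤ n := (Nat.le_log_iff_pow_le (by norm_num) hx.ne').2 hxM
      have hxn : 2 ^ n ≤ x ∧ x < 2 ^ (n + 1) := by
        have := (log_iff hx.ne').1 hn
        rw [pow_succ]
        omega
      rw [if_pos hlog]
      set s := Set.ncard {x | (2 ^ n ≤ x ∧ x < 2 ^ (n + 1)) ∧ x ∈ S} with hs'
      set t := Set.ncard {x | (2 ^ n ≤ x ∧ x < 2 ^ (n + 1)) ∧ x ∈ T} with ht'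
      have h4 := cen_le T S n
      have h5 := herr n hlog
      have hW := hw0 n
      have h6 : s + t + w n / 2 - 2 ^ n < w n := by omega
      have e1 : (α n * w n + (s + t + w n / 2 - 2 ^ n)) % w n =
          s + t + w n / 2 - 2 ^ n := by
        rw [mul_comm, Nat.mul_add_mod, Nat.mod_eq_of_lt h6]
      have e2 : (α n * w n + (s + t + w n / 2 - 2 ^ n)) / w n = α n := by
        rw [mul_comm, Nat.mul_add_div hW, Nat.div_eq_of_lt h6, add_zero]
      rw [e1, e2]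
      have e3 : 2 ^ n + (s + t + w n / 2 - 2 ^ n) - w n / 2 = s + t := by omega
      rw [e3, card_evod n (fun y => y ∈ S ∧ y ≠ x) (fun y => Nat.pair (α n) y ∈ X)]
      have e4 : Set.ncard {y | (2 ^ n ≤ y ∧ y < 2 ^ (n + 1)) ∧ Nat.pair (α n) y ∈ X} = t := by
        rw [ht']
        congr 1
        ext y
        refine and_congr_right fun hy => ?_
        have hy0 : 0 < y := lt_of_lt_of_le (Nat.two_pow_pos n) hy.1
        have h7 := hT y hy0
        rw [show Nat.log 2 y = n from ((log_iff hy0.ne').2 ⟨hy.1, by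
          have := hy.2
          rw [pow_succ] at this
          omega⟩).symm] at h7
        exact h7.symm
      rw [e4]
      obtain ⟨h7, h8⟩ := card_drop n S hxn
      constructor
      · intro h9
        right
        refine ⟨hxM, ?_⟩
        rw [h7 h9.2]
      · rintro (⟨_, h9, _⟩ | ⟨_, h9⟩)
        · omega
        · refine ⟨hx, fun h10 => ?_⟩
          have := h8 h10
          omega

/-- the length `n - 1`, for the small values of the advice only -/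
theorem pf_H (A : ℕ → ℕ) (hA : Cmp A) (h : CA A) :
    CA fun n => A (n - 1) + (A n - 2 ^ (n - 1)) := by
  intro S hS
  obtain ⟨X, hX, α, hα, hα2⟩ := h S hS
  have hBad : IsSpectrum {z | 0 < z ∧ ∃ x, x < 4 * z ∧ (2 * 2 ^ Nat.log 2 z ≤ x ∧
      x < 4 * 2 ^ Nat.log 2 z ∧ x ∈ S ∧ Nat.pair (z - 2 ^ Nat.log 2 z) x ∈ X)} := by
    refine RL.isSpectrum (RL.ex (R := fun x z => 2 * 2 ^ Nat.log 2 z ≤ x ∧
      x < 4 * 2 ^ Nat.log 2 z ∧ x ∈ S ∧ Nat.pair (z - 2 ^ Nat.log 2 z) x ∈ X) ?_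
      ((GR.num 4).mul GR.id))
    exact (RL.le ((GR.num 2).mul GR.id.snd.powlog) GR.id.fst).and
      ((RL.lt GR.id.fst ((GR.num 4).mul GR.id.snd.powlog)).and ((RL.mem hS GR.id.fst).and
        (RL.mem hX ((GR.id.snd.sub GR.id.snd.powlog).pair GR.id.fst))))
  set Bd := {z | 0 < z ∧ ∃ x, x < 4 * z ∧ (2 * 2 ^ Nat.log 2 z ≤ x ∧
      x < 4 * 2 ^ Nat.log 2 z ∧ x ∈ S ∧ Nat.pair (z - 2 ^ Nat.log 2 z) x ∈ X)} with hBd
  obtain ⟨X', hX', β, hβ, hβ2⟩ := h Bd hBad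
  have hA0 : ∀ n, 0 < A n := fun n => lt_of_le_of_lt (Nat.zero_le _) (hα n)
  refine ⟨{u | 0 < u ∧ (((Nat.unpair u).2 ∈ {u | 0 < u ∧ (u < 2 ∧ u ∈ posCompl S)}) ∨
    (2 ≤ (Nat.unpair u).2 ∧
      ((((Nat.unpair u).1 < A (Nat.log 2 ((Nat.unpair u).2 / 2))) ∧
        ∃ a, a < 2 ^ Nat.log 2 (Nat.unpair u).2 / 2 ∧ (Nat.pair a (Nat.unpair u).2 ∈ X ∧
          Nat.pair (Nat.unpair u).1 (2 ^ Nat.log 2 (Nat.unpair u).2 / 2 + a) ∈ X')) ∨
      (A (Nat.log 2 ((Nat.unpair u).2 / 2)) ≤ (Nat.unpair u).1 ∧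
        Nat.pair ((Nat.unpair u).1 - A (Nat.log 2 ((Nat.unpair u).2 / 2)) +
          2 ^ Nat.log 2 (Nat.unpair u).2 / 2) (Nat.unpair u).2 ∈ X))))}, ?_,
    fun n => if n = 0 then 0 else if α n < 2 ^ (n - 1) then β (n - 1) else
      A (n - 1) + (α n - 2 ^ (n - 1)), fun n => ?_, fun x hx => ?_⟩
  · have h2 : GR fun u => A (Nat.log 2 ((Nat.unpair u).2 / 2)) :=
      GR.w hA (GR.id.snd.div (GR.num 2))
    have h3 : GR fun u => 2 ^ Nat.log 2 (Nat.unpair u).2 / 2 := GR.id.snd.powlog.div (GR.num 2)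
    have h3' : GR fun u => 2 ^ Nat.log 2 (Nat.unpair (Nat.unpair u).2).2 / 2 :=
      GR.id.snd.snd.powlog.div (GR.num 2)
    refine RL.isSpectrum ((RL.mem (fin_isSpectrum _ _) GR.id.snd).or ((RL.le (GR.num _)
      GR.id.snd).and (RL.or ((RL.lt GR.id.fst h2).and (RL.ex (R := fun a u =>
        Nat.pair a (Nat.unpair u).2 ∈ X ∧ Nat.pair (Nat.unpair u).1
          (2 ^ Nat.log 2 (Nat.unpair u).2 / 2 + a) ∈ X') ?_ h3)) ((RL.le h2 GR.id.fst).and
            (RL.mem hX (((GR.id.fst.sub h2).add h3).pair GR.id.snd))))))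
    exact (RL.mem hX (GR.id.fst.pair GR.id.snd.snd)).and
      (RL.mem hX' (GR.id.snd.fst.pair (h3'.add GR.id.fst)))
  · show (if n = 0 then 0 else if α n < 2 ^ (n - 1) then β (n - 1) else
      A (n - 1) + (α n - 2 ^ (n - 1))) < A (n - 1) + (A n - 2 ^ (n - 1))
    have h1 := hα n
    have h2 := hβ (n - 1)
    have h3 := hA0 (n - 1)
    split_ifs with h4 h5 <;> omega
  · simp only [Set.mem_ofPred_eq, Nat.unpair_pair, pair_pos hx, true_and]
    rcases Nat.lt_or_ge x 2 with hx2 | hx2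
    · constructor
      · intro h2
        exact Or.inl ⟨hx, hx2, h2⟩
      · rintro (⟨_, _, h2⟩ | ⟨h2, _⟩)
        · exact h2
        · omega
    · obtain ⟨m, hm⟩ : ∃ m, Nat.log 2 x = m + 1 := ⟨Nat.log 2 x - 1, by
        have := Nat.log_pos (b := 2) (by norm_num) hx2
        omega⟩
      have e1 : Nat.log 2 (x / 2) = m := by
        rw [Nat.log_div_base, hm]
        omega
      have e2 : 2 ^ (m + 1) / 2 = 2 ^ m := by rw [pow_succ]; omega
      have hxn := (log_iff hx.ne').1 rfl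
      rw [hm] at hxn
      have e3 : 2 ^ (m + 1) = 2 * 2 ^ m := by ring
      rw [hm, e1, e2, Nat.add_sub_cancel, if_neg (by omega : ¬ m + 1 = 0)]
      have hsnd : ∀ b a, b < A m → a < 2 ^ m → (∀ z, Nat.log 2 z = m → 0 < z →
          (z ∈ posCompl Bd ↔ Nat.pair b z ∈ X')) → Nat.pair a x ∈ X →
          Nat.pair b (2 ^ m + a) ∈ X' → x ∉ S := by
        intro b a _ ha hb h3 h4 h5
        have h6 := log_code ha
        have h7 := (hb _ h6 (by have := Nat.two_pow_pos m; omega)).2 h4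
        refine h7.2 ⟨h7.1, x, ?_, ?_, ?_, h5, ?_⟩
        · omega
        · rw [h6]; omega
        · rw [h6]; omega
        · rw [h6, Nat.add_sub_cancel_left]
          exact h3
      have hb : ∀ z, Nat.log 2 z = m → 0 < z → (z ∈ posCompl Bd ↔ Nat.pair (β m) z ∈ X') := by
        intro z hz hz0
        have := hβ2 z hz0
        rwa [hz] at this
      have hx1 := hα2 x hx
      rw [hm] at hx1
      by_cases hsm : α (m + 1) < 2 ^ m
      · rw [if_pos hsm]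
        constructor
        · intro h2
          right
          refine ⟨hx2, Or.inl ⟨hβ m, α (m + 1), hsm, hx1.1 h2, ?_⟩⟩
          have h6 := log_code hsm
          refine (hb _ h6 (by have := Nat.two_pow_pos m; omega)).1
            ⟨by have := Nat.two_pow_pos m; omega, ?_⟩
          rintro ⟨_, y, _, h7, h8, h9, h10⟩
          rw [h6] at h7 h8 h10
          rw [Nat.add_sub_cancel_left] at h10
          have hy0 : 0 < y := by have := Nat.two_pow_pos m; omega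
          have h11 : Nat.log 2 y = m + 1 := ((log_iff hy0.ne').2 (by rw [e3]; omega)).symm
          have h12 := hα2 y hy0
          rw [h11] at h12
          exact (h12.2 h10).2 h9
        · rintro (⟨_, h2, _⟩ | ⟨_, ⟨_, a, ha, h3, h4⟩ | ⟨h3, _⟩⟩)
          · omega
          · exact ⟨hx, hsnd _ a (hβ m) ha hb h3 h4⟩
          · have := hβ m
            omega
      · rw [if_neg hsm]
        have e4 : A m + (α (m + 1) - 2 ^ m) - A m + 2 ^ m = α (m + 1) := by omega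
        rw [e4]
        constructor
        · intro h2
          right
          exact ⟨hx2, Or.inr ⟨by omega, hx1.1 h2⟩⟩
        · rintro (⟨_, h2, _⟩ | ⟨_, ⟨h3, _⟩ | ⟨_, h3⟩⟩)
          · omega
          · omega
          · exact hx1.2 h3

end Pool.Agent.H76.ADV
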