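import Pool.Agent.H76.ADV.Law6

/-!
# NE with advice: near the threshold
-/

set_option autoImplicit false

namespace Pool.Agent.H76.ADV

open Pool.Agent.H69.Sp Pool.Agent.H69.Mt Pool.Agent.H8.JS Filter

/-- `⌊p 2 ^ n / q⌋ + 1` -/
theorem cmp_frac {p q : ℕ} (hpq : p < q) : Cmp (fun n => (p * 2 ^ n) / q + 1) :=
  cmp_of (g := fun P => (p * P) / q + 1)
    ((((GR.num p).mul GR.id).div (GR.num q)).add (GR.num 1)) fun n => by
      have h1 : (p * 2 ^ n) / q < 2 ^ n := Nat.div_lt_of_lt_mul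
        (Nat.mul_lt_mul_of_pos_right hpq (Nat.two_pow_pos n))
      show (p * 2 ^ n) / q + 1 ≤ 2 ^ n
      omega

/-- `2 ^ n - C` -/
theorem cmp_sub (C : ℕ) : Cmp (fun n => 1 + (2 ^ n - (C + 1))) :=
  cmp_of (g := fun P => 1 + (P - (C + 1))) ((GR.num 1).add (GR.id.sub (GR.num (C + 1))))
    fun n => by
      have := Nat.two_pow_pos n
      show 1 + (2 ^ n - (C + 1)) ≤ 2 ^ n
      omega

/-- rational numbers as fractions -/
theorem exists_frac {a b : ℝ} (ha : 0 ≤ a) (hab : a < b) : ∃ p q : ℕ, 0 < p ∧ 0 < q ∧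
    a < (p : ℝ) / q ∧ (p : ℝ) / q < b := by
  obtain ⟨r, hr1, hr2⟩ := exists_rat_btwn hab
  have hr0 : 0 < r := by exact_mod_cast lt_of_le_of_lt ha hr1
  refine ⟨r.num.toNat, r.den, ?_, r.den_pos, ?_, ?_⟩
  · have := Rat.num_pos.2 hr0
    omega
  all_goals
    have h1 : (r : ℝ) = (r.num.toNat : ℝ) / r.den := by
      rw [Rat.cast_def]
      congr 1
      have h2 : ((r.num.toNat : ℤ) : ℝ) = (r.num : ℝ) := by
        rw [Int.toNat_of_nonneg (Rat.num_nonneg.2 hr0.le)]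
      exact_mod_cast h2.symm
    rw [← h1]
    assumption

theorem frac_bounds {p q : ℕ} (hq : 0 < q) (n : ℕ) :
    (p : ℝ) / q * 2 ^ n < ((p * 2 ^ n / q + 1 : ℕ) : ℝ) ∧
      ((p * 2 ^ n / q + 1 : ℕ) : ℝ) ≤ (p : ℝ) / q * 2 ^ n + 1 := by
  have hq' : (0 : ℝ) < q := by exact_mod_cast hq
  constructor
  · have h1 : p * 2 ^ n < q * (p * 2 ^ n / q + 1) := Nat.lt_mul_div_succ _ hq
    have h2 : (p : ℝ) * 2 ^ n < q * ((p * 2 ^ n / q + 1 : ℕ) : ℝ) := by exact_mod_cast h1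
    rw [div_mul_eq_mul_div, div_lt_iff₀ hq']
    linarith
  · have h1 : ((p * 2 ^ n / q : ℕ) : ℝ) ≤ ((p * 2 ^ n : ℕ) : ℝ) / q := Nat.cast_div_le
    push_cast at h1 ⊢
    rw [div_mul_eq_mul_div]
    linarith

/-- there is a bound `(1 - d) 2 ^ n` for the advice values -/
def Sv (d : ℝ) : Prop := ∃ A : ℕ → ℕ, (∀ᶠ n in atTop, (A n : ℝ) ≤ (1 - d) * 2 ^ n) ∧ CA A

theorem ev_pow (c : ℝ) {e : ℝ} (he : 0 < e) : ∀ᶠ n : ℕ in atTop, c ≤ e * 2 ^ n := by
  have h1 : Tendsto (fun n : ℕ => e * (2 : ℝ) ^ n) atTop atTop :=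
    (tendsto_pow_atTop_atTop_of_one_lt (by norm_num)).const_mul_atTop he
  exact h1.eventually_ge_atTop c

theorem Sv.step {d : ℝ} (hd : 0 < d) (hd2 : d ≤ 1 / 2) (h : Sv d) : Sv (5 / 4 * d) := by
  obtain ⟨A, hA, hC⟩ := h
  obtain ⟨p, q, hp, hq, h1, h2⟩ := exists_frac (a := 1 - d) (b := 1 - 5 / 6 * d) (by linarith)
    (by linarith)
  have hq' : (0 : ℝ) < q := by exact_mod_cast hq
  have hpq : p < q := by
    have h3 : (p : ℝ) / q < 1 := by linarith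
    rw [div_lt_one hq'] at h3
    exact_mod_cast h3
  have hB : CA fun n => (p * 2 ^ n) / q + 1 := by
    obtain ⟨n₀, hn₀⟩ := eventually_atTop.1 hA
    refine pf_MO A _ n₀ (fun n => Nat.succ_pos _) (fun n hn => ?_) hC
    have h3 := hn₀ n hn
    have h4 := (frac_bounds (p := p) hq n).1
    have h5 : (1 - d) * 2 ^ n ≤ (p : ℝ) / q * 2 ^ n :=
      mul_le_mul_of_nonneg_right h1.le (by positivity)
    have h6 : (A n : ℝ) ≤ ((p * 2 ^ n / q + 1 : ℕ) : ℝ) := by linarith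
    exact_mod_cast h6
  refine ⟨_, ?_, pf_H _ (cmp_frac hpq) hB⟩
  have hgap : 0 < (1 - 5 / 4 * d) - (3 / 2 * ((p : ℝ) / q) - 1 / 2) := by linarith
  filter_upwards [ev_pow 2 hgap, eventually_ge_atTop 1] with n hn hn1
  obtain ⟨m, rfl⟩ : ∃ m, n = m + 1 := ⟨n - 1, by omega⟩
  rw [Nat.add_sub_cancel]
  have b1 := frac_bounds (p := p) hq m
  have b2 := frac_bounds (p := p) hq (m + 1)
  have e : (2 : ℝ) ^ (m + 1) = 2 * 2 ^ m := by ring
  have hm : (0 : ℝ) < 2 ^ m := by positivity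
  have h3 : 2 ^ m ≤ p * 2 ^ (m + 1) / q + 1 := by
    have h4 : (2 : ℝ) ^ m ≤ ((p * 2 ^ (m + 1) / q + 1 : ℕ) : ℝ) := by
      have h5 : (1 / 2 : ℝ) * 2 ^ (m + 1) ≤ (p : ℝ) / q * 2 ^ (m + 1) :=
        mul_le_mul_of_nonneg_right (by linarith) (by positivity)
      rw [e] at h5 b2
      linarith [b2.1]
    exact_mod_cast h4
  rw [Nat.cast_add, Nat.cast_sub h3]
  push_cast at b1 b2 ⊢
  rw [e] at hn b2 ⊢
  nlinarith [b1.2, b2.2]

theorem Sv.all {d : ℝ} (hd : 0 < d) (h : Sv d) : ∀ k, CA fun n => 2 ^ (n - k) := by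
  have key : ∀ j : ℕ, ∀ d : ℝ, 0 < d → 1 / 2 ≤ (5 / 4 : ℝ) ^ j * d → Sv d →
      CA fun n => 2 ^ (n - 1) := by
    have base : ∀ d : ℝ, 1 / 2 ≤ d → Sv d → CA fun n => 2 ^ (n - 1) := by
      rintro d hd ⟨A, hA, hC⟩
      obtain ⟨n₀, hn₀⟩ := eventually_atTop.1 hA
      refine pf_MO A _ (n₀ + 1) (fun n => Nat.two_pow_pos _) (fun n hn => ?_) hC
      obtain ⟨m, rfl⟩ : ∃ m, n = m + 1 := ⟨n - 1, by omega⟩
      have h1 := hn₀ (m + 1) (by omega)
      have h2 : (A (m + 1) : ℝ) ≤ 2 ^ m := by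
        have h3 : (0 : ℝ) < 2 ^ (m + 1) := by positivity
        have h4 : (1 - d) * 2 ^ (m + 1) ≤ 1 / 2 * (2 : ℝ) ^ (m + 1) :=
          mul_le_mul_of_nonneg_right (by linarith) h3.le
        rw [pow_succ] at h4 h1
        linarith
      show A (m + 1) ≤ 2 ^ (m + 1 - 1)
      rw [Nat.add_sub_cancel]
      exact_mod_cast h2
    intro j
    induction j with
    | zero =>
      intro d _ h1 h2
      rw [pow_zero, one_mul] at h1
      exact base d h1 h2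
    | succ j ih =>
      intro d hd h1 h2
      rcases le_or_gt (1 / 2) d with h3 | h3
      · exact base d h3 h2
      · refine ih (5 / 4 * d) (by linarith) ?_ (h2.step hd h3.le)
        rw [pow_succ] at h1
        linarith
  obtain ⟨j, hj⟩ := pow_unbounded_of_one_lt (1 / 2 / d) (show (1 : ℝ) < 5 / 4 by norm_num)
  refine pf_N1 (key j d hd ?_ h)
  rw [div_lt_iff₀ hd] at hj
  exact hj.le

/-- a constant fraction of the values -/
theorem pf_N3 (A : ℕ → ℕ) (γ : ℝ) (hγ : γ < 1) (hA : ∀ᶠ n in atTop, (A n : ℝ) ≤ γ * 2 ^ n)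
    (h : CA A) : ∀ k, CA fun n => 2 ^ (n - k) := by
  refine Sv.all (d := 1 - γ) (by linarith) ⟨A, ?_, h⟩
  simpa using hA

/-- `c` advice values and errors -/
theorem pf_N4 (c : ℕ) (hc : 0 < c) (ε : ℝ) (hε : 0 < ε)
    (h : ∀ S, IsSpectrum S → ∃ T, SA (fun _ => c) T ∧ ∀ᶠ n in atTop,
      2 * (c : ℝ) * er T (posCompl S) n ≤ (1 - ε) * 2 ^ n) : ∀ k, CA fun n => 2 ^ (n - k) := by
  have hc' : (0 : ℝ) < c := by exact_mod_cast hc
  obtain ⟨p, q, hp, hq, h1, h2⟩ := exists_frac (a := max ((1 - ε) / c) 0) (b := 1 / c)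
    (le_max_right _ _) (max_lt (by
      rw [div_lt_div_iff_of_pos_right hc']
      linarith) (by positivity))
  have hq' : (0 : ℝ) < q := by exact_mod_cast hq
  have h3 : (1 - ε) / c < (p : ℝ) / q := lt_of_le_of_lt (le_max_left _ _) h1
  have h4 : (c : ℝ) * ((p : ℝ) / q) < 1 := by
    rw [lt_div_iff₀ hc'] at h2
    linarith
  have h5 : 1 - ε < c * ((p : ℝ) / q) := by
    rw [div_lt_iff₀ hc'] at h3
    linarith
  have hpq : p < q := by
    have h6 : (p : ℝ) / q < 1 := by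
      refine lt_of_lt_of_le h2 ?_
      rw [div_le_one hc']
      exact_mod_cast hc
    rw [div_lt_one hq'] at h6
    exact_mod_cast h6
  have h6 := pf_E2 (fun _ => c) _ (cmp_frac hpq) (fun n => Nat.succ_pos _) fun S hS => by
    obtain ⟨T, hT, herr⟩ := h S hS
    refine ⟨T, hT, ?_⟩
    filter_upwards [herr] with n hn
    have h7 := (frac_bounds (p := p) hq n).1
    have h8 : (2 : ℝ) * er T (posCompl S) n < ((p * 2 ^ n / q + 1 : ℕ) : ℝ) := by
      refine lt_of_le_of_lt ?_ h7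
      have h9 : (0 : ℝ) < 2 ^ n := by positivity
      have h10 : (1 - ε) * 2 ^ n ≤ c * ((p : ℝ) / q) * 2 ^ n :=
        mul_le_mul_of_nonneg_right h5.le h9.le
      have h11 : (c : ℝ) * (2 * er T (posCompl S) n) ≤ c * ((p : ℝ) / q * 2 ^ n) := by linarith
      exact le_of_mul_le_mul_left h11 hc'
    exact_mod_cast h8
  have hgap : 0 < (c * ((p : ℝ) / q) + 1) / 2 - c * ((p : ℝ) / q) := by linarith
  refine pf_N3 _ ((c * ((p : ℝ) / q) + 1) / 2) (by linarith) ?_ h6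
  filter_upwards [ev_pow c hgap] with n hn
  have h7 := (frac_bounds (p := p) hq n).2
  have h8 : ((c * (p * 2 ^ n / q + 1) : ℕ) : ℝ) ≤ c * ((p : ℝ) / q * 2 ^ n + 1) := by
    rw [Nat.cast_mul]
    exact mul_le_mul_of_nonneg_left h7 hc'.le
  linarith

/-- one value less -/
theorem pf_C (A : ℕ → ℕ) (hA : ∀ᶠ n in atTop, A n < 2 ^ n) (h : CA A) (C : ℕ) :
    CA fun n => 1 + (2 ^ n - (C + 1)) := by
  have h1 : CA fun n => 1 + (2 ^ n - (1 + 1)) := by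
    obtain ⟨n₀, hn₀⟩ := eventually_atTop.1 hA
    refine pf_MO A _ (n₀ + 1) (fun n => by omega) (fun n hn => ?_) h
    have h2 := hn₀ n (by omega)
    obtain ⟨m, rfl⟩ : ∃ m, n = m + 1 := ⟨n - 1, by omega⟩
    have h3 := Nat.two_pow_pos m
    have h4 : 2 ^ (m + 1) = 2 * 2 ^ m := by ring
    omega
  have key : ∀ j, CA fun n => 1 + (2 ^ n - (2 ^ j + 1)) := by
    intro j
    induction j with
    | zero => exact h1
    | succ j ih =>
      refine pf_MO _ _ (j + 3) (fun n => by omega) (fun n hn => ?_) (pf_H _ (cmp_sub (2 ^ j)) ih)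
      obtain ⟨m, rfl⟩ : ∃ m, n = m + 1 := ⟨n - 1, by omega⟩
      rw [Nat.add_sub_cancel]
      have h4 : 2 ^ (m + 1) = 2 * 2 ^ m := by ring
      have h5 : 2 ^ (j + 1) = 2 * 2 ^ j := by ring
      have h6 : 2 ^ (j + 2) ≤ 2 ^ m := Nat.pow_le_pow_right (by norm_num) (by omega)
      have h7 : 2 ^ (j + 2) = 4 * 2 ^ j := by ring
      have h8 := Nat.two_pow_pos j
      show 1 + (2 ^ m - (2 ^ j + 1)) + (1 + (2 ^ (m + 1) - (2 ^ j + 1)) - 2 ^ m) ≤
        1 + (2 ^ (m + 1) - (2 ^ (j + 1) + 1))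
      omega
  refine pf_MO _ _ 0 (fun n => by omega) (fun n _ => ?_) (key C)
  have : C < 2 ^ C := Nat.lt_two_pow_self
  show 1 + (2 ^ n - (2 ^ C + 1)) ≤ 1 + (2 ^ n - (C + 1))
  omega

/-- strict majority -/
theorem pf_C2 (h : ∀ S, IsSpectrum S → ∃ T, IsSpectrum T ∧ ∀ᶠ n in atTop,
    2 * er T (posCompl S) n < 2 ^ n) (C : ℕ) : CA fun n => 1 + (2 ^ n - (C + 1)) := by
  have h1 := pf_E2 (fun _ => 1) _ (cmp_sub 1) (fun n => by omega) fun S hS => by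
    obtain ⟨T, hT, herr⟩ := h S hS
    refine ⟨T, pf_IN _ T (fun _ => Nat.one_pos) hT, ?_⟩
    filter_upwards [herr, eventually_ge_atTop 1] with n hn hn1
    obtain ⟨m, rfl⟩ : ∃ m, n = m + 1 := ⟨n - 1, by omega⟩
    have h4 : 2 ^ (m + 1) = 2 * 2 ^ m := by ring
    have := Nat.two_pow_pos m
    omega
  refine pf_C _ ?_ h1 C
  filter_upwards [eventually_ge_atTop 1] with n hn1
  obtain ⟨m, rfl⟩ : ∃ m, n = m + 1 := ⟨n - 1, by omega⟩
  have h4 : 2 ^ (m + 1) = 2 * 2 ^ m := by ring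
  have := Nat.two_pow_pos m
  omega

end Pool.Agent.H76.ADV
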