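import Pool.Agent.H76.ADV.DH

/-!
# NE with advice: padding with advice; corollaries for the difference hierarchy
-/

set_option autoImplicit false

namespace Pool.Agent.H76.ADV

open Pool.Agent.H69.Sp Pool.Agent.H69.Mt Pool.Agent.H8.JS Classical Filter

theorem pf_P2 (A : ℕ → ℕ) (C : ℕ) (hyp : ∀ S, IsSpectrum S → ∃ T, SA A T ∧ ∀ᶠ k in atTop,
    2 * er T (posCompl S) ((C + 1) * k) < 2 ^ (C * k)) : CA fun n => A ((C + 1) * n) := by
  intro S hS
  have hS' : IsSpectrum {z | 0 < z ∧ z / 2 ^ pl C (Nat.log 2 z) ∈ S} :=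
    RL.isSpectrum (RL.mem hS (GR.id.div (GR.pl C GR.id)))
  obtain ⟨T, ⟨X, hX, α, hα, hT⟩, herr0⟩ := hyp _ hS'
  obtain ⟨n₀, herr⟩ := Filter.eventually_atTop.1 herr0
  set S' := {z | 0 < z ∧ z / 2 ^ pl C (Nat.log 2 z) ∈ S} with hS'def
  set M := 2 ^ n₀ with hM
  refine ⟨{u | 0 < u ∧ (((Nat.unpair u).2 ∈ {u | 0 < u ∧ (u < M ∧ u ∈ posCompl S)}) ∨
      (M ≤ (Nat.unpair u).2 ∧ ((2 ^ Nat.log 2 (Nat.unpair u).2) ^ C + 1) / 2 ≤
        Set.ncard {y | y < (2 ^ Nat.log 2 (Nat.unpair u).2) ^ C ∧ Nat.pair (Nat.unpair u).1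
          ((Nat.unpair u).2 * (2 ^ Nat.log 2 (Nat.unpair u).2) ^ C + y) ∈ X}))}, ?_,
    fun n => α ((C + 1) * n), fun n => hα _, fun x hx => ?_⟩
  · refine RL.isSpectrum ((RL.mem (fin_isSpectrum _ _) GR.id.snd).or ((RL.le (GR.num _)
      GR.id.snd).and (RL.card (R := fun y u => Nat.pair (Nat.unpair u).1
          ((Nat.unpair u).2 * (2 ^ Nat.log 2 (Nat.unpair u).2) ^ C + y) ∈ X) ?_
        (((GR.pc C GR.id.snd).add (GR.num 1)).div (GR.num 2)) (GR.pc C GR.id.snd))))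
    exact RL.mem hX (GR.id.snd.fst.pair ((GR.id.snd.snd.mul (GR.pc C GR.id.snd.snd)).add GR.id.fst))
  set n := Nat.log 2 x with hn
  have epow : (2 ^ n) ^ C = 2 ^ (C * n) := by rw [← pow_mul, mul_comm]
  set P := 2 ^ (C * n) with hP
  simp only [Set.mem_ofPred_eq, Nat.unpair_pair, pair_pos hx, true_and, ← hn, epow]
  rcases Nat.lt_or_ge x M with hxM | hxM
  · constructor
    · intro h2
      exact Or.inl ⟨hx, hxM, h2⟩
    · rintro (⟨_, _, h2⟩ | ⟨h2, _⟩)
      · exact h2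
      · omega
  · have hlog : n₀ ≤ n := (Nat.le_log_iff_pow_le (by norm_num) hx.ne').2 hxM
    have h1 := herr n hlog
    have hPpos : 0 < P := Nat.two_pow_pos _
    have hxn := (log_iff hx.ne').1 hn
    have hpos : ∀ y < P, 0 < x * P + y := fun y _ => by
      have h3 : 0 < x * P := Nat.mul_pos hx hPpos
      omega
    have hTX : ∀ y < P, (x * P + y ∈ T ↔ Nat.pair (α ((C + 1) * n)) (x * P + y) ∈ X) := by
      intro y hy
      have h2 : Nat.log 2 (x * P + y) = (C + 1) * n := log_pad hx hy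
      have := hT (x * P + y) (hpos y hy)
      rwa [h2] at this
    have hset : {y | y < P ∧ Nat.pair (α ((C + 1) * n)) (x * P + y) ∈ X} =
        {y | y < P ∧ x * P + y ∈ T} := by
      ext y
      exact and_congr_right fun hy => (hTX y hy).symm
    rw [hset]
    -- membership
    have hmem : ∀ y < P, (x * P + y ∈ S' ↔ x ∈ S) := by
      intro y hy
      have h2 : Nat.log 2 (x * P + y) = (C + 1) * n := log_pad hx hy
      have h3 : 0 < x * P := Nat.mul_pos hx hPpos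
      show 0 < x * P + y ∧ (x * P + y) / 2 ^ pl C (Nat.log 2 (x * P + y)) ∈ S ↔ x ∈ S
      rw [h2, pl_mul, ← hP, mul_comm x P, Nat.mul_add_div hPpos, Nat.div_eq_of_lt hy, add_zero]
      exact ⟨fun h => h.2, fun h => ⟨by rw [mul_comm]; omega, h⟩⟩
    have hrange : ∀ y < P, 2 ^ ((C + 1) * n) ≤ x * P + y ∧ x * P + y < 2 ^ ((C + 1) * n + 1) := by
      intro y hy
      have h2 : Nat.log 2 (x * P + y) = (C + 1) * n := log_pad hx hy
      have h3 : 0 < x * P := Nat.mul_pos hx hPpos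
      have h4 := (log_iff (show x * P + y ≠ 0 by omega)).1 h2.symm
      rw [pow_succ]
      omega
    have hfin : {z | (2 ^ ((C + 1) * n) ≤ z ∧ z < 2 ^ ((C + 1) * n + 1)) ∧
        ¬ (z ∈ T ↔ z ∈ posCompl S')}.Finite :=
      (Set.finite_Iio (2 ^ ((C + 1) * n + 1))).subset fun t ht => ht.1.2
    have hinj : Function.Injective fun y => x * P + y := fun a b h => by
      have : x * P + a = x * P + b := h
      omega
    by_cases hxS : x ∈ S
    · have h2 : Set.ncard {y | y < P ∧ x * P + y ∈ T} ≤ er T (posCompl S') ((C + 1) * n) := by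
        rw [← Set.ncard_image_of_injective _ hinj]
        refine Set.ncard_le_ncard ?_ hfin
        rintro _ ⟨y, ⟨hy, hyT⟩, rfl⟩
        refine ⟨hrange y hy, fun h3 => ?_⟩
        exact (h3.1 hyT).2 ((hmem y hy).2 hxS)
      constructor
      · intro h
        exact absurd hxS h.2
      · rintro (⟨_, _, h3⟩ | ⟨_, h3⟩)
        · exact absurd hxS h3.2
        · exfalso
          omega
    · have h2 : Set.ncard {y | y < P ∧ x * P + y ∉ T} ≤ er T (posCompl S') ((C + 1) * n) := by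
        rw [← Set.ncard_image_of_injective _ hinj]
        refine Set.ncard_le_ncard ?_ hfin
        rintro _ ⟨y, ⟨hy, hyT⟩, rfl⟩
        refine ⟨hrange y hy, fun h3 => ?_⟩
        exact hyT (h3.2 ⟨hpos y hy, fun h4 => hxS ((hmem y hy).1 h4)⟩)
      have h3 : Set.ncard {y | y < P ∧ x * P + y ∈ T} + Set.ncard {y | y < P ∧ x * P + y ∉ T} = P := by
        rw [← Set.ncard_union_eq ?_ ((Set.finite_Iio P).subset fun t ht => ht.1)
          ((Set.finite_Iio P).subset fun t ht => ht.1)]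
        · have : {y | y < P ∧ x * P + y ∈ T} ∪ {y | y < P ∧ x * P + y ∉ T} = (Finset.range P : Set ℕ) := by
            ext y
            by_cases h5 : x * P + y ∈ T <;> simp [h5]
          rw [this, Set.ncard_coe_finset, Finset.card_range]
        · rw [Set.disjoint_left]
          rintro y ⟨_, h4⟩ ⟨_, h5⟩
          exact h5 h4
      constructor
      · intro _
        exact Or.inr ⟨hxM, by omega⟩
      · intro _
        exact ⟨hx, hxS⟩

theorem pf_AV2 (A : ℕ → ℕ) (β : ℝ) (hβ : β < 1) (h : ∀ S, IsSpectrum S → ∃ T, SA A T ∧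
    ∀ᶠ n in atTop, (er T (posCompl S) n : ℝ) ≤ (2 : ℝ) ^ (β * n)) :
    ∃ C, 0 < C ∧ CA fun n => A (C * n) := by
  obtain ⟨C, hC⟩ := exists_nat_gt (β / (1 - β))
  have h1 : β < C * (1 - β) := (div_lt_iff₀ (by linarith)).1 hC
  refine ⟨C + 1, by omega, pf_P2 A C fun S hS => ?_⟩
  obtain ⟨T, hT, herr⟩ := h S hS
  refine ⟨T, hT, ?_⟩
  have h2 : Tendsto (fun k : ℕ => (C + 1) * k) atTop atTop :=
    tendsto_id.const_mul_atTop' (by omega)
  set γ : ℝ := C - β * (C + 1) with hγ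
  have hγ0 : 0 < γ := by rw [hγ]; nlinarith
  obtain ⟨k₀, hk₀⟩ := exists_nat_gt (1 / γ)
  filter_upwards [h2.eventually herr, eventually_ge_atTop k₀] with k hk hk1
  have h3 : 1 < γ * k := by
    have h4 : (k₀ : ℝ) ≤ k := by exact_mod_cast hk1
    have h5 := (div_lt_iff₀ hγ0).1 hk₀
    nlinarith
  have h6 : 2 * (2 : ℝ) ^ (β * ((C + 1) * k : ℕ)) < 2 ^ (C * k) := by
    calc 2 * (2 : ℝ) ^ (β * ((C + 1) * k : ℕ)) = (2 : ℝ) ^ (1 + β * ((C + 1) * k : ℕ)) := by
          rw [Real.rpow_add (by norm_num), Real.rpow_one]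
      _ < (2 : ℝ) ^ ((C * k : ℕ) : ℝ) := by
          refine Real.rpow_lt_rpow_of_exponent_lt (by norm_num) ?_
          push_cast
          rw [hγ] at h3
          nlinarith
      _ = 2 ^ (C * k) := Real.rpow_natCast _ _
  have h7 : (2 : ℝ) * er T (posCompl S) ((C + 1) * k) < 2 ^ (C * k) := by linarith
  exact_mod_cast h7

/-- `2 ^ (p n / q)` -/
theorem cmp_pow {p q : ℕ} (hp : 0 < p) (hpq : p ≤ q) : Cmp (fun n => 2 ^ ((p * n - 0) / q)) := by
  have hμ := pf_MU p q 0 hp hpq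
  refine ⟨fun n => Nat.pow_le_pow_right (by norm_num) (hμ.le n), ?_⟩
  -- `z = 2 ^ (n + 1) + 2 ^ ν n`, `n = log z - 1`
  have h : RL fun z => 2 ≤ z ∧ ((z = 2 ∨ z = 2 ^ Nat.log 2 z +
      2 ^ ((p * Nat.log 2 (z / 2) - 0) / q)) ∧ z ≠ 2) := by
    refine (RL.le (GR.num 2) GR.id).and ((RL.or (RL.eq GR.id (GR.num 2)) (RL.eq GR.id
      (GR.id.powlog.add (GR.mulog hμ.le hμ.sp (GR.id.div (GR.num 2)))))).and
        (RL.ne GR.id (GR.num 2)))
  convert h.isSpectrum using 1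
  have hlt : ∀ n, 2 ^ ((p * n - 0) / q) < 2 ^ (n + 1) := fun n =>
    Nat.pow_lt_pow_right (by norm_num) (Nat.lt_succ_of_le (hμ.le n))
  ext z
  constructor
  · rintro ⟨n, rfl⟩
    have h1 := hlt n
    have h2 := Nat.two_pow_pos n
    have h3 : 2 ^ (n + 1) = 2 * 2 ^ n := by ring
    have h4 := log_code h1
    have h5 := Nat.two_pow_pos ((p * n - 0) / q)
    refine ⟨by omega, by omega, Or.inr ?_, by omega⟩
    rw [h4, Nat.log_div_base, h4]
    rfl
  · rintro ⟨_, h1, h2, h3⟩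
    obtain ⟨m, hm⟩ : ∃ m, Nat.log 2 z = m + 1 := ⟨Nat.log 2 z - 1, by
      have := Nat.log_pos (b := 2) (by norm_num) h1
      omega⟩
    have h4 := h2.resolve_left h3
    rw [Nat.log_div_base, hm, Nat.add_sub_cancel] at h4
    exact ⟨m, h4⟩

/-- few advice values: the difference hierarchy collapses -/
theorem pf_DZ (hZ : T_Z0) (α δ : ℝ) (hα : α < 1) (hδ : 0 < δ) (h : CA fun n => 2 ^ ⌊α * n⌋₊)
    (c : ℕ) {T : Set ℕ} (hT : DS (fun n => 2 ^ (c * n)) T) : DS (fun n => 2 ^ ⌊δ * n⌋₊) T := by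
  have hD : (0 : ℝ) < 2 * (2 * c + 4) := by positivity
  obtain ⟨p, q, hp, hq, h1, h2⟩ := exists_frac (a := 0) (b := min (δ / (2 * (2 * c + 4))) 1)
    le_rfl (lt_min (by positivity) (by norm_num))
  have hq' : (0 : ℝ) < q := by exact_mod_cast hq
  have h3 : (p : ℝ) / q < δ / (2 * (2 * c + 4)) := lt_of_lt_of_le h2 (min_le_left _ _)
  have h4 : (p : ℝ) / q < 1 := lt_of_lt_of_le h2 (min_le_right _ _)
  have hpq : p ≤ q := by
    rw [div_lt_one hq'] at h4
    exact_mod_cast h4.le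
  have h5 : CA fun n => 2 ^ ((p * n - 0) / q) := by
    refine pf_MO _ _ 0 (fun n => Nat.two_pow_pos _) (fun n _ => ?_) (hZ α ((p : ℝ) / q) hα h1 h)
    refine Nat.pow_le_pow_right (by norm_num) ?_
    rw [Nat.sub_zero, Nat.le_div_iff_mul_le hq]
    have h6 : ((⌊(p : ℝ) / q * n⌋₊ : ℕ) : ℝ) ≤ (p : ℝ) / q * n := Nat.floor_le (by positivity)
    have h7 : ((⌊(p : ℝ) / q * n⌋₊ : ℕ) : ℝ) * q ≤ p * n := by
      calc ((⌊(p : ℝ) / q * n⌋₊ : ℕ) : ℝ) * q ≤ (p : ℝ) / q * n * q :=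
            mul_le_mul_of_nonneg_right h6 hq'.le
        _ = p * n := by field_simp
    exact_mod_cast h7
  -- large n
  obtain ⟨n₀, hn₀⟩ := exists_nat_gt ((δ / 2 + 2) / (δ / 2))
  refine pf_DH (cmp_pow hp hpq) h5 c _ n₀ (fun n => Nat.two_pow_pos _) (fun n hn => ?_) hT
  rw [Nat.sub_zero, ← pow_succ']
  refine Nat.pow_le_pow_right (by norm_num) (Nat.le_floor ?_)
  have h8 : ((p * ((2 * c + 4) * (n + 1)) / q : ℕ) : ℝ) ≤
      ((p * ((2 * c + 4) * (n + 1)) : ℕ) : ℝ) / q := Nat.cast_div_le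
  have h9 : ((p * ((2 * c + 4) * (n + 1)) : ℕ) : ℝ) / q = (p : ℝ) / q * ((2 * c + 4) * (n + 1)) := by
    push_cast
    ring
  have h10 : (p : ℝ) / q * ((2 * c + 4) * (n + 1)) ≤ δ / 2 * (n + 1) := by
    have h11 : (0 : ℝ) < (2 * c + 4) * (n + 1) := by positivity
    calc (p : ℝ) / q * ((2 * c + 4) * (n + 1))
        ≤ δ / (2 * (2 * c + 4)) * ((2 * c + 4) * (n + 1)) :=
          mul_le_mul_of_nonneg_right h3.le h11.le
      _ = δ / 2 * (n + 1) := by field_simp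
  have h12 : δ / 2 + 2 < δ / 2 * n := by
    have h13 : (n₀ : ℝ) ≤ n := by exact_mod_cast hn
    have h14 := (div_lt_iff₀ (by positivity : (0 : ℝ) < δ / 2)).1 hn₀
    nlinarith
  push_cast at h8 h9 ⊢
  linarith

/-- constantly many advice values -/
theorem pf_DK (K : ℕ) (h : CA fun _ => K) (c : ℕ) {T : Set ℕ}
    (hT : DS (fun n => 2 ^ (c * n)) T) : DS (fun _ => 2 * K) T := by
  have hK : 0 < K := by
    obtain ⟨_, _, α, hα, _⟩ := h _ all_isSpectrum
    exact lt_of_le_of_lt (Nat.zero_le _) (hα 0)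
  have hc : Cmp (fun n => 2 ^ n - (2 ^ n - K)) :=
    cmp_of (g := fun P => P - (P - K)) (GR.id.sub (GR.id.sub (GR.num K))) fun n => Nat.sub_le _ _
  have h1 : CA fun n => 2 ^ n - (2 ^ n - K) := by
    refine pf_MO _ _ K (fun n => ?_) (fun n hn => ?_) h
    · have := Nat.two_pow_pos n
      omega
    · have h2 : K < 2 ^ n := lt_of_lt_of_le Nat.lt_two_pow_self
        (Nat.pow_le_pow_right (by norm_num) hn)
      omega
  refine pf_DH hc h1 c _ 0 (fun _ => by omega) (fun n _ => ?_) hT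
  show 2 * (2 ^ ((2 * c + 4) * (n + 1)) - (2 ^ ((2 * c + 4) * (n + 1)) - K)) ≤ 2 * K
  omega

end Pool.Agent.H76.ADV
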