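import Pool.Agent.H76.ADV.Defs2
import Pool.Agent.H76.ADV.Law8
import Pool.Agent.H76.ADV.Brg
import Pool.Agent.H68.ADV.Z0
import Pool.Agent.H68.ADV.Z1

/-!
# NE with advice: the laws for languages
-/

set_option autoImplicit false

namespace Pool.Agent.H76.ADV

open Pool.Agent.H69.Sp Pool.Agent.H69.Mt Pool.Agent.H8.JS Filter

theorem z_0 : T_Z0 := Pool.Agent.H68.ADV.Z0.pf_Z0 pf_G pf_MU pf_MO

theorem z_1 : T_Z1 := Pool.Agent.H68.ADV.Z1.pf_Z1 z_0 pf_E pf_MU pf_MO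

theorem dh_ds {A : ℕ → ℕ} {T : Set (List Bool)} : T ∈ DH A ↔ DS A (num '' T) := by
  constructor
  · rintro ⟨X, hX, h1, h2⟩
    refine ⟨num '' lang X, (j_js.1 _).1 hX, fun m j hm => ?_, fun m hm => ?_⟩
    · obtain ⟨x, rfl⟩ := num_surj hm
      rw [image_lang]
      rintro ⟨_, h3⟩
      exact ⟨pair_pos hm, h1 x j h3⟩
    · obtain ⟨x, rfl⟩ := num_surj hm
      rw [num_mem, h2 x, num_log, image_lang]
      have : {j | j < A x.length ∧ Nat.pair j (num x) ∈ X} =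
          {j | j < A x.length ∧ Nat.pair j (num x) ∈ {u | 0 < u ∧ u ∈ X}} := by
        ext j
        exact and_congr_right fun _ => ⟨fun h => ⟨pair_pos hm, h⟩, fun h => h.2⟩
      rw [this]
  · rintro ⟨X, hX, h1, h2⟩
    refine ⟨X, j_jb X hX, fun x j h => h1 _ _ (num_pos x) h, fun x => ?_⟩
    rw [← num_mem (L := T), h2 _ (num_pos x), num_log]

/-- approximation for numbers -/
theorem appr_num {A : ℕ → ℕ} {h : ℕ → ℝ} (hA : Appr A h) (S : Set ℕ) (hS : IsSpectrum S) :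
    ∃ T, SA A T ∧ ∀ᶠ n in atTop, (er T (posCompl S) n : ℝ) ≤ h n := by
  have h1 : lang (posCompl S) ∈ coNE := by
    show (lang (posCompl S))ᶜ ∈ NE
    have : (lang (posCompl S))ᶜ = lang S := by
      ext x
      constructor
      · intro h2
        by_contra h3
        exact h2 ⟨num_pos x, h3⟩
      · intro h2 h3
        exact h3.2 h2
    rw [this]
    exact j_jb S hS
  obtain ⟨B, hB, herr⟩ := hA _ h1
  refine ⟨num '' B, (pf_B1 A B).1 hB, ?_⟩
  filter_upwards [herr] with n hn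
  rw [pf_B3, image_lang] at hn
  have : {u | 0 < u ∧ u ∈ posCompl S} = posCompl S := by
    ext u
    exact ⟨fun h => h.2, fun h => ⟨h.1, h⟩⟩
  rwa [this] at hn

/-- one advice value is no advice -/
theorem ne_one : NEadv (fun _ => 1) = NE := by
  ext L
  constructor
  · rintro ⟨X, hX, α, hα, h⟩
    have h0 : ∀ n, α n = 0 := fun n => by
      have : α n < 1 := hα n
      omega
    have h1 : IsSpectrum (num '' lang X) := (j_js.1 _).1 hX
    have h2 : IsSpectrum {u | 0 < u ∧ Nat.pair 0 u ∈ num '' lang X} :=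
      RL.isSpectrum (RL.mem h1 ((GR.num 0).pair GR.id))
    have h3 : num '' L = {u | 0 < u ∧ Nat.pair 0 u ∈ num '' lang X} := by
      ext u
      constructor
      · rintro ⟨x, hx, rfl⟩
        rw [h x, h0] at hx
        refine ⟨num_pos x, ?_⟩
        rw [image_lang]
        exact ⟨pair_pos (num_pos x), hx⟩
      · rintro ⟨hu, h4⟩
        obtain ⟨x, rfl⟩ := num_surj hu
        rw [image_lang] at h4
        exact ⟨x, (h x).2 (by rw [h0]; exact h4.2), rfl⟩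
    exact (j_js.1 L).2 (h3 ▸ h2)
  · intro hL
    exact (pf_B1 _ L).2 (pf_IN _ _ (fun _ => Nat.one_pos) ((j_js.1 L).1 hL))

theorem ne_co (h : coNE ⊆ NE) : NE = coNE := by
  refine Set.Subset.antisymm (fun L hL => ?_) h
  show Lᶜ ∈ NE
  refine h ?_
  show Lᶜᶜ ∈ NE
  rwa [compl_compl]

/-- the census -/
theorem l_census : coNE ⊆ NEadv (fun n => 2 ^ n + 1) := (pf_B2 _).2 pf_U

/-- the general law -/
theorem l_gen (A μ : ℕ → ℕ) (K : ℕ) (hK : 0 < K) (h1 : Monotone μ) (h2 : ∀ n, μ n ≤ n)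
    (h3 : ∀ᶠ n in atTop, μ n < μ (n + K)) (h4 : lang {z | ∃ n, z = 2 ^ n + μ n} ∈ NE)
    (h5 : ∀ᶠ n in atTop, K * A n ≤ 2 ^ μ n) (h : coNE ⊆ NEadv A) :
    coNE ⊆ NEadv (fun n => A (μ n)) := by
  obtain ⟨n₁, hn₁⟩ := eventually_atTop.1 h3
  obtain ⟨n₀, hn₀⟩ := eventually_atTop.1 h5
  have h6 : (0 : ℕ) ∉ {z | ∃ n, z = 2 ^ n + μ n} := by
    rintro ⟨n, hn⟩
    have := Nat.two_pow_pos n
    omega
  exact (pf_B2 _).2 (pf_G A μ K n₀ ⟨hK, h1, ⟨n₁, hn₁⟩, h2, (j_js.2 _ h6).1 h4⟩ hn₀ ((pf_B2 _).1 h))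

/-- few advice values and few errors -/
theorem l_zero (α β : ℝ) (hα : 0 ≤ α) (hβ : 0 ≤ β) (hαβ : α + β < 1)
    (h : Appr (fun n => 2 ^ ⌊α * n⌋₊) (fun n => (2 : ℝ) ^ (β * n))) (δ : ℝ) (hδ : 0 < δ) :
    coNE ⊆ NEadv (fun n => 2 ^ ⌊δ * n⌋₊) ∧
      ∀ c : ℕ, DH (fun n => 2 ^ (c * n)) ⊆ DH (fun n => 2 ^ ⌊δ * n⌋₊) := by
  have h1 : ∀ δ : ℝ, 0 < δ → CA fun n => 2 ^ ⌊δ * n⌋₊ := fun δ hδ =>
    z_1 α β δ hα hβ hαβ hδ fun S hS => appr_num h S hS
  refine ⟨(pf_B2 _).2 (h1 δ hδ), fun c T hT => ?_⟩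
  exact dh_ds.2 (pf_DZ z_0 (1 / 2) δ (by norm_num) hδ (h1 _ (by norm_num)) c (dh_ds.1 hT))

/-- few errors -/
theorem l_avg (β : ℝ) (hβ : β < 1) : NE = coNE ↔ Appr (fun _ => 1) (fun n => (2 : ℝ) ^ (β * n)) := by
  constructor
  · intro h L hL
    refine ⟨L, by rw [ne_one, h]; exact hL, Eventually.of_forall fun n => ?_⟩
    have : err L L n = 0 := by
      unfold err
      simp
    have h0 : (0 : ℝ) ≤ (2 : ℝ) ^ (β * n) := by positivity
    rw [this]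
    simpa using h0
  · intro h
    obtain ⟨C, _, hC⟩ := pf_AV2 (fun _ => 1) β hβ fun S hS => appr_num h S hS
    have h1 := (pf_B2 _).2 hC
    rw [ne_one] at h1
    exact ne_co h1

/-- constantly many advice values -/
theorem l_const (K : ℕ) (h : coNE ⊆ NEadv (fun _ => K)) (c : ℕ) :
    DH (fun n => 2 ^ (c * n)) ⊆ DH (fun _ => 2 * K) := fun T hT =>
  dh_ds.2 (pf_DK K ((pf_B2 _).1 h) c (dh_ds.1 hT))

/-- a constant fraction of the advice values -/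
theorem l_frac (A : ℕ → ℕ) (ε : ℝ) (hε : 0 < ε)
    (hA : ∀ᶠ n in atTop, (A n : ℝ) ≤ (1 - ε) * 2 ^ n) (h : coNE ⊆ NEadv A) (k : ℕ) :
    coNE ⊆ NEadv (fun n => 2 ^ (n - k)) :=
  (pf_B2 _).2 (pf_N3 A (1 - ε) (by linarith) hA ((pf_B2 _).1 h) k)

/-- a constant number of advice values, and errors -/
theorem l_half (c : ℕ) (ε : ℝ) (hc : 0 < c) (hε : 0 < ε)
    (h : Appr (fun _ => c) (fun n => (1 - ε) * 2 ^ n / (2 * c))) (k : ℕ) :
    coNE ⊆ NEadv (fun n => 2 ^ (n - k)) := by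
  refine (pf_B2 _).2 (pf_N4 c hc ε hε (fun S hS => ?_) k)
  obtain ⟨T, hT, herr⟩ := appr_num h S hS
  refine ⟨T, hT, ?_⟩
  filter_upwards [herr] with n hn
  have hc' : (0 : ℝ) < 2 * c := by positivity
  rw [le_div_iff₀ hc'] at hn
  linarith

theorem max_sub (C : ℕ) : (fun n => max 1 (2 ^ n - C)) = fun n => 1 + (2 ^ n - (C + 1)) := by
  funext n
  have := Nat.two_pow_pos n
  omega

/-- one advice value less -/
theorem l_one (A : ℕ → ℕ) (hA : ∀ᶠ n in atTop, A n < 2 ^ n) (h : coNE ⊆ NEadv A) (C : ℕ) :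
    coNE ⊆ NEadv (fun n => max 1 (2 ^ n - C)) := by
  rw [max_sub]
  exact (pf_B2 _).2 (pf_C A hA ((pf_B2 _).1 h) C)

/-- strict majority -/
theorem l_maj (h : Appr (fun _ => 1) (fun n => ((2 : ℝ) ^ n - 1) / 2)) (C : ℕ) :
    coNE ⊆ NEadv (fun n => max 1 (2 ^ n - C)) := by
  rw [max_sub]
  refine (pf_B2 _).2 (pf_C2 (fun S hS => ?_) C)
  obtain ⟨T, hT, herr⟩ := appr_num h S hS
  have h1 : T ∩ {u | 0 < u} ∈ {T | IsSpectrum T} := by
    obtain ⟨X, hX, α, hα, h2⟩ := hT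
    have h0 : ∀ n, α n = 0 := fun n => by
      have : α n < 1 := hα n
      omega
    have h3 : IsSpectrum {u | 0 < u ∧ Nat.pair 0 u ∈ X} :=
      RL.isSpectrum (RL.mem hX ((GR.num 0).pair GR.id))
    have h4 : T ∩ {u | 0 < u} = {u | 0 < u ∧ Nat.pair 0 u ∈ X} := by
      ext u
      constructor
      · rintro ⟨h5, h6⟩
        have := (h2 u h6).1 h5
        rw [h0] at this
        exact ⟨h6, this⟩
      · rintro ⟨h5, h6⟩
        refine ⟨(h2 u h5).2 ?_, h5⟩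
        rwa [h0]
    show IsSpectrum _
    rw [h4]
    exact h3
  refine ⟨_, h1, ?_⟩
  filter_upwards [herr] with n hn
  have h2 : er (T ∩ {u | 0 < u}) (posCompl S) n = er T (posCompl S) n := by
    unfold er
    congr 1
    ext x
    refine and_congr_right fun hx => ?_
    have hx0 : 0 < x := lt_of_lt_of_le (Nat.two_pow_pos n) hx.1
    have : x ∈ T ∩ {u | 0 < u} ↔ x ∈ T := ⟨fun h => h.1, fun h => ⟨h, hx0⟩⟩
    rw [this]
  rw [h2]
  have h3 : (2 : ℝ) * er T (posCompl S) n < 2 ^ n := by linarith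
  exact_mod_cast h3

end Pool.Agent.H76.ADV
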