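import Pool.Agent.H76.ADV.Main
import Pool.Agent.H76.ADV.KK
import Pool.Agent.H76.ADV.ZZ
import Pool.Agent.H69.ADV.DA

/-!
# NE with advice: the equivalences
-/

set_option autoImplicit false

namespace Pool.Agent.H76.ADV

open Pool.Agent.H69.Sp Pool.Agent.H69.Mt Pool.Agent.H8.JS Filter

theorem appr_cae {A : ℕ → ℕ} {h : ℕ → ℕ} (hA : Appr A (fun n => (h n : ℝ))) : CAE A h := by
  intro S hS
  obtain ⟨T, hT, herr⟩ := appr_num hA S hS
  refine ⟨T, hT, ?_⟩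
  filter_upwards [herr] with n hn
  exact_mod_cast hn

theorem appr_pos {A : ℕ → ℕ} {h : ℕ → ℝ} (hA : Appr A h) (n : ℕ) : 0 < A n := by
  obtain ⟨T, ⟨_, _, α, hα, _⟩, _⟩ := appr_num hA _ all_isSpectrum
  exact lt_of_le_of_lt (Nat.zero_le _) (hα n)

/-- exact computation is approximation -/
theorem appr_of {A : ℕ → ℕ} {h : ℕ → ℝ} (h0 : ∀ n, 0 ≤ h n) (hA : coNE ⊆ NEadv A) : Appr A h := by
  intro L hL
  refine ⟨L, hA hL, Eventually.of_forall fun n => ?_⟩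
  have : err L L n = 0 := by
    unfold err
    simp
  rw [this]
  simpa using h0 n

/-- errors can be paid with advice -/
theorem l_err (A h : ℕ → ℕ) (hA : Appr A (fun n => (h n : ℝ)))
    (hc : ∃ c, (∀ n, A n = c) ∨ ∀ n, h n = c) :
    coNE ⊆ NEadv (fun n => A n * (2 * h n + 1)) := by
  have h1 := appr_cae hA
  have h2 := appr_pos hA
  obtain ⟨c, hc | hc⟩ := hc
  · have e : A = fun _ => c := funext hc
    subst e
    exact (pf_B2 _).2 (pf_EC c h (h2 0) h1)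
  · have e : h = fun _ => c := funext hc
    subst e
    exact (pf_B2 _).2 (pf_EH A c h2 h1)

/-- the difference hierarchy for numbers and for words -/
theorem ds_dh {A : ℕ → ℕ} {T : Set ℕ} : DS A T ↔ lang T ∈ DH A := by
  rw [dh_ds, image_lang]
  constructor
  · rintro ⟨X, hX, h1, h2⟩
    exact ⟨X, hX, h1, fun x hx => by
      rw [← h2 x hx]
      exact ⟨fun h => h.2, fun h => ⟨hx, h⟩⟩⟩
  · rintro ⟨X, hX, h1, h2⟩
    exact ⟨X, hX, h1, fun x hx => by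
      rw [← h2 x hx]
      exact ⟨fun h => ⟨hx, h⟩, fun h => h.2⟩⟩

theorem ds_congr {A : ℕ → ℕ} {T T' : Set ℕ} (h : ∀ x, 0 < x → (x ∈ T ↔ x ∈ T')) (hT : DS A T) :
    DS A T' := by
  obtain ⟨X, hX, h1, h2⟩ := hT
  exact ⟨X, hX, h1, fun x hx => by rw [← h x hx, h2 x hx]⟩

/-- few advice values, sharp -/
theorem pf_DK2 (K : ℕ) (h : CA fun _ => K) (c : ℕ) {T : Set ℕ}
    (hT : DS (fun n => 2 ^ (c * n)) T) : DS (fun _ => K) T := by
  have hK : 0 < K := by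
    obtain ⟨_, _, α, hα, _⟩ := h _ all_isSpectrum
    exact lt_of_le_of_lt (Nat.zero_le _) (hα 0)
  have hc : Cmp (fun n => 2 ^ n - (2 ^ n - K)) :=
    cmp_of (g := fun P => P - (P - K)) (GR.id.sub (GR.id.sub (GR.num K))) fun n => Nat.sub_le _ _
  have h1 : CA fun n => 2 ^ n - (2 ^ n - K) := by
    refine pf_MO _ _ K (fun n => ?_) (fun n hn => ?_) h
    · have := Nat.two_pow_pos n
      omega
    · have h2 : K < 2 ^ n := lt_of_lt_of_le Nat.lt_two_pow_self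
        (Nat.pow_le_pow_right (by norm_num) hn)
      omega
  refine Pool.Agent.H69.ADV.pf_DA _ hc h1 c _ 0 (fun _ => hK) (fun n _ => ?_) T hT
  show 2 ^ ((2 * c + 4) * (n + 1)) - (2 ^ ((2 * c + 4) * (n + 1)) - K) ≤ K
  omega

/-- complements are one level higher -/
theorem ds_compl (K : ℕ) {T : Set ℕ} (hT : DS (fun _ => K) T) :
    DS (fun n => 2 ^ ((K + 1) * n)) (posCompl T) := by
  obtain ⟨X, hX, hd, hXT⟩ := hT
  refine ⟨{w | 0 < w ∧ (((Nat.unpair w).1 = 0 ∧ (Nat.unpair w).2 ∈ {x | 0 < x ∧ (x < 2 ∧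
    x ∈ posCompl T)}) ∨ (2 ≤ (Nat.unpair w).2 ∧ ((Nat.unpair w).1 = 0 ∨ ((Nat.unpair w).1 ≤ K ∧
      Nat.pair ((Nat.unpair w).1 - 1) (Nat.unpair w).2 ∈ X))))}, ?_, ?_, ?_⟩
  · refine RL.isSpectrum (RL.or ((RL.eq GR.id.fst (GR.num 0)).and
      (RL.mem (fin_isSpectrum _ _) GR.id.snd)) ((RL.le (GR.num 2) GR.id.snd).and (RL.or
      (RL.eq GR.id.fst (GR.num 0)) ((RL.le GR.id.fst (GR.num K)).and
        (RL.mem hX ((GR.id.fst.sub (GR.num 1)).pair GR.id.snd))))))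
  · intro x j hx
    simp only [Set.mem_ofPred_eq, Nat.unpair_pair, pair_pos hx, true_and]
    rintro (⟨h1, _⟩ | ⟨h1, h2 | ⟨h2, h3⟩⟩)
    · omega
    · omega
    · right
      refine ⟨h1, ?_⟩
      rcases Nat.eq_zero_or_pos j with h4 | h4
      · exact Or.inl h4
      · refine Or.inr ⟨by omega, hd x (j - 1) hx ?_⟩
        rw [show j - 1 + 1 = j + 1 - 1 by omega]
        exact h3
  · intro x hx
    simp only [Set.mem_ofPred_eq, Nat.unpair_pair, pair_pos hx, true_and]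
    rcases Nat.lt_or_ge x 2 with h1 | h1
    · have hx1 : x = 1 := by omega
      subst hx1
      have h0 : Nat.log 2 1 = 0 := by simp
      rw [h0, mul_zero, pow_zero]
      by_cases hT : 1 ∈ posCompl T
      · have : {j | j < 1 ∧ (j = 0 ∧ 0 < 1 ∧ 1 < 2 ∧ 1 ∈ posCompl T ∨
            2 ≤ 1 ∧ (j = 0 ∨ j ≤ K ∧ Nat.pair (j - 1) 1 ∈ X))} = {0} := by
          ext j
          constructor
          · rintro ⟨h2, _⟩
            show j = 0
            omega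
          · intro h2
            have h2' : j = 0 := h2
            exact ⟨by omega, Or.inl ⟨h2', by norm_num, by norm_num, hT⟩⟩
        rw [this, Set.ncard_singleton]
        simp [hT]
      · have : {j | j < 1 ∧ (j = 0 ∧ 0 < 1 ∧ 1 < 2 ∧ 1 ∈ posCompl T ∨
            2 ≤ 1 ∧ (j = 0 ∨ j ≤ K ∧ Nat.pair (j - 1) 1 ∈ X))} = ∅ := by
          ext j
          simp only [Set.mem_empty_iff_false, iff_false]
          rintro ⟨_, ⟨_, _, _, h2⟩ | ⟨h2, _⟩⟩
          · exact hT h2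
          · omega
        rw [this, Set.ncard_empty]
        simp [hT]
    · set n := Nat.log 2 x with hn
      have hn1 : 1 ≤ n := Nat.log_pos (by norm_num) h1
      have hbig : K + 1 ≤ 2 ^ ((K + 1) * n) := by
        have h2 : K + 1 < 2 ^ (K + 1) := Nat.lt_two_pow_self
        have h3 : 2 ^ (K + 1) ≤ 2 ^ ((K + 1) * n) :=
          Nat.pow_le_pow_right (by norm_num) (Nat.le_mul_of_pos_right _ hn1)
        omega
      have h2 : {j | j < 2 ^ ((K + 1) * n) ∧ (j = 0 ∧ 0 < x ∧ x < 2 ∧ x ∈ posCompl T ∨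
            2 ≤ x ∧ (j = 0 ∨ j ≤ K ∧ Nat.pair (j - 1) x ∈ X))} =
          insert 0 ((fun j => j + 1) '' {j | j < K ∧ Nat.pair j x ∈ X}) := by
        ext j
        constructor
        · rintro ⟨_, ⟨h3, _⟩ | ⟨_, h3 | ⟨h3, h4⟩⟩⟩
          · exact Or.inl h3
          · exact Or.inl h3
          · rcases Nat.eq_zero_or_pos j with h5 | h5
            · exact Or.inl h5
            · exact Or.inr ⟨j - 1, ⟨by omega, h4⟩, by show j - 1 + 1 = j; omega⟩
        · rintro (h3 | ⟨i, ⟨h3, h4⟩, rfl⟩)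
          · have h3' : j = 0 := h3
            exact ⟨by omega, Or.inr ⟨h1, Or.inl h3'⟩⟩
          · refine ⟨by show i + 1 < _; omega, Or.inr ⟨h1, Or.inr ⟨by show i + 1 ≤ K; omega, ?_⟩⟩⟩
            show Nat.pair (i + 1 - 1) x ∈ X
            rwa [Nat.add_sub_cancel]
      have hfin : {j | j < K ∧ Nat.pair j x ∈ X}.Finite := (Set.finite_Iio K).subset fun t ht => ht.1
      have h3 := hXT x hx
      beta_reduce at h3
      rw [h2, Set.ncard_insert_of_notMem (by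
        rintro ⟨i, _, h4⟩
        have : i + 1 = 0 := h4
        omega) (hfin.image _), Set.ncard_image_of_injective _ (fun a b h => by
        have : a + 1 = b + 1 := h
        omega)]
      have h4 : x ∈ posCompl T ↔ x ∉ T := ⟨fun h => h.2, fun h => ⟨hx, h⟩⟩
      rw [h4, h3, Nat.odd_add_one]

/-- the constants -/
theorem l_tfae_const (K : ℕ) (β : ℝ) (hK : 0 < K) (hβ : β < 1) : List.TFAE [
    Appr (fun _ => K) (fun n => (2 : ℝ) ^ (β * n)),
    coNE ⊆ NEadv (fun _ => K),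
    ∀ T ∈ DH (fun _ => K), Tᶜ ∈ DH (fun _ => K),
    ∀ c : ℕ, DH (fun n => 2 ^ (c * n)) ⊆ DH (fun _ => K)] := by
  have compl_num : ∀ T : Set (List Bool), ∀ x, 0 < x → (x ∈ num '' Tᶜ ↔ x ∈ posCompl (num '' T)) := by
    intro T x hx
    obtain ⟨w, rfl⟩ := num_surj hx
    rw [num_mem]
    constructor
    · intro h
      exact ⟨hx, fun h2 => h (num_mem.1 h2)⟩
    · rintro ⟨_, h⟩ h2
      exact h (num_mem.2 h2)
  tfae_have 1 → 2 := by
    intro h
    obtain ⟨C, _, hC⟩ := pf_AV2 (fun _ => K) β hβ fun S hS => appr_num h S hS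
    exact (pf_B2 _).2 hC
  tfae_have 2 → 1 := fun h => appr_of (fun n => by positivity) h
  tfae_have 2 → 4 := fun h c T hT => dh_ds.2 (pf_DK2 K ((pf_B2 _).1 h) c (dh_ds.1 hT))
  tfae_have 4 → 3 := by
    intro h T hT
    have h1 := ds_compl K (dh_ds.1 hT)
    refine h (K + 1) (dh_ds.2 (ds_congr (fun x hx => (compl_num T x hx).symm) h1))
  tfae_have 3 → 2 := by
    intro h
    refine (pf_B2 _).2 (pf_KK K hK fun T hT => ?_)
    have h1 := dh_ds.1 (h _ (ds_dh.1 hT))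
    refine ds_congr (fun x hx => ?_) h1
    rw [compl_num _ x hx, image_lang]
    constructor
    · rintro ⟨h2, h3⟩
      exact ⟨h2, fun h4 => h3 ⟨hx, h4⟩⟩
    · rintro ⟨h2, h3⟩
      exact ⟨h2, fun h4 => h3 h4.2⟩
  tfae_finish

/-- one value is no advice -/
theorem l_one_value : coNE ⊆ NEadv (fun _ => 1) ↔ NE = coNE := by
  rw [ne_one]
  exact ⟨ne_co, fun h => h ▸ subset_rfl⟩

/-- the zero-one law -/
theorem l_tfae_zero (hEG : T_EG) : List.TFAE [
    ∃ (A h : ℕ → ℕ) (γ : ℝ), γ < 1 ∧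
      (∀ᶠ n in atTop, ((A n * (2 * h n + 1) : ℕ) : ℝ) ≤ (2 : ℝ) ^ (γ * n)) ∧
        Appr A (fun n => (h n : ℝ)),
    ∃ γ : ℝ, γ < 1 ∧ DH (fun n => 2 ^ n) ⊆ DH (fun n => 2 ^ ⌊γ * n⌋₊),
    ∀ δ : ℝ, 0 < δ → coNE ⊆ NEadv (fun n => 2 ^ ⌊δ * n⌋₊),
    ∀ (δ : ℝ) (c : ℕ), 0 < δ → DH (fun n => 2 ^ (c * n)) ⊆ DH (fun n => 2 ^ ⌊δ * n⌋₊)] := by
  have key : (∃ α : ℝ, 0 ≤ α ∧ α < 1 ∧ CA fun n => 2 ^ ⌊α * n⌋₊) →
      ∀ δ : ℝ, 0 < δ → coNE ⊆ NEadv (fun n => 2 ^ ⌊δ * n⌋₊) := by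
    rintro ⟨α, _, hα, h⟩ δ hδ
    exact (pf_B2 _).2 (z_0 α δ hα hδ h)
  tfae_have 1 → 3 := by
    rintro ⟨A, h, γ, hγ, hV, hA⟩
    exact key (hEG A h γ hγ hV (appr_cae hA))
  tfae_have 3 → 1 := by
    intro h
    refine ⟨fun n => 2 ^ ⌊(1 / 2 : ℝ) * n⌋₊, fun _ => 0, 1 / 2, by norm_num,
      Eventually.of_forall fun n => ?_, appr_of (fun n => by simp) (h _ (by norm_num))⟩
    rw [mul_zero, zero_add, mul_one, Nat.cast_pow, Nat.cast_ofNat, ← Real.rpow_natCast]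
    exact Real.rpow_le_rpow_of_exponent_le (by norm_num) (Nat.floor_le (by positivity))
  tfae_have 3 → 4 := by
    intro h δ c hδ T hT
    exact dh_ds.2 (pf_DZ z_0 (1 / 2) δ (by norm_num) hδ ((pf_B2 _).1 (h _ (by norm_num))) c
      (dh_ds.1 hT))
  tfae_have 4 → 2 := by
    intro h
    refine ⟨1 / 2, by norm_num, ?_⟩
    have h1 := h (1 / 2) 1 (by norm_num)
    simpa only [one_mul] using h1
  tfae_have 2 → 3 := by
    rintro ⟨γ, hγ, h⟩
    refine key (pf_ZZ (max γ 0) (le_max_right _ _) (max_lt hγ one_pos) fun T hT => ?_)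
    have h1 : DS (fun n => 2 ^ ⌊γ * n⌋₊) T := ds_dh.2 (h (ds_dh.1 hT))
    have h2 : (fun n : ℕ => 2 ^ ⌊max γ 0 * n⌋₊) = fun n : ℕ => 2 ^ ⌊γ * n⌋₊ := by
      funext n
      rcases le_total γ 0 with h3 | h3
      · rw [max_eq_right h3, zero_mul, Nat.floor_zero, Nat.floor_of_nonpos]
        exact mul_nonpos_of_nonpos_of_nonneg h3 (Nat.cast_nonneg n)
      · rw [max_eq_left h3]
    rwa [h2]
  tfae_finish

end Pool.Agent.H76.ADV
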