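import Pool.Agent.H76.ADV.Main2

/-!
# NE with advice: tally sets
-/

set_option autoImplicit false

namespace Pool.Agent.H76.ADV

open Pool.Agent.H69.Sp Pool.Agent.H69.Mt Pool.Agent.H8.JS Filter

theorem num_tally (n : ℕ) : num (List.replicate n false) = 2 ^ n := by
  induction n with
  | zero => rfl
  | succ n ih =>
    rw [List.replicate_succ', num, List.foldl_append]
    show 2 * num (List.replicate n false) + 0 = 2 ^ (n + 1)
    rw [ih, pow_succ]
    ring

/-- constantly many advice values and the tally sets -/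
theorem l_tally (K : ℕ) (h : coNE ⊆ NEadv (fun _ => K)) (ht : ∀ L ∈ NE, L ⊆ Tally → Lᶜ ∈ NE) :
    NE = coNE := by
  have key := pf_T K ((pf_B2 _).1 h) fun S hS hSt => by
    have h1 : lang S ∈ NE := j_jb S hS
    have h2 : lang S ⊆ Tally := by
      intro x hx
      obtain ⟨n, hn⟩ := hSt hx
      exact ⟨n, num_inj (by rw [hn, num_tally])⟩
    have h3 : IsSpectrum (num '' (lang S)ᶜ) := (j_js.1 _).1 (ht _ h1 h2)
    have h4 : {z | ∃ n, z = 2 ^ n} \ S = {z | 0 < z ∧ (z ∈ num '' (lang S)ᶜ ∧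
        z = 2 ^ Nat.log 2 z)} := by
      ext z
      constructor
      · rintro ⟨⟨n, hn⟩, hz⟩
        have hz0 : 0 < z := by rw [hn]; exact Nat.two_pow_pos n
        obtain ⟨x, rfl⟩ := num_surj hz0
        refine ⟨hz0, num_mem.2 hz, ?_⟩
        rw [hn, Nat.log_pow (by norm_num)]
      · rintro ⟨hz0, hz, h5⟩
        obtain ⟨x, rfl⟩ := num_surj hz0
        exact ⟨⟨_, h5⟩, num_mem.1 hz⟩
    rw [h4]
    exact RL.isSpectrum ((RL.mem h3 GR.id).and (RL.eq GR.id GR.id.powlog))
  refine ne_co fun L hL => ?_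
  have h1 := key _ ((j_js.1 _).1 hL)
  rw [image_compl] at h1
  exact (j_js.1 L).2 h1

end Pool.Agent.H76.ADV
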