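import Mathlib
import Pool.Agent.H76.ADV.DH
import Pool.Agent.H76.ADV.Defs2

/-!
# NE with advice, second part: targets
-/

set_option autoImplicit false

namespace Pool.Agent.H76.ADV

open Pool.Agent.H8.JS Pool.Agent.H69.Sp Filter

/-- all complements of spectra, with advice and errors -/
def CAE (A h : ℕ → ℕ) : Prop := ∀ S, IsSpectrum S → ∃ T, SA A T ∧
  ∀ᶠ n in atTop, er T (posCompl S) n ≤ h n

/-- the core: the two censuses as advice (no bound for the errors) -/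
def T_CO : Prop := ∀ (A : ℕ → ℕ) (S T : Set ℕ), IsSpectrum S → SA A T →
  ∃ Y, IsSpectrum Y ∧ ∃ α : ℕ → ℕ, (∀ n, α n < A n) ∧ ∀ x, 0 < x →
    (x ∈ posCompl S ↔ Nat.pair (Nat.pair (α (Nat.log 2 x))
      (Set.ncard {y | (2 ^ Nat.log 2 x ≤ y ∧ y < 2 ^ (Nat.log 2 x + 1)) ∧ y ∈ S} +
        Set.ncard {y | (2 ^ Nat.log 2 x ≤ y ∧ y < 2 ^ (Nat.log 2 x + 1)) ∧ y ∈ T})) x ∈ Y)

/-- errors cost advice, constantly many advice values -/
def T_EC : Prop := ∀ (c : ℕ) (h : ℕ → ℕ), 0 < c → CAE (fun _ => c) h →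
  CA fun n => c * (2 * h n + 1)

/-- errors cost advice, constantly many errors -/
def T_EH : Prop := ∀ (A : ℕ → ℕ) (c : ℕ), (∀ n, 0 < A n) → CAE A (fun _ => c) →
  CA fun n => A n * (2 * c + 1)

/-- errors cost advice, in general -/
def T_EG : Prop := ∀ (A h : ℕ → ℕ) (γ : ℝ), γ < 1 →
  (∀ᶠ n in atTop, ((A n * (2 * h n + 1) : ℕ) : ℝ) ≤ (2 : ℝ) ^ (γ * n)) → CAE A h →
  ∃ α : ℝ, 0 ≤ α ∧ α < 1 ∧ CA fun n => 2 ^ ⌊α * n⌋₊

/-- the difference hierarchy, sharp -/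
def T_DA : Prop := ∀ (A : ℕ → ℕ), Cmp A → CA A → ∀ (c : ℕ) (A' : ℕ → ℕ) (n₀ : ℕ),
  (∀ n, 0 < A' n) → (∀ n, n₀ ≤ n → A ((2 * c + 4) * (n + 1)) ≤ A' n) →
  ∀ T, DS (fun n => 2 ^ (c * n)) T → DS A' T

/-- the difference hierarchy, constant levels: from the collapse to the advice -/
def T_KK : Prop := ∀ K : ℕ, 0 < K →
  (∀ T, DS (fun _ => K) T → DS (fun _ => K) (posCompl T)) → CA fun _ => K

/-- the difference hierarchy, exponential levels: from the collapse to the advice -/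
def T_ZZ : Prop := ∀ γ : ℝ, 0 ≤ γ → γ < 1 →
  (∀ T, DS (fun n => 2 ^ n) T → DS (fun n => 2 ^ ⌊γ * n⌋₊) T) →
  ∃ α : ℝ, 0 ≤ α ∧ α < 1 ∧ CA fun n => 2 ^ ⌊α * n⌋₊

end Pool.Agent.H76.ADV
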